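import Mathlib

namespace Pool.Agent.Lib.GKN

open PowerSeries Finset

/-- `(q^x; q^2)_m` -/
noncomputable def po (x m : ℕ) : PowerSeries ℤ :=
  ∏ i ∈ range m, (1 - (X : PowerSeries ℤ) ^ (x + 2 * i))

/-- Gaussian binomial coefficients in base `q^2`. -/
noncomputable def gb : ℕ → ℕ → PowerSeries ℤ
  | _, 0 => 1
  | 0, _ + 1 => 0
  | m + 1, n + 1 => X ^ (2 * (n + 1)) * gb m (n + 1) + gb m n

lemma gb_zero (m : ℕ) : gb m 0 = 1 := by cases m <;> rfl

lemma gb_succ (m n : ℕ) : gb (m + 1) (n + 1) = X ^ (2 * (n + 1)) * gb m (n + 1) + gb m n := rfl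

lemma gb_eq_zero : ∀ (m n : ℕ), m < n → gb m n = 0
  | _, 0, h => by omega
  | 0, _ + 1, _ => rfl
  | m + 1, n + 1, h => by
      rw [gb_succ, gb_eq_zero m (n + 1) (by omega), gb_eq_zero m n (by omega)]; simp

lemma po_zero (x : ℕ) : po x 0 = 1 := by simp [po]

lemma po_succ (x m : ℕ) : po x (m + 1) = po x m * (1 - X ^ (x + 2 * m)) := by
  simp [po, prod_range_succ]

lemma po_succ' (x m : ℕ) : po x (m + 1) = (1 - X ^ x) * po (x + 2) m := by
  unfold po
  rw [prod_range_succ', mul_comm]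
  congr 1
  apply prod_congr rfl
  intro i _
  congr 2
  ring

lemma po_add (x m n : ℕ) : po x (m + n) = po x m * po (x + 2 * m) n := by
  unfold po
  rw [prod_range_add]
  congr 1
  apply prod_congr rfl
  intro i _
  congr 2
  ring

/-- `(1 - q^j)^{-1}` -/
noncomputable def geo (j : ℕ) : PowerSeries ℤ := PowerSeries.mk fun n => if j ∣ n then 1 else 0

lemma geo_mul (j : ℕ) (hj : 0 < j) : (1 - (X : PowerSeries ℤ) ^ j) * geo j = 1 := by
  ext n
  rw [sub_mul, one_mul, map_sub, coeff_X_pow_mul', coeff_one]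
  simp only [geo, coeff_mk]
  rcases Nat.eq_zero_or_pos n with rfl | hn
  · have : ¬ j ≤ 0 := by omega
    rw [if_neg this]; simp
  · rw [if_neg hn.ne']
    by_cases hle : j ≤ n
    · rw [if_pos hle]
      have h : j ∣ n ↔ j ∣ n - j := by
        constructor
        · intro h; exact Nat.dvd_sub h (dvd_refl j)
        · intro h
          have := (Nat.dvd_add_iff_left (dvd_refl j)).1 h
          rwa [Nat.sub_add_cancel hle] at this
      by_cases hd : j ∣ n
      · rw [if_pos hd, if_pos (h.1 hd)]; rfl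
      · rw [if_neg hd, if_neg (fun h' => hd (h.2 h'))]; rfl
    · have h : ¬ j ∣ n := fun h => hle (Nat.le_of_dvd hn h)
      rw [if_neg hle, if_neg h]; rfl

/-- `1 / (q^x; q^2)_m` -/
noncomputable def ip (x m : ℕ) : PowerSeries ℤ := ∏ i ∈ range m, geo (x + 2 * i)

lemma po_mul_ip (x m : ℕ) (hx : 0 < x) : po x m * ip x m = 1 := by
  unfold po ip
  rw [← prod_mul_distrib]
  apply prod_eq_one
  intro i _
  exact geo_mul _ (by omega)

lemma ip_add (x m n : ℕ) : ip x (m + n) = ip x m * ip (x + 2 * m) n := by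
  unfold ip
  rw [prod_range_add]
  congr 1
  apply prod_congr rfl
  intro i _
  congr 1
  ring

/-! ### Nonnegative power series -/

/-- nonnegative coefficients -/
def NN (f : PowerSeries ℤ) : Prop := ∀ i, 0 ≤ coeff i f

lemma NN.add {f g : PowerSeries ℤ} (hf : NN f) (hg : NN g) : NN (f + g) := fun i => by
  rw [map_add]; exact add_nonneg (hf i) (hg i)

lemma NN.mul {f g : PowerSeries ℤ} (hf : NN f) (hg : NN g) : NN (f * g) := fun i => by
  rw [coeff_mul]; exact sum_nonneg fun p _ => mul_nonneg (hf _) (hg _)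

lemma NN.one : NN 1 := fun i => by rw [coeff_one]; split_ifs <;> simp

lemma NN.X_pow (n : ℕ) : NN (X ^ n) := fun i => by rw [coeff_X_pow]; split_ifs <;> simp

lemma NN.zero : NN 0 := fun i => by simp

lemma NN.sum {ι : Type} (s : Finset ι) (f : ι → PowerSeries ℤ) (h : ∀ i ∈ s, NN (f i)) :
    NN (∑ i ∈ s, f i) := fun j => by
  rw [map_sum]; exact sum_nonneg fun i hi => h i hi j

lemma NN.geo (j : ℕ) : NN (geo j) := fun i => by
  simp only [GKN.geo, coeff_mk]; split_ifs <;> simp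

lemma NN.gb : ∀ (m n : ℕ), NN (gb m n)
  | _, 0 => by rw [gb_zero]; exact NN.one
  | 0, _ + 1 => NN.zero
  | m + 1, n + 1 => by
      rw [gb_succ]
      exact ((NN.X_pow _).mul (NN.gb m (n + 1))).add (NN.gb m n)

/-! ### The series -/

/-- `Gs a n = ∏_{i<n} (1 - q^{2a+1+2i}) / ∏_{i≤n} (1 - q^{2i+1})`; this is `G_{a+1,n}`. -/
noncomputable def Gs (a n : ℕ) : PowerSeries ℤ := po (2 * a + 1) n * ip 1 (n + 1)

/-- The mean value `∏_{i<n} (2a+1+2i) / ∏_{i≤n} (2i+1)`. -/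
noncomputable def mu (a n : ℕ) : ℝ :=
  (∏ i ∈ range n, (2 * (a : ℝ) + 1 + 2 * i)) / ∏ i ∈ range (n + 1), (2 * (i : ℝ) + 1)

/-- `t_j = (2j)!!/(2j+1)!!` -/
noncomputable def tt (j : ℕ) : ℝ :=
  (∏ i ∈ range j, (2 * (i : ℝ) + 2)) / ∏ i ∈ range (j + 1), (2 * (i : ℝ) + 1)

/-- `20/13` -/
noncomputable def ww : ℝ := 20 / 13

/-- `41/50` -/
noncomputable def kap : ℝ := 41 / 50

/-- `(2σ-1)!! (2s-3)!! / (2i+1)!!` with `σ = i + 1 - s`. -/
noncomputable def xb (s i : ℕ) : ℝ :=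
  (∏ l ∈ range (i + 1 - s), (2 * (l : ℝ) + 1)) * (∏ l ∈ range (s - 1), (2 * (l : ℝ) + 1)) /
    ∏ l ∈ range (i + 1), (2 * (l : ℝ) + 1)

/-- The terms of the inner sum. -/
noncomputable def TT (s i : ℕ) : PowerSeries ℤ :=
  if i < s then X ^ (i * (2 * i + 1)) * Gs (s - 1 - i) i
  else (-1) ^ (i + 1 - s) * X ^ (i * (2 * i + 1) - (i + 1 - s) ^ 2) *
    (po 1 (i + 1 - s) * po 1 (s - 1) * ip 1 (i + 1))

lemma Gs_zero_left (n : ℕ) : Gs 0 n = geo (2 * n + 1) := by
  have h1 : po 1 n * ip 1 n = 1 := po_mul_ip 1 n one_pos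
  unfold Gs
  rw [ip_add, ← mul_assoc]
  simp only [mul_zero, zero_add]
  rw [h1, one_mul]
  simp [ip, add_comm]

lemma Gs_symm (m n : ℕ) : Gs (m + 1) n = Gs (n + 1) m := by
  have e1 : po 1 (m + 1) * po (2 * (m + 1) + 1) n = po 1 (m + 1 + n) := by
    rw [po_add 1 (m + 1) n]; congr 2; ring
  have e2 : po 1 (n + 1) * po (2 * (n + 1) + 1) m = po 1 (n + 1 + m) := by
    rw [po_add 1 (n + 1) m]; congr 2; ring
  have h1 : po 1 (m + 1) * ip 1 (m + 1) = 1 := po_mul_ip 1 _ one_pos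
  have h2 : po 1 (n + 1) * ip 1 (n + 1) = 1 := po_mul_ip 1 _ one_pos
  have e3 : n + 1 + m = m + 1 + n := by ring
  rw [e3, ← e1] at e2
  unfold Gs
  calc po (2 * (m + 1) + 1) n * ip 1 (n + 1)
      = (po 1 (m + 1) * ip 1 (m + 1)) * (po (2 * (m + 1) + 1) n * ip 1 (n + 1)) := by
        rw [h1, one_mul]
    _ = (po 1 (m + 1) * po (2 * (m + 1) + 1) n) * (ip 1 (m + 1) * ip 1 (n + 1)) := by ring
    _ = (po 1 (n + 1) * ip 1 (n + 1)) * (po (2 * (n + 1) + 1) m * ip 1 (m + 1)) := by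
        rw [← e2]; ring
    _ = po (2 * (n + 1) + 1) m * ip 1 (m + 1) := by rw [h2, one_mul]

end Pool.Agent.Lib.GKN
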