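import Pool.Agent.Lib.MP_86b3b2_co.Base

namespace Pool.Agent.Lib.GKN

open Finset Polynomial

/-- Gaussian binomials as polynomials -/
noncomputable def gbp : ℕ → ℕ → ℤ[X]
  | _, 0 => 1
  | 0, _ + 1 => 0
  | m + 1, n + 1 => X ^ (2 * (n + 1)) * gbp m (n + 1) + gbp m n

lemma gbp_zero (m : ℕ) : gbp m 0 = 1 := by cases m <;> rfl

lemma gbp_succ (m n : ℕ) : gbp (m + 1) (n + 1) = X ^ (2 * (n + 1)) * gbp m (n + 1) + gbp m n := rfl

lemma gbp_eq_zero : ∀ (m n : ℕ), m < n → gbp m n = 0
  | _, 0, h => by omega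
  | 0, _ + 1, _ => rfl
  | m + 1, n + 1, h => by
      rw [gbp_succ, gbp_eq_zero m (n + 1) (by omega), gbp_eq_zero m n (by omega)]; simp

lemma gbp_mul : ∀ (m n : ℕ),
    (1 - (X : ℤ[X]) ^ (2 * (n + 1))) * gbp m (n + 1) = (1 - X ^ (2 * (m - n))) * gbp m n
  | 0, 0 => by simp [gbp]
  | 0, n + 1 => by simp [gbp]
  | m + 1, 0 => by
      have h := gbp_mul m 0
      simp only [gbp_succ, gbp_zero, Nat.sub_zero] at h ⊢
      have e : 2 * (m + 1) = 2 * (0 + 1) + 2 * m := by ring
      rw [e, pow_add]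
      linear_combination (X : ℤ[X]) ^ (2 * (0 + 1)) * h
  | m + 1, n + 1 => by
      have h1 := gbp_mul m (n + 1)
      have h2 := gbp_mul m n
      rcases Nat.lt_or_ge m (n + 1) with hlt | hle
      · rw [gbp_eq_zero (m + 1) (n + 1 + 1) (by omega)]
        have : m + 1 - (n + 1) = 0 := by omega
        rw [this]; simp
      · rw [gbp_succ, gbp_succ]
        obtain ⟨d, rfl⟩ := Nat.exists_eq_add_of_le hle
        have e1 : n + 1 + d - (n + 1) = d := by omega
        have e2 : n + 1 + d - n = d + 1 := by omega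
        have e3 : n + 1 + d + 1 - (n + 1) = d + 1 := by omega
        rw [e1] at h1
        rw [e2] at h2
        rw [e3]
        have p1 : (X : ℤ[X]) ^ (2 * (n + 1 + 1)) = X ^ 2 * X ^ (2 * (n + 1)) := by ring
        have p2 : (X : ℤ[X]) ^ (2 * (d + 1)) = X ^ 2 * X ^ (2 * d) := by ring
        rw [p1] at h1 ⊢
        rw [p2] at h2 ⊢
        linear_combination (X ^ 2 * (X : ℤ[X]) ^ (2 * (n + 1))) * h1 + h2

/-- the second Pascal rule -/
lemma gbp_succ' (m n : ℕ) : gbp (m + 1) (n + 1) = gbp m (n + 1) + X ^ (2 * (m - n)) * gbp m n := by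
  rw [gbp_succ]
  linear_combination -gbp_mul m n

lemma coe_gbp : ∀ m n : ℕ, ((gbp m n : ℤ[X]) : PowerSeries ℤ) = gb m n
  | _, 0 => by rw [gbp_zero, gb_zero]; simp
  | 0, _ + 1 => by simp [gbp, gb]
  | m + 1, n + 1 => by
      rw [gbp_succ, gb_succ, Polynomial.coe_add, Polynomial.coe_mul, coe_gbp m (n + 1),
        coe_gbp m n, Polynomial.coe_pow, Polynomial.coe_X]

lemma gbp_nonneg (m n u : ℕ) : 0 ≤ (gbp m n).coeff u := by
  rw [← Polynomial.coeff_coe, coe_gbp]; exact NN.gb m n u

lemma gbp_eval_one : ∀ m n : ℕ, (gbp m n).eval 1 = (m.choose n : ℤ)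
  | _, 0 => by rw [gbp_zero]; simp
  | 0, _ + 1 => by simp [gbp]
  | m + 1, n + 1 => by
      rw [gbp_succ, Polynomial.eval_add, Polynomial.eval_mul, gbp_eval_one m (n + 1),
        gbp_eval_one m n, Nat.choose_succ_succ]
      simp
      ring

/-- palindromic of degree `d` -/
def Pal (d : ℕ) (p : ℤ[X]) : Prop := p.natDegree ≤ d ∧ p.reflect d = p

lemma Pal.mul {d e : ℕ} {p q : ℤ[X]} (hp : Pal d p) (hq : Pal e q) : Pal (d + e) (p * q) :=
  ⟨(natDegree_mul_le).trans (add_le_add hp.1 hq.1), by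
    rw [reflect_mul p q hp.1 hq.1, hp.2, hq.2]⟩

lemma gbp_pal : ∀ m n : ℕ, n ≤ m → Pal (2 * (n * (m - n))) (gbp m n)
  | _, 0, _ => by
      rw [gbp_zero]
      constructor
      · simp
      · simp [reflect_one]
  | 0, n + 1, h => by omega
  | m + 1, n + 1, h => by
      rcases Nat.lt_or_ge n m with hlt | hge
      · have h1 := gbp_pal m (n + 1) (by omega)
        have h2 := gbp_pal m n (by omega)
        obtain ⟨d, rfl⟩ := Nat.exists_eq_add_of_lt hlt
        have e1 : n + d + 1 - (n + 1) = d := by omega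
        have e2 : n + d + 1 - n = d + 1 := by omega
        have e3 : n + d + 1 + 1 - (n + 1) = d + 1 := by omega
        rw [e1] at h1
        rw [e2] at h2
        rw [e3]
        constructor
        · rw [gbp_succ]
          apply (natDegree_add_le _ _).trans
          apply max_le
          · apply natDegree_mul_le.trans
            rw [natDegree_X_pow]
            have := h1.1
            nlinarith
          · apply h2.1.trans
            nlinarith
        · conv_lhs => rw [gbp_succ]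
          conv_rhs => rw [gbp_succ', e2]
          rw [reflect_add]
          congr 1
          · have e4 : 2 * ((n + 1) * (d + 1)) = 2 * (n + 1) + 2 * ((n + 1) * d) := by ring
            rw [e4, reflect_mul _ _ (natDegree_X_pow_le _) h1.1, h1.2]
            have : reflect (2 * (n + 1)) (X ^ (2 * (n + 1)) : ℤ[X]) = 1 := by
              have := reflect_monomial (2 * (n + 1)) (2 * (n + 1)) (R := ℤ)
              simpa using this
            rw [this, one_mul]
          · have e4 : 2 * ((n + 1) * (d + 1)) = 2 * (d + 1) + 2 * (n * (d + 1)) := by ring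
            have h5 : reflect (2 * (d + 1) + 2 * (n * (d + 1))) (1 * gbp (n + d + 1) n) =
                reflect (2 * (d + 1)) 1 * reflect (2 * (n * (d + 1))) (gbp (n + d + 1) n) :=
              reflect_mul _ _ (by simp) h2.1
            rw [one_mul] at h5
            rw [e4, h5, h2.2, reflect_one]
      · have : n = m := by omega
        subst this
        have e1 : n + 1 - (n + 1) = 0 := by omega
        rw [e1]
        have h2 := gbp_pal n n le_rfl
        rw [Nat.sub_self] at h2
        have e5 : gbp (n + 1) (n + 1) = gbp n n := by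
          rw [gbp_succ, gbp_eq_zero n (n + 1) (by omega)]; ring
        rw [e5]
        simpa using h2

lemma sum_le_eval (p : ℤ[X]) (hp : ∀ u, 0 ≤ p.coeff u) (y : ℕ) :
    ∑ u ∈ range (y + 1), p.coeff u ≤ p.eval 1 := by
  have h1 : p.eval 1 = ∑ u ∈ range (p.natDegree + 1 + (y + 1)), p.coeff u := by
    rw [eval_eq_sum_range' (show p.natDegree < p.natDegree + 1 + (y + 1) by omega)]
    simp
  rw [h1]
  apply sum_le_sum_of_subset_of_nonneg
  · intro u hu
    simp only [mem_range] at hu ⊢
    omega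
  · intro i _ _
    exact hp i

lemma half_mass (p : ℤ[X]) (hp : ∀ u, 0 ≤ p.coeff u) (d : ℕ) (hd : Pal d p) (y : ℕ)
    (hy : 2 * y < d) : 2 * ∑ u ∈ range (y + 1), p.coeff u ≤ p.eval 1 := by
  have h1 : p.eval 1 = ∑ u ∈ range (d + 1), p.coeff u := by
    rw [eval_eq_sum_range' (show p.natDegree < d + 1 by have := hd.1; omega)]
    simp
  have h2 : ∑ u ∈ range (y + 1), p.coeff u = ∑ u ∈ Ico (d - y) (d + 1), p.coeff u := by
    have h3 : ∀ u ∈ range (y + 1), p.coeff u = p.coeff (d - u) := by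
      intro u hu
      have hu := mem_range.1 hu
      have h4 : p.coeff u = (p.reflect d).coeff u := by rw [hd.2]
      rw [h4, coeff_reflect, revAt_le (by omega)]
    rw [sum_congr rfl h3, sum_Ico_eq_sum_range, ← sum_range_reflect]
    have e : d + 1 - (d - y) = y + 1 := by omega
    rw [e]
    apply sum_congr rfl
    intro u hu
    have hu := mem_range.1 hu
    congr 1
    omega
  have h3 : ∑ u ∈ range (y + 1), p.coeff u + ∑ u ∈ Ico (d - y) (d + 1), p.coeff u ≤ p.eval 1 := by
    rw [h1, ← sum_union]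
    · apply sum_le_sum_of_subset_of_nonneg
      · intro u hu
        simp only [mem_union, mem_range, mem_Ico] at hu ⊢
        omega
      · intro i _ _
        exact hp i
    · rw [disjoint_left]
      intro u hu hu2
      simp only [mem_range, mem_Ico] at hu hu2
      omega
  linarith

lemma mul_nonneg_coeff (p q : ℤ[X]) (hp : ∀ u, 0 ≤ p.coeff u) (hq : ∀ u, 0 ≤ q.coeff u) :
    ∀ u, 0 ≤ (p * q).coeff u := by
  intro u
  rw [coeff_mul]
  exact sum_nonneg fun x _ => mul_nonneg (hp _) (hq _)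

/-- coefficient of a product of a nonnegative polynomial and a bounded series -/
lemma coeff_mul_le (p : ℤ[X]) (hp : ∀ u, 0 ≤ p.coeff u) (G : PowerSeries ℤ) (M : ℝ)
    (hG : ∀ v, ((PowerSeries.coeff v G : ℤ) : ℝ) ≤ M) (y : ℕ) :
    ((PowerSeries.coeff y ((p : PowerSeries ℤ) * G) : ℤ) : ℝ) ≤
      M * ((∑ u ∈ range (y + 1), p.coeff u : ℤ) : ℝ) := by
  rw [PowerSeries.coeff_mul, Finset.Nat.sum_antidiagonal_eq_sum_range_succ_mk]
  push_cast
  rw [mul_sum]
  apply sum_le_sum
  intro u _
  rw [mul_comm]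
  apply mul_le_mul_of_nonneg_right (hG _)
  exact_mod_cast hp u

/-- the two bounds for the coefficients of one term -/
theorem term_le (n j i e y : ℕ) (hj : j ≤ n) (hi : i ≤ j) (G : PowerSeries ℤ) (M : ℝ) (hM : 0 ≤ M)
    (hG : ∀ v, ((PowerSeries.coeff v G : ℤ) : ℝ) ≤ M) :
    ((PowerSeries.coeff y (PowerSeries.X ^ e * (gb n j * gb j i * G)) : ℤ) : ℝ) ≤
      M * ((n.choose j : ℝ) * (j.choose i : ℝ)) ∧
    (2 * y < 2 * e + (2 * (j * (n - j)) + 2 * (i * (j - i))) →
    ((PowerSeries.coeff y (PowerSeries.X ^ e * (gb n j * gb j i * G)) : ℤ) : ℝ) ≤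
      M * ((n.choose j : ℝ) * (j.choose i : ℝ)) / 2) := by
  have hnn := mul_nonneg_coeff _ _ (gbp_nonneg n j) (gbp_nonneg j i)
  have hev : (gbp n j * gbp j i).eval 1 = ((n.choose j * j.choose i : ℕ) : ℤ) := by
    rw [eval_mul, gbp_eval_one, gbp_eval_one]; push_cast; ring
  have e1 : gb n j * gb j i = ((gbp n j * gbp j i : ℤ[X]) : PowerSeries ℤ) := by
    rw [Polynomial.coe_mul, coe_gbp, coe_gbp]
  rw [PowerSeries.coeff_X_pow_mul', e1]
  have hpos : (0 : ℝ) ≤ M * ((n.choose j : ℝ) * (j.choose i : ℝ)) := by positivity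
  split_ifs with hle
  · have h1 := coeff_mul_le (gbp n j * gbp j i) hnn G M hG (y - e)
    constructor
    · have h2 := sum_le_eval _ hnn (y - e)
      rw [hev] at h2
      have h3 : ((∑ u ∈ range (y - e + 1), (gbp n j * gbp j i).coeff u : ℤ) : ℝ) ≤
          ((n.choose j * j.choose i : ℕ) : ℝ) := by exact_mod_cast h2
      calc _ ≤ _ := h1
        _ ≤ M * ((n.choose j * j.choose i : ℕ) : ℝ) := mul_le_mul_of_nonneg_left h3 hM
        _ = _ := by push_cast; ring
    · intro hy
      have h2 := half_mass _ hnn _ ((gbp_pal n j hj).mul (gbp_pal j i hi)) (y - e) (by omega)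
      rw [hev] at h2
      have h3 : 2 * ((∑ u ∈ range (y - e + 1), (gbp n j * gbp j i).coeff u : ℤ) : ℝ) ≤
          ((n.choose j * j.choose i : ℕ) : ℝ) := by exact_mod_cast h2
      have h4 : ((∑ u ∈ range (y - e + 1), (gbp n j * gbp j i).coeff u : ℤ) : ℝ) ≤
          ((n.choose j * j.choose i : ℕ) : ℝ) / 2 := by linarith
      calc _ ≤ _ := h1
        _ ≤ M * (((n.choose j * j.choose i : ℕ) : ℝ) / 2) := mul_le_mul_of_nonneg_left h4 hM
        _ = _ := by push_cast; ring
  · constructor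
    · simpa using hpos
    · intro _
      push_cast
      linarith

end Pool.Agent.Lib.GKN
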