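import Pool.Agent.Lib.MP_86b3b2_co.Base

namespace Pool.Agent.Lib.GKN

open Finset

/-- product splitting off the first factor -/
lemma prod_Ico_firstR (f : ℕ → ℝ) {j n : ℕ} (h : j < n) :
    ∏ l ∈ Ico j n, f l = f j * ∏ l ∈ Ico (j + 1) n, f l := by
  rw [← Finset.prod_Ioo_mul_eq_prod_Ico h, mul_comm]
  congr 1

/-- The additive Vandermonde identity. -/
theorem vandA (n : ℕ) : ∀ A Z : ℝ,
    ∏ l ∈ range n, (A + 2 * l) =
      ∑ j ∈ range (n + 1), (n.choose j : ℝ) * ((∏ l ∈ range j, (A - Z - 2 * l)) *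
        ∏ l ∈ Ico j n, (Z + 2 * l)) := by
  induction n with
  | zero => intro A Z; simp
  | succ n ih =>
    intro A Z
    have step : ∏ l ∈ range (n + 1), (A + 2 * (l : ℝ)) =
        A * ∏ l ∈ range n, ((A + 2) + 2 * (l : ℝ)) := by
      rw [prod_range_succ', mul_comm]
      congr 1
      · simp
      · apply prod_congr rfl
        intro l _
        push_cast
        ring
    rw [step, ih (A + 2) (Z + 2), mul_sum]
    have pr1 : ∀ j : ℕ, ∏ l ∈ range j, (A + 2 - (Z + 2) - 2 * (l : ℝ)) =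
        ∏ l ∈ range j, (A - Z - 2 * (l : ℝ)) := by
      intro j
      apply prod_congr rfl
      intro l _
      ring
    have pr2 : ∀ j, ∏ l ∈ Ico (j + 1) (n + 1), (Z + 2 * (l : ℝ)) =
        ∏ l ∈ Ico j n, (Z + 2 + 2 * (l : ℝ)) := by
      intro j
      rw [← Finset.prod_Ico_add' (fun l : ℕ => (Z + 2 * (l : ℝ))) j n 1]
      apply prod_congr rfl
      intro l _
      push_cast
      ring
    have key : ∀ j : ℕ, A * ((n.choose j : ℝ) * ((∏ l ∈ range j, (A + 2 - (Z + 2) - 2 * (l : ℝ))) *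
        ∏ l ∈ Ico j n, (Z + 2 + 2 * (l : ℝ)))) =
        (n.choose j : ℝ) * ((∏ l ∈ range j, (A - Z - 2 * (l : ℝ))) *
          ((Z + 2 * j) * ∏ l ∈ Ico (j + 1) (n + 1), (Z + 2 * (l : ℝ)))) +
        (n.choose j : ℝ) * ((∏ l ∈ range (j + 1), (A - Z - 2 * (l : ℝ))) *
          ∏ l ∈ Ico (j + 1) (n + 1), (Z + 2 * (l : ℝ))) := by
      intro j
      rw [pr1, pr2, prod_range_succ]
      ring
    rw [sum_congr rfl fun j _ => key j, sum_add_distrib]
    rw [sum_range_succ' (fun j => ((n + 1).choose j : ℝ) * ((∏ l ∈ range j, (A - Z - 2 * (l : ℝ))) *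
        ∏ l ∈ Ico j (n + 1), (Z + 2 * (l : ℝ)))) (n + 1)]
    have dist : ∀ j, ((n + 1).choose (j + 1) : ℝ) * ((∏ l ∈ range (j + 1), (A - Z - 2 * (l : ℝ))) *
        ∏ l ∈ Ico (j + 1) (n + 1), (Z + 2 * (l : ℝ))) =
        (n.choose (j + 1) : ℝ) * ((∏ l ∈ range (j + 1), (A - Z - 2 * (l : ℝ))) *
        ∏ l ∈ Ico (j + 1) (n + 1), (Z + 2 * (l : ℝ))) +
        (n.choose j : ℝ) * ((∏ l ∈ range (j + 1), (A - Z - 2 * (l : ℝ))) *
        ∏ l ∈ Ico (j + 1) (n + 1), (Z + 2 * (l : ℝ))) := by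
      intro j; rw [Nat.choose_succ_succ]; push_cast; ring
    rw [sum_congr rfl fun j _ => dist j, sum_add_distrib]
    rw [sum_range_succ' (fun j => (n.choose j : ℝ) * ((∏ l ∈ range j, (A - Z - 2 * (l : ℝ))) *
          ((Z + 2 * j) * ∏ l ∈ Ico (j + 1) (n + 1), (Z + 2 * (l : ℝ))))) n]
    rw [sum_range_succ (fun j => (n.choose (j + 1) : ℝ) *
      ((∏ l ∈ range (j + 1), (A - Z - 2 * (l : ℝ))) *
        ∏ l ∈ Ico (j + 1) (n + 1), (Z + 2 * (l : ℝ)))) n]
    rw [Nat.choose_eq_zero_of_lt (by omega : n < n + 1)]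
    have e0 : ∏ l ∈ Ico 0 (n + 1), (Z + 2 * (l : ℝ)) =
        Z * ∏ l ∈ Ico (0 + 1) (n + 1), (Z + 2 * (l : ℝ)) := by
      rw [prod_Ico_firstR _ (by omega : 0 < n + 1)]; simp
    have e1 : ∑ j ∈ range n, (n.choose (j + 1) : ℝ) *
        ((∏ l ∈ range (j + 1), (A - Z - 2 * (l : ℝ))) *
          ((Z + 2 * ((j + 1 : ℕ) : ℝ)) * ∏ l ∈ Ico (j + 1 + 1) (n + 1), (Z + 2 * (l : ℝ)))) =
        ∑ j ∈ range n, (n.choose (j + 1) : ℝ) *
      ((∏ l ∈ range (j + 1), (A - Z - 2 * (l : ℝ))) *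
        ∏ l ∈ Ico (j + 1) (n + 1), (Z + 2 * (l : ℝ))) := by
      apply sum_congr rfl
      intro j hj
      rw [prod_Ico_firstR _ (by have := mem_range.1 hj; omega : j + 1 < n + 1)]
    rw [e1, e0]
    simp only [Nat.choose_zero_right, range_zero, prod_empty, Nat.cast_zero, Nat.cast_one,
      mul_zero, zero_mul, add_zero, one_mul]
    ring

/-- `∏_{l<m} (2l+1)` -/
noncomputable def dv (m : ℕ) : ℝ := ∏ l ∈ range m, (2 * (l : ℝ) + 1)

lemma dv_pos (m : ℕ) : 0 < dv m := by unfold dv; positivity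

lemma dv_succ (m : ℕ) : dv (m + 1) = dv m * (2 * m + 1) := by
  unfold dv; rw [prod_range_succ]

lemma prod_Ico_dv (j n : ℕ) (h : j ≤ n) :
    (∏ l ∈ Ico j n, ((3 : ℝ) + 2 * l)) / dv (n + 1) = 1 / dv (j + 1) := by
  obtain ⟨d, rfl⟩ := Nat.exists_eq_add_of_le h
  clear h
  rw [div_eq_div_iff (dv_pos _).ne' (dv_pos _).ne', one_mul]
  induction d with
  | zero => simp
  | succ d ih =>
    rw [← add_assoc, prod_Ico_succ_top (by omega), dv_succ (j + d + 1), ← ih]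
    push_cast
    ring

lemma prod_facR (c : ℝ) (i : ℕ) :
    ∏ l ∈ range i, ((c + 2 * i + 1) - 3 - 2 * (l : ℝ)) = ∏ l ∈ range i, (c + 2 * (l : ℝ)) := by
  rw [← prod_range_reflect (fun l : ℕ => (c + 2 * (l : ℝ))) i]
  apply prod_congr rfl
  intro l hl
  have hl := mem_range.1 hl
  have : ((i - 1 - l : ℕ) : ℝ) = i - 1 - l := by
    rw [Nat.sub_sub, Nat.cast_sub (by omega)]; push_cast; ring
  rw [this]; ring

theorem outerA (a n : ℕ) (h : n ≤ a) : mu a n =
    ∑ j ∈ range (n + 1), (n.choose j : ℝ) *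
      ((∏ l ∈ range j, (2 * ((a : ℝ) - j) + 2 * l)) / dv (j + 1)) := by
  unfold mu
  have h1 : ∏ l ∈ range (n + 1), (2 * (l : ℝ) + 1) = dv (n + 1) := rfl
  rw [h1, vandA n (2 * a + 1) 3, sum_div]
  apply sum_congr rfl
  intro j hj
  have hj := mem_range.1 hj
  have e : ∏ l ∈ range j, ((2 * (a : ℝ) + 1) - 3 - 2 * (l : ℝ)) =
      ∏ l ∈ range j, (2 * ((a : ℝ) - j) + 2 * l) := by
    rw [← prod_facR (2 * ((a : ℝ) - j)) j]
    apply prod_congr rfl
    intro l _
    ring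
  rw [e, mul_div_assoc, mul_div_assoc, prod_Ico_dv j n (by omega)]
  ring

lemma prod_two_choose (m j : ℕ) (h : j ≤ m) :
    ∏ l ∈ range j, (2 * ((m + 1 : ℝ) - j) + 2 * (l : ℝ)) =
      (m.choose j : ℝ) * ∏ i ∈ range j, (2 * (i : ℝ) + 2) := by
  have h1 : ∏ i ∈ range j, (2 * (i : ℝ) + 2) = 2 ^ j * (j.factorial : ℝ) := by
    clear h
    induction j with
    | zero => simp
    | succ j ih => rw [prod_range_succ, ih, Nat.factorial_succ]; push_cast; ring
  have h2 : ∏ l ∈ range j, (2 * ((m + 1 : ℝ) - j) + 2 * (l : ℝ)) =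
      2 ^ j * (m.descFactorial j : ℝ) := by
    have h3 : (m.descFactorial j : ℝ) = ∏ l ∈ range j, ((m - (j - 1 - l) : ℕ) : ℝ) := by
      rw [Nat.descFactorial_eq_prod_range, ← prod_range_reflect (fun i => m - i) j]
      push_cast
      rfl
    rw [h3]
    have h4 : (2 : ℝ) ^ j = ∏ _l ∈ range j, (2 : ℝ) := by simp
    rw [h4, ← prod_mul_distrib]
    apply prod_congr rfl
    intro l hl
    have hl := mem_range.1 hl
    have : ((m - (j - 1 - l) : ℕ) : ℝ) = m - (j - 1 - l) := by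
      have e : ((j - 1 - l : ℕ) : ℝ) = j - 1 - l := by
        rw [Nat.sub_sub, Nat.cast_sub (by omega)]; push_cast; ring
      rw [Nat.cast_sub (by omega), e]
    rw [this]; ring
  rw [h1, h2, Nat.descFactorial_eq_factorial_mul_choose]
  push_cast
  ring

theorem choose_tt (a j : ℕ) (h : j + 1 ≤ a) : ((a - 1).choose j : ℝ) * tt j =
    (∏ l ∈ range j, (2 * ((a : ℝ) - j) + 2 * l)) / dv (j + 1) := by
  obtain ⟨m, rfl⟩ : ∃ m, a = m + 1 := ⟨a - 1, by omega⟩
  unfold tt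
  have h1 : ∏ l ∈ range (j + 1), (2 * (l : ℝ) + 1) = dv (j + 1) := rfl
  rw [h1]
  push_cast
  rw [prod_two_choose m j (by omega)]
  ring

theorem mu_eq (a n : ℕ) (h : n + 1 ≤ a) : mu a n =
    ∑ j ∈ range (n + 1), (n.choose j : ℝ) * (((a - 1).choose j : ℝ) * tt j) := by
  rw [outerA a n (by omega)]
  apply sum_congr rfl
  intro j hj
  have hj := mem_range.1 hj
  rw [choose_tt a j (by omega)]

lemma tt_pos (j : ℕ) : 0 < tt j := by unfold tt; positivity

theorem mu_ge (a n j : ℕ) (h : n + 1 ≤ a) (hj : j ≤ n) :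
    (n.choose j : ℝ) * ((a - 1).choose j : ℝ) * tt j ≤ mu a n := by
  rw [mu_eq a n h, mul_assoc]
  apply single_le_sum (f := fun j => (n.choose j : ℝ) * (((a - 1).choose j : ℝ) * tt j)) _
    (mem_range.2 (by omega : j < n + 1))
  intro i _
  have := tt_pos i
  positivity

/-- the term of the inner mean sum -/
noncomputable def tm (s i : ℕ) : ℝ :=
  if i < s then mu (s - 1 - i) i else (-1) ^ (i + 1 - s) * xb s i

theorem innerA (s j : ℕ) (hs : 1 ≤ s) :
    (∏ l ∈ range j, (2 * (s : ℝ) + 2 * l)) / dv (j + 1) =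
      ∑ i ∈ range (j + 1), (j.choose i : ℝ) * tm s i := by
  rw [vandA j (2 * s) 3, sum_div]
  apply sum_congr rfl
  intro i hi
  have hi := mem_range.1 hi
  rw [mul_div_assoc, mul_div_assoc, prod_Ico_dv i j (by omega), tm]
  split_ifs with his
  · obtain ⟨c, hc⟩ : ∃ c, s = c + i + 1 := ⟨s - 1 - i, by omega⟩
    have e : s - 1 - i = c := by omega
    rw [e]
    have e2 : ∏ l ∈ range i, (2 * (s : ℝ) - 3 - 2 * (l : ℝ)) =
        ∏ l ∈ range i, ((2 * (c : ℝ) + 1) + 2 * l) := by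
      rw [← prod_facR (2 * (c : ℝ) + 1) i]
      apply prod_congr rfl
      intro l _
      rw [hc]; push_cast; ring
    rw [e2]
    unfold mu dv
    ring
  · obtain ⟨r, rfl⟩ : ∃ r, s = r + 1 := ⟨s - 1, by omega⟩
    obtain ⟨σ, hσ⟩ : ∃ σ, i = r + σ := ⟨i - r, by omega⟩
    have e1 : i + 1 - (r + 1) = σ := by omega
    have e2 : r + 1 - 1 = r := by omega
    unfold xb
    rw [e1, e2]
    have e3 : ∏ l ∈ range i, (2 * ((r + 1 : ℕ) : ℝ) - 3 - 2 * (l : ℝ)) =
        (∏ l ∈ range r, (2 * (l : ℝ) + 1)) * ((-1) ^ σ * ∏ l ∈ range σ, (2 * (l : ℝ) + 1)) := by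
      rw [hσ, prod_range_add]
      congr 1
      · have : ∏ l ∈ range r, (2 * (l : ℝ) + 1) = ∏ l ∈ range r, ((1 : ℝ) + 2 * l) :=
          prod_congr rfl fun l _ => by ring
        rw [this, ← prod_facR 1 r]
        apply prod_congr rfl
        intro l _
        push_cast; ring
      · clear hσ e1
        induction σ with
        | zero => simp
        | succ σ ih =>
          rw [prod_range_succ, ih, prod_range_succ]
          push_cast
          ring
    rw [e3]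
    have h1 : ∏ l ∈ range (i + 1), (2 * (l : ℝ) + 1) = dv (i + 1) := rfl
    rw [h1]
    ring

lemma dv_mul_le (m n : ℕ) : dv m * dv n ≤ dv (m + n) := by
  induction n with
  | zero => simp [dv]
  | succ n ih =>
    rw [← add_assoc, dv_succ, dv_succ, ← mul_assoc]
    have h1 : (2 * (n : ℝ) + 1) ≤ 2 * ((m + n : ℕ) : ℝ) + 1 := by
      push_cast
      have : (0 : ℝ) ≤ m := Nat.cast_nonneg m
      linarith
    have h2 := dv_pos (m + n)
    apply mul_le_mul ih h1 (by positivity) h2.le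

lemma xb_nonneg (s i : ℕ) : 0 ≤ xb s i := by unfold xb; positivity

lemma xb_le (s i : ℕ) (hs : 1 ≤ s) (hi : s ≤ i) : xb s i ≤ 1 / 3 := by
  have h1 : xb s i = dv (i + 1 - s) * dv (s - 1) / dv (i + 1) := rfl
  have e : i + 1 - s + (s - 1) = i := by omega
  have h2 := dv_mul_le (i + 1 - s) (s - 1)
  rw [e] at h2
  rw [h1, dv_succ, div_le_div_iff₀ (by have := dv_pos i; positivity) (by norm_num)]
  have h3 : (1 : ℝ) ≤ i := by exact_mod_cast (by omega : 1 ≤ i)
  have h4 := dv_pos i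
  nlinarith

end Pool.Agent.Lib.GKN
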