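import Pool.Agent.Lib.MP_86b3b2_co.Ident
import Pool.Agent.Lib.MP_86b3b2_co.Mean
import Pool.Agent.Lib.MP_86b3b2_co.GbPal

namespace Pool.Agent.Lib.GKN

open PowerSeries Finset

/-- the `(j,i)` term of the coefficient formula -/
noncomputable def ct (a n y j i : ℕ) : ℤ :=
  if i < a - j then
    coeff y (X ^ (j * (2 * j + 1) + i * (2 * i + 1)) * (gb n j * gb j i * Gs (a - j - 1 - i) i))
  else 0

lemma bad_order (a j i y : ℕ) (hij : i ≤ j) (hja : j < a) (hi : a - j ≤ i)
    (hy : y + 2 ≤ a ^ 2 + a) :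
    y < j * (2 * j + 1) + (i * (2 * i + 1) - (i + 1 - (a - j)) ^ 2) := by
  obtain ⟨s, hs⟩ : ∃ s, a = j + s := ⟨a - j, by omega⟩
  have e1 : a - j = s := by omega
  rw [e1] at hi ⊢
  obtain ⟨t, rfl⟩ := Nat.exists_eq_add_of_le hi
  obtain ⟨r, rfl⟩ := Nat.exists_eq_add_of_le hij
  have e2 : s + t + 1 - s = t + 1 := by omega
  rw [e2]
  subst hs
  have hs1 : 1 ≤ s := by omega
  have h1 : (t + 1) ^ 2 ≤ (s + t) * (2 * (s + t) + 1) := by nlinarith
  obtain ⟨E, hE⟩ := Nat.exists_eq_add_of_le h1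
  have h2 : (s + t) * (2 * (s + t) + 1) - (t + 1) ^ 2 = E := by omega
  rw [h2]
  zify at hE hy ⊢
  have ht : (t : ℤ) ≤ t * t := by
    rcases Nat.eq_zero_or_pos t with rfl | h
    · simp
    · have : (1 : ℤ) ≤ t := by exact_mod_cast h
      nlinarith
  have hst : (0 : ℤ) ≤ s * t := by positivity
  nlinarith [sq_nonneg ((t : ℤ) + r)]

theorem coeff_formula (a n y : ℕ) (h : n + 1 ≤ a) (hy : y + 2 ≤ a ^ 2 + a ∨ 2 * n + 1 ≤ a) :
    coeff y (Gs a n) = ∑ j ∈ range (n + 1), ∑ i ∈ range (j + 1), ct a n y j i := by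
  rw [two_step a n h, map_sum]
  apply sum_congr rfl
  intro j hj
  have hj := mem_range.1 hj
  rw [map_sum]
  apply sum_congr rfl
  intro i hi
  have hi := mem_range.1 hi
  unfold ct TT
  split_ifs with hij
  · congr 1
    have e : a - j - 1 - i = a - j - 1 - i := rfl
    rw [pow_add]
    ring
  · rcases hy with hy | hy
    · have hb := bad_order a j i y (by omega) (by omega) (by omega) hy
      have e : X ^ (j * (2 * j + 1)) * gb n j * (gb j i * ((-1) ^ (i + 1 - (a - j)) *
          X ^ (i * (2 * i + 1) - (i + 1 - (a - j)) ^ 2) *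
            (po 1 (i + 1 - (a - j)) * po 1 (a - j - 1) * ip 1 (i + 1)))) =
          X ^ (j * (2 * j + 1) + (i * (2 * i + 1) - (i + 1 - (a - j)) ^ 2)) *
          (gb n j * gb j i * (-1) ^ (i + 1 - (a - j)) *
            (po 1 (i + 1 - (a - j)) * po 1 (a - j - 1) * ip 1 (i + 1))) := by
        rw [pow_add]; ring
      rw [e, coeff_X_pow_mul', if_neg (by omega)]
    · omega

lemma ct_nonneg (a n y j i : ℕ) (hj : j < a)
    (IH : ∀ a' i, a' + i + 1 ≤ a → ∀ y, 0 ≤ coeff y (Gs a' i)) : 0 ≤ ct a n y j i := by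
  unfold ct
  split_ifs with hi
  · have h1 : NN (Gs (a - j - 1 - i) i) := IH _ _ (by omega)
    exact ((NN.X_pow _).mul (((NN.gb n j).mul (NN.gb j i)).mul h1)) y
  · exact le_rfl

theorem nonneg_step (a n x : ℕ) (h : n + 1 ≤ a) (hx : x + 2 ≤ a ^ 2 + a ∨ 2 * n + 1 ≤ a)
    (IH : ∀ a' i, a' + i + 1 ≤ a → ∀ y, 0 ≤ coeff y (Gs a' i)) : 0 ≤ coeff x (Gs a n) := by
  rw [coeff_formula a n x h hx]
  apply sum_nonneg
  intro j hj
  have hj := mem_range.1 hj
  apply sum_nonneg
  intro i _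
  exact ct_nonneg a n x j i (by omega) IH

theorem apriori_aux (a n y : ℕ) (h : n + 1 ≤ a) (hy : y + 2 ≤ a ^ 2 + a)
    (IH : ∀ a' i, a' + i + 1 ≤ a → ∀ y, coeff y (Gs a' i) ≤ 2 ^ (a' + i + 1)) :
    coeff y (Gs a n) ≤ 2 ^ (a + n) := by
  rw [coeff_formula a n y h (Or.inl hy)]
  have h1 : ∀ j ∈ range (n + 1), ∑ i ∈ range (j + 1), ct a n y j i ≤
      (n.choose j : ℤ) * 2 ^ a := by
    intro j hj
    have hj := mem_range.1 hj
    have h2 : ∀ i ∈ range (j + 1), ct a n y j i ≤ (n.choose j : ℤ) * 2 ^ (a - j) *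
        (j.choose i : ℤ) := by
      intro i hi
      have hi := mem_range.1 hi
      unfold ct
      split_ifs with hij
      · have h3 := (term_le n j i (j * (2 * j + 1) + i * (2 * i + 1)) y (by omega) (by omega)
          (Gs (a - j - 1 - i) i) (2 ^ (a - j)) (by positivity) (by
            intro v
            have h4 := IH (a - j - 1 - i) i (by omega) v
            have e : a - j - 1 - i + i + 1 = a - j := by omega
            rw [e] at h4
            exact_mod_cast h4)).1
        have h5 : (((n.choose j : ℤ) * 2 ^ (a - j) * (j.choose i : ℤ) : ℤ) : ℝ) =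
            2 ^ (a - j) * ((n.choose j : ℝ) * (j.choose i : ℝ)) := by push_cast; ring
        rw [← h5] at h3
        exact_mod_cast h3
      · positivity
    calc ∑ i ∈ range (j + 1), ct a n y j i
        ≤ ∑ i ∈ range (j + 1), (n.choose j : ℤ) * 2 ^ (a - j) * (j.choose i : ℤ) := sum_le_sum h2
      _ = (n.choose j : ℤ) * 2 ^ (a - j) * ((∑ i ∈ range (j + 1), j.choose i : ℕ) : ℤ) := by
          rw [← mul_sum]; push_cast; rfl
      _ = (n.choose j : ℤ) * (2 ^ (a - j) * 2 ^ j) := by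
          rw [Nat.sum_range_choose]; push_cast; ring
      _ = (n.choose j : ℤ) * 2 ^ a := by
          rw [← pow_add]; congr 2; omega
  calc ∑ j ∈ range (n + 1), ∑ i ∈ range (j + 1), ct a n y j i
      ≤ ∑ j ∈ range (n + 1), (n.choose j : ℤ) * 2 ^ a := sum_le_sum h1
    _ = ((∑ j ∈ range (n + 1), n.choose j : ℕ) : ℤ) * 2 ^ a := by rw [← sum_mul]; push_cast; rfl
    _ = 2 ^ (a + n) := by rw [Nat.sum_range_choose, pow_add]; push_cast; ring

lemma tt_le_one (j : ℕ) : tt j ≤ 1 := by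
  unfold tt
  rw [div_le_one (by positivity)]
  rw [prod_range_succ']
  have : ∏ i ∈ range j, (2 * (i : ℝ) + 2) ≤ ∏ k ∈ range j, (2 * ((k + 1 : ℕ) : ℝ) + 1) := by
    apply prod_le_prod
    · intro i _; positivity
    · intro i _; push_cast; linarith
  simpa using this

lemma ww_pos : 0 < ww := by unfold ww; norm_num
lemma kap_pos : 0 < kap := by unfold kap; norm_num

lemma mu_le_pow (a n : ℕ) (h : n + 1 ≤ a) : mu a n ≤ 2 ^ (a - 1 + n) := by
  rw [mu_eq a n h]
  calc ∑ j ∈ range (n + 1), (n.choose j : ℝ) * (((a - 1).choose j : ℝ) * tt j)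
      ≤ ∑ j ∈ range (n + 1), (n.choose j : ℝ) * 2 ^ (a - 1) := by
        apply sum_le_sum
        intro j _
        apply mul_le_mul_of_nonneg_left _ (by positivity)
        have h1 : ((a - 1).choose j : ℝ) ≤ 2 ^ (a - 1) := by
          exact_mod_cast Nat.choose_le_two_pow (a - 1) j
        have h2 := tt_le_one j
        have h3 := tt_pos j
        have h4 : (0 : ℝ) ≤ ((a - 1).choose j : ℝ) := by positivity
        nlinarith
    _ = ((∑ j ∈ range (n + 1), n.choose j : ℕ) : ℝ) * 2 ^ (a - 1) := by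
        rw [← sum_mul]; push_cast; rfl
    _ = 2 ^ (a - 1 + n) := by rw [Nat.sum_range_choose, pow_add]; push_cast; ring

lemma kap_ww_le (s : ℕ) : kap * ww ^ (s + 2) ≤ 2 ^ (s + 1) := by
  induction s with
  | zero => unfold kap ww; norm_num
  | succ s ih =>
    rw [show s + 1 + 2 = (s + 2) + 1 by ring, pow_succ, ← mul_assoc, pow_succ 2 (s + 1)]
    have h1 : ww ≤ 2 := by unfold ww; norm_num
    have h2 := ww_pos
    apply mul_le_mul ih h1 h2.le (by positivity)

lemma coeff_le_two_pow (a n : ℕ) (h : n + 1 ≤ a)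
    (H : ∀ y, ((coeff y (Gs a n) : ℤ) : ℝ) ≤ mu a n + kap * ww ^ (a + n + 1)) (y : ℕ) :
    coeff y (Gs a n) ≤ 2 ^ (a + n + 1) := by
  have h1 := H y
  have h2 := mu_le_pow a n h
  obtain ⟨m, rfl⟩ : ∃ m, a = m + 1 := ⟨a - 1, by omega⟩
  have h3 := kap_ww_le (m + n)
  rw [show m + n + 2 = m + 1 + n + 1 by ring] at h3
  have e : m + 1 - 1 = m := by omega
  rw [e] at h2
  have h4 : ((coeff y (Gs (m + 1) n) : ℤ) : ℝ) ≤ 2 ^ (m + 1 + n + 1) := by
    have : (2 : ℝ) ^ (m + 1 + n + 1) = 4 * 2 ^ (m + n) := by ring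
    have h5 : (2 : ℝ) ^ (m + n + 1) = 2 * 2 ^ (m + n) := by ring
    have h6 : (0 : ℝ) < 2 ^ (m + n) := by positivity
    rw [h5] at h3
    linarith
  exact_mod_cast h4

theorem apriori_step (a n y : ℕ) (h : n + 1 ≤ a) (hy : y + 2 ≤ a ^ 2 + a)
    (IH2 : ∀ a' i, a' + i + 1 ≤ a → ∀ y, ((coeff y (Gs a' i) : ℤ) : ℝ) ≤
      mu a' i + kap * ww ^ (a' + i + 1)) :
    coeff y (Gs a n) ≤ 2 ^ (a + n) := by
  apply apriori_aux a n y h hy
  intro a' i hai v
  rcases Nat.eq_zero_or_pos a' with rfl | ha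
  · rw [Gs_zero_left]
    have h1 : (1 : ℤ) ≤ 2 ^ (0 + i + 1) := one_le_pow₀ (by norm_num)
    simp only [geo, coeff_mk]
    split_ifs
    · exact h1
    · linarith
  · rcases Nat.lt_or_ge i a' with hlt | hge
    · exact coeff_le_two_pow a' i hlt (IH2 a' i hai) v
    · obtain ⟨m, rfl⟩ : ∃ m, a' = m + 1 := ⟨a' - 1, by omega⟩
      rw [Gs_symm]
      have := coeff_le_two_pow (i + 1) m (by omega) (IH2 (i + 1) m (by omega)) v
      rwa [show i + 1 + m + 1 = m + 1 + i + 1 by ring] at this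

theorem upper_step (a n y js : ℕ) (h : n + 1 ≤ a) (hy : y + 2 ≤ a ^ 2 + a) (hj : js ≤ n)
    (hyj : y < js ^ 2 + js * (n + 1))
    (IH2 : ∀ a' i, a' + i + 1 ≤ a → ∀ y, ((coeff y (Gs a' i) : ℤ) : ℝ) ≤
      mu a' i + kap * ww ^ (a' + i + 1)) :
    ((coeff y (Gs a n) : ℤ) : ℝ) ≤ mu a n + 3 ^ n / 2 + kap * ww ^ a * (23 / 10) ^ n
      - (n.choose js : ℝ) * ((a - 1).choose js : ℝ) * tt js / 2 := by
  rw [coeff_formula a n y h (Or.inl hy)]
  have hw := ww_pos
  have hk := kap_pos
  have mu_nonneg : ∀ a n, 0 ≤ mu a n := by intro a n; unfold mu; positivity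
  -- bound for the inner mean sum
  have inner : ∀ j, j ≤ n → ∑ i ∈ range (j + 1), (if i < a - j then
      (mu (a - j - 1 - i) i + kap * ww ^ (a - j)) * (j.choose i : ℝ) else 0) ≤
      ((a - 1).choose j : ℝ) * tt j + 2 ^ j / 3 + 2 ^ j * (kap * ww ^ (a - j)) := by
    intro j hj
    have h1 := innerA (a - j) j (by omega)
    have e1 : ((a - j : ℕ) : ℝ) = a - j := by rw [Nat.cast_sub (by omega)]
    rw [e1] at h1
    rw [choose_tt a j (by omega), h1]
    have e2 : (2 : ℝ) ^ j = ∑ i ∈ range (j + 1), (j.choose i : ℝ) := by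
      have := Nat.sum_range_choose j
      rw [← Nat.cast_sum, this]; push_cast; ring
    rw [e2, sum_div, sum_mul, ← sum_add_distrib, ← sum_add_distrib]
    apply sum_le_sum
    intro i hi
    have hi := mem_range.1 hi
    have hc : (0 : ℝ) ≤ (j.choose i : ℝ) := by positivity
    unfold tm
    split_ifs with hij
    · nlinarith
    · have h3 := xb_nonneg (a - j) i
      have h4 := xb_le (a - j) i (by omega) (by omega)
      have h5 : -(1 / 3 : ℝ) ≤ (-1) ^ (i + 1 - (a - j)) * xb (a - j) i := by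
        rcases neg_one_pow_eq_or ℝ (i + 1 - (a - j)) with h6 | h6 <;> rw [h6] <;> linarith
      have h7 : (0 : ℝ) ≤ (j.choose i : ℝ) * (kap * ww ^ (a - j)) := by positivity
      have h8 : (j.choose i : ℝ) * (-(1 / 3)) ≤ (j.choose i : ℝ) *
        ((-1) ^ (i + 1 - (a - j)) * xb (a - j) i) := mul_le_mul_of_nonneg_left h5 hc
      linarith
  -- termwise
  have term : ∀ j, j ≤ n → ∀ i, i ≤ j → ((ct a n y j i : ℤ) : ℝ) ≤
      (n.choose j : ℝ) * (if i < a - j then
      (mu (a - j - 1 - i) i + kap * ww ^ (a - j)) * (j.choose i : ℝ) else 0) ∧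
      (j = js → ((ct a n y j i : ℤ) : ℝ) ≤
      (n.choose j : ℝ) * (if i < a - j then
      (mu (a - j - 1 - i) i + kap * ww ^ (a - j)) * (j.choose i : ℝ) else 0) / 2) := by
    intro j hj i hi
    unfold ct
    split_ifs with hij
    · have hM : 0 ≤ mu (a - j - 1 - i) i + kap * ww ^ (a - j) := by
        have := mu_nonneg (a - j - 1 - i) i
        positivity
      have h3 := term_le n j i (j * (2 * j + 1) + i * (2 * i + 1)) y hj hi
        (Gs (a - j - 1 - i) i) (mu (a - j - 1 - i) i + kap * ww ^ (a - j)) hM (by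
          intro v
          have h4 := IH2 (a - j - 1 - i) i (by omega) v
          have e : a - j - 1 - i + i + 1 = a - j := by omega
          rwa [e] at h4)
      constructor
      · have := h3.1
        linarith
      · intro hjs
        have h5 : 2 * y < 2 * (j * (2 * j + 1) + i * (2 * i + 1)) +
            (2 * (j * (n - j)) + 2 * (i * (j - i))) := by
          subst hjs
          obtain ⟨r, rfl⟩ := Nat.exists_eq_add_of_le hj
          obtain ⟨t, rfl⟩ := Nat.exists_eq_add_of_le hi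
          have e1 : i + t + r - (i + t) = r := by omega
          have e2 : i + t - i = t := by omega
          rw [e1, e2]
          nlinarith
        have := h3.2 h5
        linarith
    · constructor
      · simp
      · intro _; simp
  -- sum for every j
  have perj : ∀ j ∈ range (n + 1), ((∑ i ∈ range (j + 1), ct a n y j i : ℤ) : ℝ) ≤
      (n.choose j : ℝ) * (((a - 1).choose j : ℝ) * tt j) +
      ((n.choose j : ℝ) * (2 ^ j / 2) + (n.choose j : ℝ) * (2 ^ j * (kap * ww ^ (a - j)))) -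
      (if j = js then (n.choose js : ℝ) * ((a - 1).choose js : ℝ) * tt js / 2 else 0) := by
    intro j hj
    have hj := mem_range.1 hj
    have hin := inner j (by omega)
    have htt := tt_pos j
    have p1 : (0 : ℝ) ≤ (n.choose j : ℝ) * (((a - 1).choose j : ℝ) * tt j) := by positivity
    have p2 : (0 : ℝ) ≤ (n.choose j : ℝ) * (2 ^ j / 3) := by positivity
    have p3 : (0 : ℝ) ≤ (n.choose j : ℝ) * (2 ^ j * (kap * ww ^ (a - j))) := by positivity
    have hmul := mul_le_mul_of_nonneg_left hin (by positivity : (0 : ℝ) ≤ (n.choose j : ℝ))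
    push_cast
    split_ifs with hjs
    · have hs : ∑ i ∈ range (j + 1), ((ct a n y j i : ℤ) : ℝ) ≤
          ∑ i ∈ range (j + 1), (n.choose j : ℝ) * (if i < a - j then
      (mu (a - j - 1 - i) i + kap * ww ^ (a - j)) * (j.choose i : ℝ) else 0) / 2 := by
        apply sum_le_sum
        intro i hi
        have hi := mem_range.1 hi
        exact (term j (by omega) i (by omega)).2 hjs
      rw [← sum_div, ← mul_sum] at hs
      subst hjs
      nlinarith
    · have hs : ∑ i ∈ range (j + 1), ((ct a n y j i : ℤ) : ℝ) ≤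
          ∑ i ∈ range (j + 1), (n.choose j : ℝ) * (if i < a - j then
      (mu (a - j - 1 - i) i + kap * ww ^ (a - j)) * (j.choose i : ℝ) else 0) := by
        apply sum_le_sum
        intro i hi
        have hi := mem_range.1 hi
        exact (term j (by omega) i (by omega)).1
      rw [← mul_sum] at hs
      nlinarith
  push_cast at perj ⊢
  refine (sum_le_sum perj).trans ?_
  rw [sum_sub_distrib, sum_add_distrib, ← mu_eq a n h, sum_add_distrib]
  have s1 : ∑ j ∈ range (n + 1), (n.choose j : ℝ) * (2 ^ j / 2) = 3 ^ n / 2 := by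
    have h1 := add_pow (2 : ℝ) 1 n
    norm_num at h1
    rw [h1, sum_div]
    apply sum_congr rfl
    intro j _
    ring
  have s2 : ∑ j ∈ range (n + 1), (n.choose j : ℝ) * (2 ^ j * (kap * ww ^ (a - j))) =
      kap * ww ^ a * (23 / 10) ^ n := by
    have e : (23 / 10 : ℝ) = 2 / ww + 1 := by unfold ww; norm_num
    rw [e, add_pow, mul_sum]
    apply sum_congr rfl
    intro j hj
    have hj := mem_range.1 hj
    have e2 : ww ^ a = ww ^ (a - j) * ww ^ j := by rw [← pow_add]; congr 1; omega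
    rw [e2, div_pow, one_pow]
    field_simp
  have s3 : ∑ j ∈ range (n + 1), (if j = js then (n.choose js : ℝ) * ((a - 1).choose js : ℝ) *
      tt js / 2 else 0) = (n.choose js : ℝ) * ((a - 1).choose js : ℝ) * tt js / 2 := by
    rw [sum_ite_eq' (range (n + 1)) js, if_pos (mem_range.2 (by omega))]
  rw [s1, s2, s3]
  linarith

end Pool.Agent.Lib.GKN
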