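import Pool.Agent.Lib.MP_86b3b2_co.KDefs

/-! Kernel computation of `diag n W s` for `39 ≤ n ≤ 70`. The results are stored in definitions
(`PLift`), which Lean elaborates one after the other: this limits the memory needed. -/

namespace Pool.Agent.Lib.GKN.KC

set_option exponentiation.threshold 100000000 in
set_option maxRecDepth 100000 in
def d39 : PLift (diag 39 90 11 = true) := ⟨by decide +kernel⟩

set_option exponentiation.threshold 100000000 in
set_option maxRecDepth 100000 in
def d40 : PLift (diag 40 91 10 = true) := ⟨by decide +kernel⟩

set_option exponentiation.threshold 100000000 in
set_option maxRecDepth 100000 in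
def d41 : PLift (diag 41 92 9 = true) := ⟨by decide +kernel⟩

set_option exponentiation.threshold 100000000 in
set_option maxRecDepth 100000 in
def d42 : PLift (diag 42 94 9 = true) := ⟨by decide +kernel⟩

set_option exponentiation.threshold 100000000 in
set_option maxRecDepth 100000 in
def d43 : PLift (diag 43 95 8 = true) := ⟨by decide +kernel⟩

set_option exponentiation.threshold 100000000 in
set_option maxRecDepth 100000 in
def d44 : PLift (diag 44 97 8 = true) := ⟨by decide +kernel⟩

set_option exponentiation.threshold 100000000 in
set_option maxRecDepth 100000 in
def d45 : PLift (diag 45 99 8 = true) := ⟨by decide +kernel⟩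

set_option exponentiation.threshold 100000000 in
set_option maxRecDepth 100000 in
def d46 : PLift (diag 46 101 8 = true) := ⟨by decide +kernel⟩

set_option exponentiation.threshold 100000000 in
set_option maxRecDepth 100000 in
def d47 : PLift (diag 47 103 8 = true) := ⟨by decide +kernel⟩

set_option exponentiation.threshold 100000000 in
set_option maxRecDepth 100000 in
def d48 : PLift (diag 48 105 8 = true) := ⟨by decide +kernel⟩

set_option exponentiation.threshold 100000000 in
set_option maxRecDepth 100000 in
def d49 : PLift (diag 49 106 7 = true) := ⟨by decide +kernel⟩

set_option exponentiation.threshold 100000000 in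
set_option maxRecDepth 100000 in
def d50 : PLift (diag 50 108 7 = true) := ⟨by decide +kernel⟩

set_option exponentiation.threshold 100000000 in
set_option maxRecDepth 100000 in
def d51 : PLift (diag 51 110 7 = true) := ⟨by decide +kernel⟩

set_option exponentiation.threshold 100000000 in
set_option maxRecDepth 100000 in
def d52 : PLift (diag 52 112 7 = true) := ⟨by decide +kernel⟩

set_option exponentiation.threshold 100000000 in
set_option maxRecDepth 100000 in
def d53 : PLift (diag 53 114 7 = true) := ⟨by decide +kernel⟩

set_option exponentiation.threshold 100000000 in
set_option maxRecDepth 100000 in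
def d54 : PLift (diag 54 116 7 = true) := ⟨by decide +kernel⟩

set_option exponentiation.threshold 100000000 in
set_option maxRecDepth 100000 in
def d55 : PLift (diag 55 117 6 = true) := ⟨by decide +kernel⟩

set_option exponentiation.threshold 100000000 in
set_option maxRecDepth 100000 in
def d56 : PLift (diag 56 119 6 = true) := ⟨by decide +kernel⟩

set_option exponentiation.threshold 100000000 in
set_option maxRecDepth 100000 in
def d57 : PLift (diag 57 122 7 = true) := ⟨by decide +kernel⟩

set_option exponentiation.threshold 100000000 in
set_option maxRecDepth 100000 in
def d58 : PLift (diag 58 123 6 = true) := ⟨by decide +kernel⟩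

set_option exponentiation.threshold 100000000 in
set_option maxRecDepth 100000 in
def d59 : PLift (diag 59 125 6 = true) := ⟨by decide +kernel⟩

set_option exponentiation.threshold 100000000 in
set_option maxRecDepth 100000 in
def d60 : PLift (diag 60 127 6 = true) := ⟨by decide +kernel⟩

set_option exponentiation.threshold 100000000 in
set_option maxRecDepth 100000 in
def d61 : PLift (diag 61 128 5 = true) := ⟨by decide +kernel⟩

set_option exponentiation.threshold 100000000 in
set_option maxRecDepth 100000 in
def d62 : PLift (diag 62 131 6 = true) := ⟨by decide +kernel⟩

set_option exponentiation.threshold 100000000 in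
set_option maxRecDepth 100000 in
def d63 : PLift (diag 63 133 6 = true) := ⟨by decide +kernel⟩

set_option exponentiation.threshold 100000000 in
set_option maxRecDepth 100000 in
def d64 : PLift (diag 64 134 5 = true) := ⟨by decide +kernel⟩

set_option exponentiation.threshold 100000000 in
set_option maxRecDepth 100000 in
def d65 : PLift (diag 65 137 6 = true) := ⟨by decide +kernel⟩

set_option exponentiation.threshold 100000000 in
set_option maxRecDepth 100000 in
def d66 : PLift (diag 66 137 4 = true) := ⟨by decide +kernel⟩

set_option exponentiation.threshold 100000000 in
set_option maxRecDepth 100000 in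
def d67 : PLift (diag 67 140 5 = true) := ⟨by decide +kernel⟩

set_option exponentiation.threshold 100000000 in
set_option maxRecDepth 100000 in
def d68 : PLift (diag 68 142 5 = true) := ⟨by decide +kernel⟩

set_option exponentiation.threshold 100000000 in
set_option maxRecDepth 100000 in
def d69 : PLift (diag 69 143 4 = true) := ⟨by decide +kernel⟩

set_option exponentiation.threshold 100000000 in
set_option maxRecDepth 100000 in
def d70 : PLift (diag 70 146 5 = true) := ⟨by decide +kernel⟩

end Pool.Agent.Lib.GKN.KC
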