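import Pool.Agent.Lib.MP_86b3b2_co.KDefs

/-! Kernel computation of `diag n W s` for `71 ≤ n ≤ 92`. The results are stored in definitions
(`PLift`), which Lean elaborates one after the other: this limits the memory needed. -/

namespace Pool.Agent.Lib.GKN.KC

set_option exponentiation.threshold 100000000 in
set_option maxRecDepth 100000 in
def d71 : PLift (diag 71 148 5 = true) := ⟨by decide +kernel⟩

set_option exponentiation.threshold 100000000 in
set_option maxRecDepth 100000 in
def d72 : PLift (diag 72 149 4 = true) := ⟨by decide +kernel⟩

set_option exponentiation.threshold 100000000 in
set_option maxRecDepth 100000 in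
def d73 : PLift (diag 73 152 5 = true) := ⟨by decide +kernel⟩

set_option exponentiation.threshold 100000000 in
set_option maxRecDepth 100000 in
def d74 : PLift (diag 74 152 3 = true) := ⟨by decide +kernel⟩

set_option exponentiation.threshold 100000000 in
set_option maxRecDepth 100000 in
def d75 : PLift (diag 75 155 4 = true) := ⟨by decide +kernel⟩

set_option exponentiation.threshold 100000000 in
set_option maxRecDepth 100000 in
def d76 : PLift (diag 76 157 4 = true) := ⟨by decide +kernel⟩

set_option exponentiation.threshold 100000000 in
set_option maxRecDepth 100000 in
def d77 : PLift (diag 77 158 3 = true) := ⟨by decide +kernel⟩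

set_option exponentiation.threshold 100000000 in
set_option maxRecDepth 100000 in
def d78 : PLift (diag 78 161 4 = true) := ⟨by decide +kernel⟩

set_option exponentiation.threshold 100000000 in
set_option maxRecDepth 100000 in
def d79 : PLift (diag 79 163 4 = true) := ⟨by decide +kernel⟩

set_option exponentiation.threshold 100000000 in
set_option maxRecDepth 100000 in
def d80 : PLift (diag 80 164 3 = true) := ⟨by decide +kernel⟩

set_option exponentiation.threshold 100000000 in
set_option maxRecDepth 100000 in
def d81 : PLift (diag 81 167 4 = true) := ⟨by decide +kernel⟩

set_option exponentiation.threshold 100000000 in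
set_option maxRecDepth 100000 in
def d82 : PLift (diag 82 168 3 = true) := ⟨by decide +kernel⟩

set_option exponentiation.threshold 100000000 in
set_option maxRecDepth 100000 in
def d83 : PLift (diag 83 170 3 = true) := ⟨by decide +kernel⟩

set_option exponentiation.threshold 100000000 in
set_option maxRecDepth 100000 in
def d84 : PLift (diag 84 173 4 = true) := ⟨by decide +kernel⟩

set_option exponentiation.threshold 100000000 in
set_option maxRecDepth 100000 in
def d85 : PLift (diag 85 173 2 = true) := ⟨by decide +kernel⟩

set_option exponentiation.threshold 100000000 in
set_option maxRecDepth 100000 in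
def d86 : PLift (diag 86 176 3 = true) := ⟨by decide +kernel⟩

set_option exponentiation.threshold 100000000 in
set_option maxRecDepth 100000 in
def d87 : PLift (diag 87 179 4 = true) := ⟨by decide +kernel⟩

set_option exponentiation.threshold 100000000 in
set_option maxRecDepth 100000 in
def d88 : PLift (diag 88 179 2 = true) := ⟨by decide +kernel⟩

set_option exponentiation.threshold 100000000 in
set_option maxRecDepth 100000 in
def d89 : PLift (diag 89 182 3 = true) := ⟨by decide +kernel⟩

set_option exponentiation.threshold 100000000 in
set_option maxRecDepth 100000 in
def d90 : PLift (diag 90 183 2 = true) := ⟨by decide +kernel⟩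

set_option exponentiation.threshold 100000000 in
set_option maxRecDepth 100000 in
def d91 : PLift (diag 91 185 2 = true) := ⟨by decide +kernel⟩

set_option exponentiation.threshold 100000000 in
set_option maxRecDepth 100000 in
def d92 : PLift (diag 92 188 3 = true) := ⟨by decide +kernel⟩

end Pool.Agent.Lib.GKN.KC
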