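import Pool.Agent.Lib.MP_86b3b2_co.KDefs

/-! Kernel computation of `diag n W s` for `93 ≤ n ≤ 104`. The results are stored in definitions
(`PLift`), which Lean elaborates one after the other: this limits the memory needed. -/

namespace Pool.Agent.Lib.GKN.KC

set_option exponentiation.threshold 100000000 in
set_option maxRecDepth 100000 in
def d93 : PLift (diag 93 189 2 = true) := ⟨by decide +kernel⟩

set_option exponentiation.threshold 100000000 in
set_option maxRecDepth 100000 in
def d94 : PLift (diag 94 191 2 = true) := ⟨by decide +kernel⟩

set_option exponentiation.threshold 100000000 in
set_option maxRecDepth 100000 in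
def d95 : PLift (diag 95 194 3 = true) := ⟨by decide +kernel⟩

set_option exponentiation.threshold 100000000 in
set_option maxRecDepth 100000 in
def d96 : PLift (diag 96 195 2 = true) := ⟨by decide +kernel⟩

set_option exponentiation.threshold 100000000 in
set_option maxRecDepth 100000 in
def d97 : PLift (diag 97 197 2 = true) := ⟨by decide +kernel⟩

set_option exponentiation.threshold 100000000 in
set_option maxRecDepth 100000 in
def d98 : PLift (diag 98 198 1 = true) := ⟨by decide +kernel⟩

set_option exponentiation.threshold 100000000 in
set_option maxRecDepth 100000 in
def d99 : PLift (diag 99 200 1 = true) := ⟨by decide +kernel⟩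

set_option exponentiation.threshold 100000000 in
set_option maxRecDepth 100000 in
def d100 : PLift (diag 100 203 2 = true) := ⟨by decide +kernel⟩

set_option exponentiation.threshold 100000000 in
set_option maxRecDepth 100000 in
def d101 : PLift (diag 101 204 1 = true) := ⟨by decide +kernel⟩

set_option exponentiation.threshold 100000000 in
set_option maxRecDepth 100000 in
def d102 : PLift (diag 102 206 1 = true) := ⟨by decide +kernel⟩

set_option exponentiation.threshold 100000000 in
set_option maxRecDepth 100000 in
def d103 : PLift (diag 103 209 2 = true) := ⟨by decide +kernel⟩

set_option exponentiation.threshold 100000000 in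
set_option maxRecDepth 100000 in
def d104 : PLift (diag 104 210 1 = true) := ⟨by decide +kernel⟩

end Pool.Agent.Lib.GKN.KC
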