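import Pool.Agent.Lib.MP_86b3b2_co.KDefs

/-! Kernel computation of `diag n W s` for `105 ≤ n ≤ 118`. The results are stored in definitions
(`PLift`), which Lean elaborates one after the other: this limits the memory needed. -/

namespace Pool.Agent.Lib.GKN.KC

set_option exponentiation.threshold 100000000 in
set_option maxRecDepth 100000 in
def d105 : PLift (diag 105 212 1 = true) := ⟨by decide +kernel⟩

set_option exponentiation.threshold 100000000 in
set_option maxRecDepth 100000 in
def d107 : PLift (diag 107 216 1 = true) := ⟨by decide +kernel⟩

set_option exponentiation.threshold 100000000 in
set_option maxRecDepth 100000 in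
def d108 : PLift (diag 108 218 1 = true) := ⟨by decide +kernel⟩

set_option exponentiation.threshold 100000000 in
set_option maxRecDepth 100000 in
def d110 : PLift (diag 110 222 1 = true) := ⟨by decide +kernel⟩

set_option exponentiation.threshold 100000000 in
set_option maxRecDepth 100000 in
def d113 : PLift (diag 113 228 1 = true) := ⟨by decide +kernel⟩

end Pool.Agent.Lib.GKN.KC
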