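import Pool.Agent.Lib.MP_86b3b2_co.Star

/-! The inequality `star` for `39 ≤ n ≤ 118` and `a` not too close to `n + 1`: for fixed `n, j`
it is enough to check the two ends of the range of `a`. -/

namespace Pool.Agent.Lib.GKN

open PowerSeries Finset

namespace Star

/-- The numerical check at one value of `a`. -/
def chk2 (n j a0 a : ℕ) : Bool :=
  (fac j * fac (n - j)) * (fac j * fac (a - 1 - j)) * ttD j *
    ((2 * 41 * 20 ^ (n + 1) * 10 ^ n * 20 ^ a0 + 2 * 41 * 23 ^ n * 13 ^ (n + 1) * 20 ^ a0 +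
      50 * 3 ^ n * 13 ^ a0 * 13 ^ (n + 1) * 10 ^ n) * 20 ^ a) ≤
  fac n * fac (a - 1) * ttN j * (50 * 13 ^ (n + 1) * 10 ^ n * 20 ^ a0 * 13 ^ a)

/-- `RR` divided by the growth -/
noncomputable def E2 (n a0 : ℕ) : ℝ :=
  kap * ww ^ (n + 1) + kap * (23 / 10) ^ n + 3 ^ n / 2 / ww ^ a0

lemma chk2_spec (n j a0 a : ℕ) (hj : j ≤ n) (hja : j ≤ a - 1) (h : chk2 n j a0 a = true) :
    E2 n a0 * ww ^ a ≤ (n.choose j : ℝ) * ((a - 1).choose j : ℝ) * tt j / 2 := by
  unfold chk2 at h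
  rw [decide_eq_true_eq] at h
  simp only [fac_eq] at h
  have h' : (((j.factorial * (n - j).factorial) * (j.factorial * (a - 1 - j).factorial) * ttD j *
    ((2 * 41 * 20 ^ (n + 1) * 10 ^ n * 20 ^ a0 + 2 * 41 * 23 ^ n * 13 ^ (n + 1) * 20 ^ a0 +
      50 * 3 ^ n * 13 ^ a0 * 13 ^ (n + 1) * 10 ^ n) * 20 ^ a) : ℕ) : ℝ) ≤
    ((n.factorial * (a - 1).factorial * ttN j *
      (50 * 13 ^ (n + 1) * 10 ^ n * 20 ^ a0 * 13 ^ a) : ℕ) : ℝ) := by
    exact_mod_cast h
  push_cast at h'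
  rw [Nat.cast_choose ℝ hj, Nat.cast_choose ℝ hja, tt_eq]
  have p1 : (0 : ℝ) < j.factorial := by exact_mod_cast Nat.factorial_pos j
  have p2 : (0 : ℝ) < (n - j).factorial := by exact_mod_cast Nat.factorial_pos _
  have p4 : (0 : ℝ) < (a - 1 - j).factorial := by exact_mod_cast Nat.factorial_pos _
  have p3 : (0 : ℝ) < ttD j := by exact_mod_cast ttD_pos j
  have e1 : E2 n a0 * ww ^ a = ((2 * 41 * 20 ^ (n + 1) * 10 ^ n * 20 ^ a0 +
      2 * 41 * 23 ^ n * 13 ^ (n + 1) * 20 ^ a0 +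
      50 * 3 ^ n * 13 ^ a0 * 13 ^ (n + 1) * 10 ^ n) * 20 ^ a) /
      (2 * (50 * 13 ^ (n + 1) * 10 ^ n * 20 ^ a0 * 13 ^ a)) := by
    unfold E2 kap ww
    rw [div_pow, div_pow, div_pow, div_pow]
    field_simp
  have e2 : ((n.factorial : ℝ) / (j.factorial * (n - j).factorial)) *
      (((a - 1).factorial : ℝ) / (j.factorial * (a - 1 - j).factorial)) *
      ((ttN j : ℝ) / ttD j) / 2 = (n.factorial * (a - 1).factorial * ttN j) /
      (2 * ((j.factorial * (n - j).factorial) * (j.factorial * (a - 1 - j).factorial) *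
        ttD j)) := by
    field_simp
  rw [e1, e2, div_le_div_iff₀ (by positivity) (by positivity)]
  nlinarith

end Star

theorem star2 (n j a0 : ℕ) (hj : j ≤ n) (h0 : n + 1 ≤ a0) (h1 : a0 ≤ 2 * n)
    (hY : 2 * (a0 - 1) * n < a0 ^ 2 + a0 + j ^ 2 + j * (n + 1))
    (c1 : Star.chk2 n j a0 a0 = true) (c2 : Star.chk2 n j a0 (2 * n) = true)
    (a : ℕ) (ha0 : a0 ≤ a) (ha : a ≤ 2 * n) :
    ∃ j, j ≤ n ∧ (∀ y, y + a ^ 2 + a ≤ 2 * (a - 1) * n → y < j ^ 2 + j * (n + 1)) ∧
    kap * ww ^ (a + n + 1) + kap * ww ^ a * (23 / 10) ^ n + 3 ^ n / 2 ≤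
      (n.choose j : ℝ) * ((a - 1).choose j : ℝ) * tt j / 2 := by
  refine ⟨j, hj, ?_, ?_⟩
  · intro y hy
    obtain ⟨c, rfl⟩ := Nat.exists_eq_add_of_le ha0
    obtain ⟨b, rfl⟩ := Nat.exists_eq_add_of_le h0
    have e : n + 1 + b - 1 = n + b := by omega
    have e' : n + 1 + b + c - 1 = n + b + c := by omega
    rw [e] at hY
    rw [e'] at hy
    nlinarith
  · have hw : (0 : ℝ) < ww := by unfold ww; norm_num
    have hw1 : (1 : ℝ) ≤ ww := by unfold ww; norm_num
    have hk : (0 : ℝ) < kap := by unfold kap; norm_num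
    have s1 := Star.chk2_spec n j a0 a0 hj (by omega) c1
    have s2 := Star.chk2_spec n j a0 (2 * n) hj (by omega) c2
    have htt := Star.tt_pos j
    have hc : (0 : ℝ) ≤ (n.choose j : ℝ) * tt j / 2 := by positivity
    have hE : Star.E2 n a0 * ww ^ a ≤ (n.choose j : ℝ) * ((a - 1).choose j : ℝ) * tt j / 2 := by
      rcases Nat.lt_or_ge (20 * j) (7 * (a - 1)) with h2 | h2
      · have h3 := Star.decr (a - 1) j (by omega) (by omega) (2 * n - a)
        have e : a - 1 + (2 * n - a) = 2 * n - 1 := by omega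
        rw [e] at h3
        have e2 : Star.E2 n a0 * ww ^ (2 * n) = ww ^ (2 * n - a) * (Star.E2 n a0 * ww ^ a) := by
          calc Star.E2 n a0 * ww ^ (2 * n) = Star.E2 n a0 * ww ^ (2 * n - a + a) := by
                rw [Nat.sub_add_cancel ha]
            _ = _ := by rw [pow_add]; ring
        rw [e2] at s2
        have h4 := mul_le_mul_of_nonneg_left h3 hc
        have h5 : ww ^ (2 * n - a) * (Star.E2 n a0 * ww ^ a) ≤ ww ^ (2 * n - a) *
            ((n.choose j : ℝ) * ((a - 1).choose j : ℝ) * tt j / 2) := by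
          calc ww ^ (2 * n - a) * (Star.E2 n a0 * ww ^ a)
              ≤ (n.choose j : ℝ) * ((2 * n - 1).choose j : ℝ) * tt j / 2 := s2
            _ = (n.choose j : ℝ) * tt j / 2 * ((2 * n - 1).choose j : ℝ) := by ring
            _ ≤ _ := h4
            _ = _ := by ring
        exact le_of_mul_le_mul_left h5 (by positivity)
      · have h3 := Star.incr (a0 - 1) j (by omega) (a - a0) (by omega)
        have e : a0 - 1 + (a - a0) = a - 1 := by omega
        rw [e] at h3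
        have e2 : Star.E2 n a0 * ww ^ a = ww ^ (a - a0) * (Star.E2 n a0 * ww ^ a0) := by
          calc Star.E2 n a0 * ww ^ a = Star.E2 n a0 * ww ^ (a - a0 + a0) := by
                rw [Nat.sub_add_cancel ha0]
            _ = _ := by rw [pow_add]; ring
        rw [e2]
        have h4 := mul_le_mul_of_nonneg_left h3 hc
        calc ww ^ (a - a0) * (Star.E2 n a0 * ww ^ a0)
            ≤ ww ^ (a - a0) * ((n.choose j : ℝ) * ((a0 - 1).choose j : ℝ) * tt j / 2) :=
              mul_le_mul_of_nonneg_left s1 (by positivity)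
          _ = (n.choose j : ℝ) * tt j / 2 * (ww ^ (a - a0) * ((a0 - 1).choose j : ℝ)) := by ring
          _ ≤ _ := h4
          _ = _ := by ring
    have hlow : kap * ww ^ (a + n + 1) + kap * ww ^ a * (23 / 10) ^ n + 3 ^ n / 2 ≤
        Star.E2 n a0 * ww ^ a := by
      unfold Star.E2
      have h6 : (1 : ℝ) ≤ ww ^ (a - a0) := one_le_pow₀ hw1
      have h7 : (3 : ℝ) ^ n / 2 / ww ^ a0 * ww ^ a = 3 ^ n / 2 * ww ^ (a - a0) := by
        have : ww ^ a = ww ^ a0 * ww ^ (a - a0) := by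
          rw [← pow_add, Nat.add_sub_cancel' ha0]
        rw [this]
        field_simp
      have h8 : (0 : ℝ) < 3 ^ n / 2 := by positivity
      calc kap * ww ^ (a + n + 1) + kap * ww ^ a * (23 / 10) ^ n + 3 ^ n / 2
          ≤ kap * ww ^ (a + n + 1) + kap * ww ^ a * (23 / 10) ^ n +
            3 ^ n / 2 * ww ^ (a - a0) := by nlinarith
        _ = kap * ww ^ (n + 1) * ww ^ a + kap * (23 / 10) ^ n * ww ^ a +
            3 ^ n / 2 / ww ^ a0 * ww ^ a := by rw [h7, show a + n + 1 = (n + 1) + a by ring]; ring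
        _ = _ := by ring
    linarith

end Pool.Agent.Lib.GKN
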