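import Pool.Agent.Lib.MP_86b3b2_co.KDA
import Pool.Agent.Lib.MP_86b3b2_co.KDB
import Pool.Agent.Lib.MP_86b3b2_co.KDC
import Pool.Agent.Lib.MP_86b3b2_co.KDD
import Pool.Agent.Lib.MP_86b3b2_co.KDE
import Pool.Agent.Lib.MP_86b3b2_co.Star2

/-! The range `6 ≤ n ≤ 118`: kernel computation for `a` near `n + 1`, the inequality `star2` for
the other values of `a`. -/

namespace Pool.Agent.Lib.GKN

open PowerSeries Finset

/-- The data for one value of `n`: the computation covers `n + 1 ≤ a ≤ n + s`, the index `j` the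
values `n + 1 + s ≤ a ≤ 2 n`. -/
def KC.Cov (n : ℕ) : Prop :=
  ∃ s j W : ℕ, (s = 0 ∨ (2 * n + 1 + s ≤ W ∧ KC.diag n W s = true)) ∧ j ≤ n ∧ n + 1 + s ≤ 2 * n ∧
    2 * (n + 1 + s - 1) * n < (n + 1 + s) ^ 2 + (n + 1 + s) + j ^ 2 + j * (n + 1) ∧
    Star.chk2 n j (n + 1 + s) (n + 1 + s) = true ∧ Star.chk2 n j (n + 1 + s) (2 * n) = true

lemma KC.cov_all (n : ℕ) (h1 : 39 ≤ n) (h2 : n ≤ 118) : KC.Cov n := by
  interval_cases n
  · exact ⟨11, 22, 90, Or.inr ⟨by norm_num, KC.d39.down⟩, by norm_num, by norm_num, by norm_num,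
      by decide +kernel, by decide +kernel⟩
  · exact ⟨10, 23, 91, Or.inr ⟨by norm_num, KC.d40.down⟩, by norm_num, by norm_num, by norm_num,
      by decide +kernel, by decide +kernel⟩
  · exact ⟨9, 23, 92, Or.inr ⟨by norm_num, KC.d41.down⟩, by norm_num, by norm_num, by norm_num,
      by decide +kernel, by decide +kernel⟩
  · exact ⟨9, 24, 94, Or.inr ⟨by norm_num, KC.d42.down⟩, by norm_num, by norm_num, by norm_num,
      by decide +kernel, by decide +kernel⟩
  · exact ⟨8, 24, 95, Or.inr ⟨by norm_num, KC.d43.down⟩, by norm_num, by norm_num, by norm_num,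
      by decide +kernel, by decide +kernel⟩
  · exact ⟨8, 25, 97, Or.inr ⟨by norm_num, KC.d44.down⟩, by norm_num, by norm_num, by norm_num,
      by decide +kernel, by decide +kernel⟩
  · exact ⟨8, 26, 99, Or.inr ⟨by norm_num, KC.d45.down⟩, by norm_num, by norm_num, by norm_num,
      by decide +kernel, by decide +kernel⟩
  · exact ⟨8, 26, 101, Or.inr ⟨by norm_num, KC.d46.down⟩, by norm_num, by norm_num, by norm_num,
      by decide +kernel, by decide +kernel⟩
  · exact ⟨8, 27, 103, Or.inr ⟨by norm_num, KC.d47.down⟩, by norm_num, by norm_num, by norm_num,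
      by decide +kernel, by decide +kernel⟩
  · exact ⟨8, 28, 105, Or.inr ⟨by norm_num, KC.d48.down⟩, by norm_num, by norm_num, by norm_num,
      by decide +kernel, by decide +kernel⟩
  · exact ⟨7, 28, 106, Or.inr ⟨by norm_num, KC.d49.down⟩, by norm_num, by norm_num, by norm_num,
      by decide +kernel, by decide +kernel⟩
  · exact ⟨7, 29, 108, Or.inr ⟨by norm_num, KC.d50.down⟩, by norm_num, by norm_num, by norm_num,
      by decide +kernel, by decide +kernel⟩
  · exact ⟨7, 30, 110, Or.inr ⟨by norm_num, KC.d51.down⟩, by norm_num, by norm_num, by norm_num,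
      by decide +kernel, by decide +kernel⟩
  · exact ⟨7, 30, 112, Or.inr ⟨by norm_num, KC.d52.down⟩, by norm_num, by norm_num, by norm_num,
      by decide +kernel, by decide +kernel⟩
  · exact ⟨7, 31, 114, Or.inr ⟨by norm_num, KC.d53.down⟩, by norm_num, by norm_num, by norm_num,
      by decide +kernel, by decide +kernel⟩
  · exact ⟨7, 32, 116, Or.inr ⟨by norm_num, KC.d54.down⟩, by norm_num, by norm_num, by norm_num,
      by decide +kernel, by decide +kernel⟩
  · exact ⟨6, 32, 117, Or.inr ⟨by norm_num, KC.d55.down⟩, by norm_num, by norm_num, by norm_num,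
      by decide +kernel, by decide +kernel⟩
  · exact ⟨6, 33, 119, Or.inr ⟨by norm_num, KC.d56.down⟩, by norm_num, by norm_num, by norm_num,
      by decide +kernel, by decide +kernel⟩
  · exact ⟨7, 34, 122, Or.inr ⟨by norm_num, KC.d57.down⟩, by norm_num, by norm_num, by norm_num,
      by decide +kernel, by decide +kernel⟩
  · exact ⟨6, 34, 123, Or.inr ⟨by norm_num, KC.d58.down⟩, by norm_num, by norm_num, by norm_num,
      by decide +kernel, by decide +kernel⟩
  · exact ⟨6, 35, 125, Or.inr ⟨by norm_num, KC.d59.down⟩, by norm_num, by norm_num, by norm_num,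
      by decide +kernel, by decide +kernel⟩
  · exact ⟨6, 36, 127, Or.inr ⟨by norm_num, KC.d60.down⟩, by norm_num, by norm_num, by norm_num,
      by decide +kernel, by decide +kernel⟩
  · exact ⟨5, 36, 128, Or.inr ⟨by norm_num, KC.d61.down⟩, by norm_num, by norm_num, by norm_num,
      by decide +kernel, by decide +kernel⟩
  · exact ⟨6, 37, 131, Or.inr ⟨by norm_num, KC.d62.down⟩, by norm_num, by norm_num, by norm_num,
      by decide +kernel, by decide +kernel⟩
  · exact ⟨6, 37, 133, Or.inr ⟨by norm_num, KC.d63.down⟩, by norm_num, by norm_num, by norm_num,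
      by decide +kernel, by decide +kernel⟩
  · exact ⟨5, 38, 134, Or.inr ⟨by norm_num, KC.d64.down⟩, by norm_num, by norm_num, by norm_num,
      by decide +kernel, by decide +kernel⟩
  · exact ⟨6, 39, 137, Or.inr ⟨by norm_num, KC.d65.down⟩, by norm_num, by norm_num, by norm_num,
      by decide +kernel, by decide +kernel⟩
  · exact ⟨4, 39, 137, Or.inr ⟨by norm_num, KC.d66.down⟩, by norm_num, by norm_num, by norm_num,
      by decide +kernel, by decide +kernel⟩
  · exact ⟨5, 40, 140, Or.inr ⟨by norm_num, KC.d67.down⟩, by norm_num, by norm_num, by norm_num,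
      by decide +kernel, by decide +kernel⟩
  · exact ⟨5, 41, 142, Or.inr ⟨by norm_num, KC.d68.down⟩, by norm_num, by norm_num, by norm_num,
      by decide +kernel, by decide +kernel⟩
  · exact ⟨4, 41, 143, Or.inr ⟨by norm_num, KC.d69.down⟩, by norm_num, by norm_num, by norm_num,
      by decide +kernel, by decide +kernel⟩
  · exact ⟨5, 42, 146, Or.inr ⟨by norm_num, KC.d70.down⟩, by norm_num, by norm_num, by norm_num,
      by decide +kernel, by decide +kernel⟩
  · exact ⟨5, 42, 148, Or.inr ⟨by norm_num, KC.d71.down⟩, by norm_num, by norm_num, by norm_num,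
      by decide +kernel, by decide +kernel⟩
  · exact ⟨4, 43, 149, Or.inr ⟨by norm_num, KC.d72.down⟩, by norm_num, by norm_num, by norm_num,
      by decide +kernel, by decide +kernel⟩
  · exact ⟨5, 44, 152, Or.inr ⟨by norm_num, KC.d73.down⟩, by norm_num, by norm_num, by norm_num,
      by decide +kernel, by decide +kernel⟩
  · exact ⟨3, 44, 152, Or.inr ⟨by norm_num, KC.d74.down⟩, by norm_num, by norm_num, by norm_num,
      by decide +kernel, by decide +kernel⟩
  · exact ⟨4, 45, 155, Or.inr ⟨by norm_num, KC.d75.down⟩, by norm_num, by norm_num, by norm_num,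
      by decide +kernel, by decide +kernel⟩
  · exact ⟨4, 46, 157, Or.inr ⟨by norm_num, KC.d76.down⟩, by norm_num, by norm_num, by norm_num,
      by decide +kernel, by decide +kernel⟩
  · exact ⟨3, 46, 158, Or.inr ⟨by norm_num, KC.d77.down⟩, by norm_num, by norm_num, by norm_num,
      by decide +kernel, by decide +kernel⟩
  · exact ⟨4, 47, 161, Or.inr ⟨by norm_num, KC.d78.down⟩, by norm_num, by norm_num, by norm_num,
      by decide +kernel, by decide +kernel⟩
  · exact ⟨4, 48, 163, Or.inr ⟨by norm_num, KC.d79.down⟩, by norm_num, by norm_num, by norm_num,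
      by decide +kernel, by decide +kernel⟩
  · exact ⟨3, 48, 164, Or.inr ⟨by norm_num, KC.d80.down⟩, by norm_num, by norm_num, by norm_num,
      by decide +kernel, by decide +kernel⟩
  · exact ⟨4, 49, 167, Or.inr ⟨by norm_num, KC.d81.down⟩, by norm_num, by norm_num, by norm_num,
      by decide +kernel, by decide +kernel⟩
  · exact ⟨3, 49, 168, Or.inr ⟨by norm_num, KC.d82.down⟩, by norm_num, by norm_num, by norm_num,
      by decide +kernel, by decide +kernel⟩
  · exact ⟨3, 50, 170, Or.inr ⟨by norm_num, KC.d83.down⟩, by norm_num, by norm_num, by norm_num,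
      by decide +kernel, by decide +kernel⟩
  · exact ⟨4, 51, 173, Or.inr ⟨by norm_num, KC.d84.down⟩, by norm_num, by norm_num, by norm_num,
      by decide +kernel, by decide +kernel⟩
  · exact ⟨2, 51, 173, Or.inr ⟨by norm_num, KC.d85.down⟩, by norm_num, by norm_num, by norm_num,
      by decide +kernel, by decide +kernel⟩
  · exact ⟨3, 52, 176, Or.inr ⟨by norm_num, KC.d86.down⟩, by norm_num, by norm_num, by norm_num,
      by decide +kernel, by decide +kernel⟩
  · exact ⟨4, 52, 179, Or.inr ⟨by norm_num, KC.d87.down⟩, by norm_num, by norm_num, by norm_num,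
      by decide +kernel, by decide +kernel⟩
  · exact ⟨2, 53, 179, Or.inr ⟨by norm_num, KC.d88.down⟩, by norm_num, by norm_num, by norm_num,
      by decide +kernel, by decide +kernel⟩
  · exact ⟨3, 54, 182, Or.inr ⟨by norm_num, KC.d89.down⟩, by norm_num, by norm_num, by norm_num,
      by decide +kernel, by decide +kernel⟩
  · exact ⟨2, 54, 183, Or.inr ⟨by norm_num, KC.d90.down⟩, by norm_num, by norm_num, by norm_num,
      by decide +kernel, by decide +kernel⟩
  · exact ⟨2, 55, 185, Or.inr ⟨by norm_num, KC.d91.down⟩, by norm_num, by norm_num, by norm_num,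
      by decide +kernel, by decide +kernel⟩
  · exact ⟨3, 56, 188, Or.inr ⟨by norm_num, KC.d92.down⟩, by norm_num, by norm_num, by norm_num,
      by decide +kernel, by decide +kernel⟩
  · exact ⟨2, 56, 189, Or.inr ⟨by norm_num, KC.d93.down⟩, by norm_num, by norm_num, by norm_num,
      by decide +kernel, by decide +kernel⟩
  · exact ⟨2, 57, 191, Or.inr ⟨by norm_num, KC.d94.down⟩, by norm_num, by norm_num, by norm_num,
      by decide +kernel, by decide +kernel⟩
  · exact ⟨3, 57, 194, Or.inr ⟨by norm_num, KC.d95.down⟩, by norm_num, by norm_num, by norm_num,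
      by decide +kernel, by decide +kernel⟩
  · exact ⟨2, 58, 195, Or.inr ⟨by norm_num, KC.d96.down⟩, by norm_num, by norm_num, by norm_num,
      by decide +kernel, by decide +kernel⟩
  · exact ⟨2, 59, 197, Or.inr ⟨by norm_num, KC.d97.down⟩, by norm_num, by norm_num, by norm_num,
      by decide +kernel, by decide +kernel⟩
  · exact ⟨1, 59, 198, Or.inr ⟨by norm_num, KC.d98.down⟩, by norm_num, by norm_num, by norm_num,
      by decide +kernel, by decide +kernel⟩
  · exact ⟨1, 60, 200, Or.inr ⟨by norm_num, KC.d99.down⟩, by norm_num, by norm_num, by norm_num,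
      by decide +kernel, by decide +kernel⟩
  · exact ⟨2, 61, 203, Or.inr ⟨by norm_num, KC.d100.down⟩, by norm_num, by norm_num, by norm_num,
      by decide +kernel, by decide +kernel⟩
  · exact ⟨1, 61, 204, Or.inr ⟨by norm_num, KC.d101.down⟩, by norm_num, by norm_num, by norm_num,
      by decide +kernel, by decide +kernel⟩
  · exact ⟨1, 62, 206, Or.inr ⟨by norm_num, KC.d102.down⟩, by norm_num, by norm_num, by norm_num,
      by decide +kernel, by decide +kernel⟩
  · exact ⟨2, 62, 209, Or.inr ⟨by norm_num, KC.d103.down⟩, by norm_num, by norm_num, by norm_num,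
      by decide +kernel, by decide +kernel⟩
  · exact ⟨1, 63, 210, Or.inr ⟨by norm_num, KC.d104.down⟩, by norm_num, by norm_num, by norm_num,
      by decide +kernel, by decide +kernel⟩
  · exact ⟨1, 64, 212, Or.inr ⟨by norm_num, KC.d105.down⟩, by norm_num, by norm_num, by norm_num,
      by decide +kernel, by decide +kernel⟩
  · exact ⟨0, 64, 0, Or.inl rfl, by norm_num, by norm_num, by norm_num,
      by decide +kernel, by decide +kernel⟩
  · exact ⟨1, 65, 216, Or.inr ⟨by norm_num, KC.d107.down⟩, by norm_num, by norm_num, by norm_num,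
      by decide +kernel, by decide +kernel⟩
  · exact ⟨1, 66, 218, Or.inr ⟨by norm_num, KC.d108.down⟩, by norm_num, by norm_num, by norm_num,
      by decide +kernel, by decide +kernel⟩
  · exact ⟨0, 66, 0, Or.inl rfl, by norm_num, by norm_num, by norm_num,
      by decide +kernel, by decide +kernel⟩
  · exact ⟨1, 67, 222, Or.inr ⟨by norm_num, KC.d110.down⟩, by norm_num, by norm_num, by norm_num,
      by decide +kernel, by decide +kernel⟩
  · exact ⟨0, 67, 0, Or.inl rfl, by norm_num, by norm_num, by norm_num,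
      by decide +kernel, by decide +kernel⟩
  · exact ⟨0, 68, 0, Or.inl rfl, by norm_num, by norm_num, by norm_num,
      by decide +kernel, by decide +kernel⟩
  · exact ⟨1, 69, 228, Or.inr ⟨by norm_num, KC.d113.down⟩, by norm_num, by norm_num, by norm_num,
      by decide +kernel, by decide +kernel⟩
  · exact ⟨0, 69, 0, Or.inl rfl, by norm_num, by norm_num, by norm_num,
      by decide +kernel, by decide +kernel⟩
  · exact ⟨0, 70, 0, Or.inl rfl, by norm_num, by norm_num, by norm_num,
      by decide +kernel, by decide +kernel⟩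
  · exact ⟨0, 71, 0, Or.inl rfl, by norm_num, by norm_num, by norm_num,
      by decide +kernel, by decide +kernel⟩
  · exact ⟨0, 71, 0, Or.inl rfl, by norm_num, by norm_num, by norm_num,
      by decide +kernel, by decide +kernel⟩
  · exact ⟨0, 72, 0, Or.inl rfl, by norm_num, by norm_num, by norm_num,
      by decide +kernel, by decide +kernel⟩

lemma KC.diag_small (n : ℕ) (h1 : 6 ≤ n) (h2 : n ≤ 38) : KC.diag n (3 * n + 1) n = true := by
  interval_cases n
  exacts [KC.d6.down, KC.d7.down, KC.d8.down, KC.d9.down, KC.d10.down, KC.d11.down, KC.d12.down, KC.d13.down, KC.d14.down, KC.d15.down, KC.d16.down, KC.d17.down, KC.d18.down, KC.d19.down, KC.d20.down, KC.d21.down, KC.d22.down, KC.d23.down, KC.d24.down, KC.d25.down, KC.d26.down, KC.d27.down, KC.d28.down, KC.d29.down, KC.d30.down, KC.d31.down, KC.d32.down, KC.d33.down, KC.d34.down, KC.d35.down, KC.d36.down, KC.d37.down, KC.d38.down]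

theorem ksplit (a n : ℕ) (hn : 6 ≤ n) (hn2 : n ≤ 118) (h : n + 1 ≤ a) (h2 : a ≤ 2 * n)
    (h0 : ∀ y, y + 2 ≤ a ^ 2 + a → 0 ≤ coeff y (Gs a n))
    (h1 : ∀ y, y + 2 ≤ a ^ 2 + a → coeff y (Gs a n) ≤ 2 ^ (a + n)) :
    (kap * ww ^ (a + n + 1) ≤ mu a n ∧
    ∀ y, y + a ^ 2 + a ≤ 2 * (a - 1) * n → ((coeff y (Gs a n) : ℤ) : ℝ) ≤
      mu a n - kap * ww ^ (a + n + 1)) ∨
    ∃ j, j ≤ n ∧ (∀ y, y + a ^ 2 + a ≤ 2 * (a - 1) * n → y < j ^ 2 + j * (n + 1)) ∧
    kap * ww ^ (a + n + 1) + kap * ww ^ a * (23 / 10) ^ n + 3 ^ n / 2 ≤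
      (n.choose j : ℝ) * ((a - 1).choose j : ℝ) * tt j / 2 := by
  rcases Nat.lt_or_ge 38 n with h38 | h38
  · obtain ⟨s, j, W, hd, hj, hs, hY, c1, c2⟩ := KC.cov_all n h38 hn2
    rcases Nat.lt_or_ge (n + s) a with ha | ha
    · right
      exact star2 n j (n + 1 + s) hj (by omega) hs hY c1 c2 a (by omega) h2
    · left
      rcases hd with hd | hd
      · omega
      · exact KC.diag_sound hn hd.1 hd.2 a h ha h0 h1
  · left
    exact KC.diag_sound hn (by omega) (KC.diag_small n hn h38) a h (by omega) h0 h1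

end Pool.Agent.Lib.GKN
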