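import Pool.Agent.Lib.MP_86b3b2_co.RRdef

namespace Pool.Agent.Lib.GKN

open Finset

/-- The bound of the fluctuation of order `2h+1`. -/
noncomputable def bnd (h a b : ℕ) : ℝ :=
  if (a + h) % (2 * h + 1) + (b + h) % (2 * h + 1) ≤ h then
    2 ^ ((a + h) / (2 * h + 1) + (b + h) / (2 * h + 1) - 2) *
      RR h (h + (a + h) % (2 * h + 1)) (h + (b + h) % (2 * h + 1))
  else 0

theorem RR_nonneg : ∀ h x y : ℕ, 0 ≤ RR h x y := by
  intro h
  induction h with
  | zero => intro x y; rw [RR_zero]; split_ifs <;> norm_num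
  | succ h ih =>
    intro x y
    rw [RR_succ]
    have h1 : (0:ℝ) ≤ (if 2 ≤ x ∧ 1 ≤ y then RR h (x - 2) (y - 1) else 0) := by
      split_ifs
      · exact ih _ _
      · exact le_rfl
    have h2 : (0:ℝ) ≤ (if 1 ≤ x ∧ 2 ≤ y then RR h (x - 1) (y - 2) else 0) := by
      split_ifs
      · exact ih _ _
      · exact le_rfl
    have h3 : (0:ℝ) ≤ (if 1 ≤ x ∧ 1 ≤ y then RR h (x - 1) (y - 1) else 0) := by
      split_ifs
      · exact ih _ _
      · exact le_rfl
    linarith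

/-- ratio -/
noncomputable def dl : ℝ := (ww + 2) / ww ^ 3

theorem ww_pos' : 0 < ww := by unfold ww; norm_num

theorem dl_pos : 0 < dl := by unfold dl ww; norm_num

theorem dl_le_one : dl ≤ 1 := by unfold dl ww; norm_num

/-- One step of the recursion, for any function `F` in place of `RR h`. -/
theorem step_bound (F : ℕ → ℕ → ℝ) (C : ℝ) (hC : 0 ≤ C) (hF : ∀ x y, F x y ≤ C * ww ^ (x + y))
    (x y : ℕ) :
    (if 2 ≤ x ∧ 1 ≤ y then F (x - 2) (y - 1) else 0) +
      (if 1 ≤ x ∧ 2 ≤ y then F (x - 1) (y - 2) else 0) +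
      (if 1 ≤ x ∧ 1 ≤ y then F (x - 1) (y - 1) else 0) ≤ C * dl * ww ^ (x + y) := by
  have hw := ww_pos'
  have e : C * dl * ww ^ (x + y) = C * (ww ^ (x + y) / ww ^ 3) + C * (ww ^ (x + y) / ww ^ 3) +
      C * (ww ^ (x + y) / ww ^ 2) := by
    unfold dl
    field_simp
    ring
  rw [e]
  have p3 : 0 ≤ C * (ww ^ (x + y) / ww ^ 3) := by positivity
  have p2 : 0 ≤ C * (ww ^ (x + y) / ww ^ 2) := by positivity
  refine add_le_add (add_le_add ?_ ?_) ?_
  · split_ifs with hc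
    · refine (hF _ _).trans (le_of_eq ?_)
      have : x + y = (x - 2 + (y - 1)) + 3 := by omega
      rw [this, pow_add ww (x - 2 + (y - 1)) 3, mul_div_assoc, div_self (by positivity), mul_one]
    · exact p3
  · split_ifs with hc
    · refine (hF _ _).trans (le_of_eq ?_)
      have : x + y = (x - 1 + (y - 2)) + 3 := by omega
      rw [this, pow_add ww (x - 1 + (y - 2)) 3, mul_div_assoc, div_self (by positivity), mul_one]
    · exact p3
  · split_ifs with hc
    · refine (hF _ _).trans (le_of_eq ?_)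
      have : x + y = (x - 1 + (y - 1)) + 2 := by omega
      rw [this, pow_add ww (x - 1 + (y - 1)) 2, mul_div_assoc, div_self (by positivity), mul_one]
    · exact p2

theorem RR_le (h : ℕ) : ∀ x y : ℕ, RR h x y ≤ dl ^ h * ww ^ (x + y) := by
  have hw := ww_pos'
  induction h with
  | zero =>
    intro x y
    rw [RR_zero]
    split_ifs with hc
    · obtain ⟨rfl, rfl⟩ := hc; simp
    · positivity
  | succ h ih =>
    intro x y
    rw [RR_succ]
    have := step_bound (RR h) (dl ^ h) (pow_nonneg dl_pos.le h) ih x y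
    rw [pow_succ]
    exact this

theorem RR_sum_le (H : ℕ) : ∀ x y : ℕ, ∑ h ∈ range H, RR h x y ≤ ww ^ (x + y) := by
  have hw := ww_pos'
  induction H with
  | zero => intro x y; simp only [range_zero, sum_empty]; positivity
  | succ H ih =>
    intro x y
    rw [sum_range_succ', RR_zero]
    have e : ∑ h ∈ range H, RR (h + 1) x y =
        (if 2 ≤ x ∧ 1 ≤ y then ∑ h ∈ range H, RR h (x - 2) (y - 1) else 0) +
        (if 1 ≤ x ∧ 2 ≤ y then ∑ h ∈ range H, RR h (x - 1) (y - 2) else 0) +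
        (if 1 ≤ x ∧ 1 ≤ y then ∑ h ∈ range H, RR h (x - 1) (y - 1) else 0) := by
      simp_rw [RR_succ]
      rw [sum_add_distrib, sum_add_distrib]
      congr 1
      · congr 1
        · split_ifs <;> simp
        · split_ifs <;> simp
      · split_ifs <;> simp
    rw [e]
    by_cases hxy : x = 0 ∧ y = 0
    · obtain ⟨rfl, rfl⟩ := hxy
      simp
    · rw [if_neg hxy, add_zero]
      have := step_bound (fun x y => ∑ h ∈ range H, RR h x y) 1 zero_le_one
        (fun x y => by rw [one_mul]; exact ih x y) x y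
      refine this.trans ?_
      rw [one_mul]
      exact mul_le_of_le_one_left (by positivity) dl_le_one

theorem bnd_le (h a b : ℕ) (hh : 1 ≤ h) (ha : 1 ≤ a) (hb : 1 ≤ b) :
    bnd h a b ≤ RR h (a - 1) (b - 1) +
      2 * (dl / ww ^ 2) ^ h / ww * ww ^ (a - 1 + (b - 1)) := by
  have hw := ww_pos'
  have hd := dl_pos
  have hR := RR_nonneg h (a - 1) (b - 1)
  have hpos : 0 ≤ 2 * (dl / ww ^ 2) ^ h / ww * ww ^ (a - 1 + (b - 1)) := by positivity
  unfold bnd
  split_ifs with hc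
  swap
  · linarith
  obtain ⟨m, hm⟩ : ∃ m, m = 2 * h + 1 := ⟨_, rfl⟩
  rw [← hm] at hc ⊢
  have hmpos : 0 < m := by omega
  have ea := Nat.div_add_mod (a + h) m
  have eb := Nat.div_add_mod (b + h) m
  obtain ⟨qa, hqa⟩ : ∃ q, q = (a + h) / m := ⟨_, rfl⟩
  obtain ⟨qb, hqb⟩ : ∃ q, q = (b + h) / m := ⟨_, rfl⟩
  obtain ⟨al, hal⟩ : ∃ q, q = (a + h) % m := ⟨_, rfl⟩
  obtain ⟨be, hbe⟩ : ∃ q, q = (b + h) % m := ⟨_, rfl⟩
  rw [← hqa, ← hal] at ea
  rw [← hqb, ← hbe] at eb
  rw [← hal, ← hbe] at hc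
  rw [← hqa, ← hqb, ← hal, ← hbe]
  -- `qa, qb ≥ 1`
  rcases Nat.eq_zero_or_pos qa with h0 | hqa1
  · exfalso; rw [h0] at ea; simp only [mul_zero, zero_add] at ea; omega
  rcases Nat.eq_zero_or_pos qb with h0 | hqb1
  · exfalso; rw [h0] at eb; simp only [mul_zero, zero_add] at eb; omega
  obtain ⟨ka, rfl⟩ : ∃ k, qa = k + 1 := ⟨qa - 1, by omega⟩
  obtain ⟨kb, rfl⟩ : ∃ k, qb = k + 1 := ⟨qb - 1, by omega⟩
  have hk : ka + 1 + (kb + 1) - 2 = ka + kb := by omega
  rw [hk]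
  have ea2 : a - 1 = m * ka + (h + al) := by
    have : m * (ka + 1) = m * ka + m := by ring
    omega
  have eb2 : b - 1 = m * kb + (h + be) := by
    have : m * (kb + 1) = m * kb + m := by ring
    omega
  rcases Nat.eq_zero_or_pos (ka + kb) with hk0 | hkpos
  · obtain ⟨h1, h2⟩ : ka = 0 ∧ kb = 0 := by omega
    subst h1; subst h2
    simp only [mul_zero, zero_add] at ea2 eb2
    rw [ea2, eb2]
    have : 0 ≤ 2 * (dl / ww ^ 2) ^ h / ww * ww ^ (h + al + (h + be)) := by positivity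
    simp only [add_zero, pow_zero, one_mul]
    linarith
  · have h1 : (2:ℝ) ^ (ka + kb) * RR h (h + al) (h + be) ≤
        2 * (dl / ww ^ 2) ^ h / ww * ww ^ (a - 1 + (b - 1)) := by
      have h2 := RR_le h (h + al) (h + be)
      have e1 : a - 1 + (b - 1) = m * (ka + kb) + (h + al + (h + be)) := by
        rw [ea2, eb2]; ring
      rw [e1, pow_add ww, pow_mul ww]
      -- `2^k ≤ (2 / w^m) (w^m)^k`
      have h3 : (2:ℝ) ^ (ka + kb) * ww ^ m ≤ 2 * (ww ^ m) ^ (ka + kb) := by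
        obtain ⟨k, hk⟩ : ∃ k, ka + kb = k + 1 := ⟨ka + kb - 1, by omega⟩
        rw [hk, pow_succ, pow_succ]
        have h4 : (2:ℝ) ≤ ww ^ m := by
          have : ww ^ 3 ≤ ww ^ m := pow_le_pow_right₀ (by unfold ww; norm_num) (by omega)
          refine le_trans ?_ this
          unfold ww; norm_num
        have h5 : (2:ℝ) ^ k ≤ (ww ^ m) ^ k := pow_le_pow_left₀ (by norm_num) h4 k
        have h6 : 0 < ww ^ m := by positivity
        nlinarith
      have h7 : (2:ℝ) ^ (ka + kb) ≤ 2 * (ww ^ m) ^ (ka + kb) / ww ^ m := by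
        rw [le_div_iff₀ (by positivity)]; exact h3
      have e2 : 2 * (dl / ww ^ 2) ^ h / ww * ((ww ^ m) ^ (ka + kb) * ww ^ (h + al + (h + be))) =
          (2 * (ww ^ m) ^ (ka + kb) / ww ^ m) * (dl ^ h * ww ^ (h + al + (h + be))) := by
        rw [hm, div_pow, pow_succ ww (2 * h), ← pow_mul ww 2 h]
        field_simp
      rw [e2]
      exact mul_le_mul h7 h2 (RR_nonneg _ _ _) (by positivity)
    linarith

theorem geom_part (H : ℕ) : ∑ h ∈ range H, (dl / ww ^ 2) ^ (h + 1) ≤ 7 / 10 := by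
  have hx0 : 0 ≤ dl / ww ^ 2 := by have := dl_pos; positivity
  have hx1 : dl / ww ^ 2 ≤ 7 / 17 := by unfold dl ww; norm_num
  have h1 : ∀ H : ℕ, ∑ h ∈ range H, (dl / ww ^ 2) ^ (h + 1) ≤
      7 / 10 * (1 - (dl / ww ^ 2) ^ H) := by
    intro H
    induction H with
    | zero => simp
    | succ H ih =>
      rw [sum_range_succ]
      have : (dl / ww ^ 2) ^ (H + 1) = (dl / ww ^ 2) ^ H * (dl / ww ^ 2) := pow_succ _ _
      have hp : 0 ≤ (dl / ww ^ 2) ^ H := by positivity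
      rw [this]
      nlinarith
  have h2 : 0 ≤ (dl / ww ^ 2) ^ H := by positivity
  have := h1 H
  linarith

theorem fluct_sum (a b H : ℕ) (ha : 1 ≤ a) (hb : 1 ≤ b) :
    ∑ h ∈ range H, bnd (h + 1) a b ≤ kap * ww ^ (a + b) := by
  have hw := ww_pos'
  have h1 : ∑ h ∈ range H, bnd (h + 1) a b ≤ ∑ h ∈ range H, (RR (h + 1) (a - 1) (b - 1) +
      2 * (dl / ww ^ 2) ^ (h + 1) / ww * ww ^ (a - 1 + (b - 1))) :=
    sum_le_sum fun h _ => bnd_le (h + 1) a b (by omega) ha hb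
  refine h1.trans ?_
  rw [sum_add_distrib]
  have h2 : ∑ h ∈ range H, RR (h + 1) (a - 1) (b - 1) ≤ ww ^ (a - 1 + (b - 1)) := by
    have h3 := RR_sum_le (H + 1) (a - 1) (b - 1)
    rw [sum_range_succ'] at h3
    have := RR_nonneg 0 (a - 1) (b - 1)
    linarith
  have h4 : ∑ h ∈ range H, 2 * (dl / ww ^ 2) ^ (h + 1) / ww * ww ^ (a - 1 + (b - 1)) =
      (∑ h ∈ range H, (dl / ww ^ 2) ^ (h + 1)) * (2 / ww * ww ^ (a - 1 + (b - 1))) := by
    rw [sum_mul]
    apply sum_congr rfl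
    intro h _
    ring
  rw [h4]
  have h5 := mul_le_mul_of_nonneg_right (geom_part H)
    (show (0:ℝ) ≤ 2 / ww * ww ^ (a - 1 + (b - 1)) by positivity)
  have e : a + b = (a - 1 + (b - 1)) + 2 := by omega
  have h6 : kap * ww ^ (a + b) = kap * ww ^ 2 * ww ^ (a - 1 + (b - 1)) := by
    rw [e, pow_add]; ring
  rw [h6]
  have h7 : 1 + 7 / 10 * (2 / ww) ≤ kap * ww ^ 2 := by unfold kap ww; norm_num
  have h8 : 0 ≤ ww ^ (a - 1 + (b - 1)) := by positivity
  nlinarith

end Pool.Agent.Lib.GKN
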