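import Pool.Agent.Lib.MP_86b3b2_co.RootEval
import Pool.Agent.Lib.MP_86b3b2_co.Fluct

namespace Pool.Agent.Lib.GKN

open Finset Polynomial

lemma bnd_nonneg (h a b : ℕ) : 0 ≤ bnd h a b := by
  unfold bnd
  split_ifs
  · have := RR_nonneg h (h + (a + h) % (2 * h + 1)) (h + (b + h) % (2 * h + 1))
    positivity
  · exact le_rfl

theorem H_bound (a n L h : ℕ) (ha : 1 ≤ a) (hh : 1 ≤ h) (H : ℤ[X])
    (hH : (1 - (X : ℤ[X]) ^ L) * pop (2 * a + 1) n = pop 1 (n + 1) * H)
    (z : ℂ) (hz : IsPrimitiveRoot z (2 * h + 1)) (hmL : (2 * h + 1) ∣ L) :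
    ‖aeval z H‖ ≤ (L : ℝ) / (2 * h + 1 : ℕ) * bnd h a (n + 1) := by
  obtain ⟨h1, h2⟩ := norm_H a n L h H hH z hz hmL
  unfold bnd
  split_ifs with hle
  · rw [h1 hle]
    apply mul_le_mul_of_nonneg_left _ (by positivity)
    set m := 2 * h + 1 with hm
    have da := Nat.div_add_mod (a + h) m
    have db := Nat.div_add_mod (n + 1 + h) m
    have ma := Nat.mod_lt (a + h) (show m > 0 by omega)
    have mb := Nat.mod_lt (n + 1 + h) (show m > 0 by omega)
    set ka := (a + h) / m with hka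
    set kb := (n + 1 + h) / m with hkb
    set al := (a + h) % m with hal
    set be := (n + 1 + h) % m with hbe
    have ka1 : 1 ≤ ka := by
      rcases Nat.eq_zero_or_pos ka with h0 | h0
      · rw [h0, mul_zero] at da
        omega
      · exact h0
    have kb1 : 1 ≤ kb := by
      rcases Nat.eq_zero_or_pos kb with h0 | h0
      · rw [h0, mul_zero] at db
        omega
      · exact h0
    obtain ⟨u, hu⟩ : ∃ u, ka = u + 1 := ⟨ka - 1, by omega⟩
    obtain ⟨v, hv⟩ : ∃ v, kb = v + 1 := ⟨kb - 1, by omega⟩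
    have ea : a = u * m + h + 1 + al := by
      rw [hu] at da
      have : m * (u + 1) = u * m + m := by ring
      omega
    have eb : n + 1 = v * m + h + 1 + be := by
      rw [hv] at db
      have : m * (v + 1) = v * m + m := by ring
      omega
    have hb := root_bound h hh z hz u v al be hle
    rw [← hm, ← ea, ← eb] at hb
    have e1 : a + (n + 1) - 1 = a + n := by omega
    have e2 : ka + kb - 2 = u + v := by omega
    rw [e1, RRn_cast] at hb
    rw [e2]
    exact hb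
  · rw [h2 (by omega)]
    simp

lemma orth (L : ℕ) (hL : 1 ≤ L) (x y : ℕ) (hx : x < L) (hy : y < L) (hxy : x ≠ y) :
    ∑ z ∈ nthRootsFinset L (1 : ℂ), (z⁻¹) ^ x * z ^ y = 0 := by
  have hz0 : IsPrimitiveRoot (Complex.exp (2 * Real.pi * Complex.I / L)) L :=
    Complex.isPrimitiveRoot_exp L (by omega)
  set z0 := Complex.exp (2 * Real.pi * Complex.I / L) with hz0def
  have z0ne : z0 ≠ 0 := Complex.exp_ne_zero _
  set S := ∑ z ∈ nthRootsFinset L (1 : ℂ), (z⁻¹) ^ x * z ^ y with hS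
  have hz0L : z0 ^ L = 1 := hz0.pow_eq_one
  have h1 : S = ∑ z ∈ nthRootsFinset L (1 : ℂ), ((z0 * z)⁻¹) ^ x * (z0 * z) ^ y := by
    rw [hS]
    symm
    apply sum_bij (fun z _ => z0 * z)
    · intro z hz
      rw [mem_nthRootsFinset (by omega)] at hz ⊢
      rw [mul_pow, hz0L, hz, one_mul]
    · intro z1 _ z2 _ h
      exact mul_left_cancel₀ z0ne h
    · intro z hz
      refine ⟨z0⁻¹ * z, ?_, ?_⟩
      · rw [mem_nthRootsFinset (by omega)] at hz ⊢
        rw [mul_pow, inv_pow, hz0L, hz]; simp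
      · rw [← mul_assoc, mul_inv_cancel₀ z0ne, one_mul]
    · intro z _
      rfl
  have h2 : S = (z0⁻¹ ^ x * z0 ^ y) * S := by
    conv_lhs => rw [h1]
    rw [hS, mul_sum]
    apply sum_congr rfl
    intro z _
    rw [mul_inv, mul_pow, mul_pow]
    ring
  have h3 : z0⁻¹ ^ x * z0 ^ y ≠ 1 := by
    intro h
    apply hxy
    apply hz0.pow_inj hx hy
    rw [inv_pow] at h
    have : z0 ^ x ≠ 0 := pow_ne_zero _ z0ne
    field_simp at h
    exact h.symm
  have h4 : (1 - z0⁻¹ ^ x * z0 ^ y) * S = 0 := by linear_combination h2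
  rcases mul_eq_zero.1 h4 with h5 | h5
  · exact absurd (sub_eq_zero.1 h5).symm h3
  · exact h5

lemma dft (a n L : ℕ) (ha : 1 ≤ a) (hL1 : 1 ≤ L) (hL : ∀ i ≤ n, (2 * i + 1) ∣ L) (H : ℤ[X])
    (hH : (1 - (X : ℤ[X]) ^ L) * pop (2 * a + 1) n = pop 1 (n + 1) * H) (x : ℕ) (hx : x < L) :
    ∑ z ∈ nthRootsFinset L (1 : ℂ), (z⁻¹) ^ x * aeval z H = L * ((ss a n x : ℤ) : ℂ) := by
  have h1 : ∀ z ∈ nthRootsFinset L (1 : ℂ), (z⁻¹) ^ x * aeval z H =
      ∑ y ∈ range L, ((ss a n y : ℤ) : ℂ) * ((z⁻¹) ^ x * z ^ y) := by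
    intro z hz
    rw [mem_nthRootsFinset (by omega)] at hz
    rw [H_eq a n L ha hL1 hL H hH]
    simp only [map_sub, map_sum, map_mul, map_pow, aeval_X, aeval_C, map_one, hz, sub_self,
      zero_mul, sub_zero]
    rw [mul_sum]
    apply sum_congr rfl
    intro y _
    have : (algebraMap ℤ ℂ) (ss a n y) = ((ss a n y : ℤ) : ℂ) := by simp
    rw [this]
    ring
  rw [sum_congr rfl h1, sum_comm]
  have h2 : ∀ y ∈ range L, ∑ z ∈ nthRootsFinset L (1 : ℂ), ((ss a n y : ℤ) : ℂ) *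
      ((z⁻¹) ^ x * z ^ y) = if y = x then L * ((ss a n x : ℤ) : ℂ) else 0 := by
    intro y hy
    have hy := mem_range.1 hy
    rw [← mul_sum]
    split_ifs with hyx
    · subst hyx
      have h3 : ∑ z ∈ nthRootsFinset L (1 : ℂ), (z⁻¹) ^ y * z ^ y = L := by
        have hz0 : IsPrimitiveRoot (Complex.exp (2 * Real.pi * Complex.I / L)) L :=
          Complex.isPrimitiveRoot_exp L (by omega)
        have h4 : ∀ z ∈ nthRootsFinset L (1 : ℂ), (z⁻¹) ^ y * z ^ y = 1 := by
          intro z hz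
          have hz1 := ne_zero_of_mem_nthRootsFinset one_ne_zero hz
          rw [inv_pow, inv_mul_cancel₀ (pow_ne_zero _ hz1)]
        rw [sum_congr rfl h4, sum_const, hz0.card_nthRootsFinset, nsmul_eq_mul, mul_one]
      rw [h3]; ring
    · rw [orth L hL1 x y hx hy (fun h => hyx h.symm), mul_zero]
  rw [sum_congr rfl h2, sum_ite_eq' (range L) x, if_pos (mem_range.2 hx)]

lemma ss_mod (a n L : ℕ) (ha : 1 ≤ a) (hL1 : 1 ≤ L) (hL : ∀ i ≤ n, (2 * i + 1) ∣ L) (x : ℕ) :
    ss a n x = ss a n (x % L) := by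
  have h1 : ∀ k y : ℕ, ss a n (y + L * k) = ss a n y := by
    intro k
    induction k with
    | zero => intro y; simp
    | succ k ih =>
      intro y
      rw [show y + L * (k + 1) = y + L * k + L by ring, ss_period a n L ha hL1 hL, ih]
  conv_lhs => rw [← Nat.mod_add_div x L]
  exact h1 _ _

theorem ss_bound (a n x : ℕ) (ha : 1 ≤ a) :
    |((ss a n x : ℤ) : ℝ) - mu a n| ≤ kap * ww ^ (a + (n + 1)) := by
  classical
  set L := ∏ i ∈ range (n + 1), (2 * i + 1) with hLdef
  have hL1 : 1 ≤ L := Nat.one_le_iff_ne_zero.2 (by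
    rw [hLdef, prod_ne_zero_iff]; intro i _; omega)
  have hL : ∀ i ≤ n, (2 * i + 1) ∣ L := by
    intro i hi
    exact dvd_prod_of_mem (fun i => 2 * i + 1) (mem_range.2 (by omega))
  have hodd : ∀ m, m ∣ L → Odd m := by
    intro m hm
    have : Odd L := by
      rw [hLdef]
      apply Finset.prod_induction _ (fun n => Odd n)
      · intro a b ha hb; exact ha.mul hb
      · exact odd_one
      · intro i _; exact ⟨i, rfl⟩
    exact Odd.of_dvd_nat this hm
  obtain ⟨H, hH⟩ := exists_H a n L hL1 hL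
  rw [ss_mod a n L ha hL1 hL x]
  set x' := x % L with hx'
  have hx'L : x' < L := Nat.mod_lt _ (by omega)
  have hd := dft a n L ha hL1 hL H hH x' hx'L
  rw [IsPrimitiveRoot.nthRoots_one_eq_biUnion_primitiveRoots, sum_biUnion (by
    intro i _ j _ hij
    exact IsPrimitiveRoot.disjoint hij)] at hd
  have h1mem : 1 ∈ L.divisors := by simp; omega
  rw [← add_sum_erase _ _ h1mem] at hd
  have hone : ∑ z ∈ primitiveRoots 1 ℂ, (z⁻¹) ^ x' * aeval z H = ((L * mu a n : ℝ) : ℂ) := by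
    rw [IsPrimitiveRoot.primitiveRoots_one, sum_singleton, inv_one, one_pow, one_mul,
      eval_one_H a n L H hH]
  rw [hone] at hd
  -- bound of the rest
  have hrest : ‖∑ m ∈ L.divisors.erase 1, ∑ z ∈ primitiveRoots m ℂ, (z⁻¹) ^ x' * aeval z H‖ ≤
      (L : ℝ) * (kap * ww ^ (a + (n + 1))) := by
    have hLr : (0 : ℝ) ≤ L := by positivity
    have hm1 : ∀ m ∈ L.divisors.erase 1, ‖∑ z ∈ primitiveRoots m ℂ, (z⁻¹) ^ x' * aeval z H‖ ≤
        (L : ℝ) * bnd ((m - 1) / 2) a (n + 1) := by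
      intro m hm
      rw [mem_erase, Nat.mem_divisors] at hm
      obtain ⟨hmne, hmL, _⟩ := hm
      obtain ⟨h, hmh⟩ := hodd m hmL
      have hh : 1 ≤ h := by omega
      have e : (m - 1) / 2 = h := by omega
      rw [e]
      have hb0 := bnd_nonneg h a (n + 1)
      have hterm : ∀ z ∈ primitiveRoots m ℂ, ‖(z⁻¹) ^ x' * aeval z H‖ ≤
          (L : ℝ) / (2 * h + 1 : ℕ) * bnd h a (n + 1) := by
        intro z hz
        have hzp := isPrimitiveRoot_of_mem_primitiveRoots hz
        rw [hmh] at hzp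
        have hn : ‖z‖ = 1 := hzp.norm'_eq_one (by omega)
        rw [norm_mul, norm_pow, norm_inv, hn, inv_one, one_pow, one_mul]
        exact H_bound a n L h ha hh H hH z hzp (hmh ▸ hmL)
      calc ‖∑ z ∈ primitiveRoots m ℂ, (z⁻¹) ^ x' * aeval z H‖
          ≤ ∑ z ∈ primitiveRoots m ℂ, (L : ℝ) / (2 * h + 1 : ℕ) * bnd h a (n + 1) :=
            norm_sum_le_of_le _ hterm
        _ = (m.totient : ℝ) * ((L : ℝ) / (2 * h + 1 : ℕ) * bnd h a (n + 1)) := by
            rw [sum_const, Complex.card_primitiveRoots, nsmul_eq_mul]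
        _ ≤ (m : ℝ) * ((L : ℝ) / (2 * h + 1 : ℕ) * bnd h a (n + 1)) := by
            apply mul_le_mul_of_nonneg_right _ (by positivity)
            exact_mod_cast Nat.totient_le m
        _ = (L : ℝ) * bnd h a (n + 1) := by
            rw [← hmh]
            have : (m : ℝ) ≠ 0 := by
              have : m ≠ 0 := by omega
              exact_mod_cast this
            field_simp
    refine (norm_sum_le_of_le _ hm1).trans ?_
    rw [← mul_sum]
    apply mul_le_mul_of_nonneg_left _ hLr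
    have hinj : ∑ m ∈ L.divisors.erase 1, bnd ((m - 1) / 2) a (n + 1) =
        ∑ h ∈ (L.divisors.erase 1).image (fun m => (m - 1) / 2 - 1), bnd (h + 1) a (n + 1) := by
      rw [sum_image]
      · apply sum_congr rfl
        intro m hm
        rw [mem_erase, Nat.mem_divisors] at hm
        obtain ⟨h, hmh⟩ := hodd m hm.2.1
        congr 1
        omega
      · intro m1 hm1 m2 hm2 h
        simp only [coe_erase, Set.mem_sdiff, mem_coe, Nat.mem_divisors, Set.mem_singleton_iff] at hm1 hm2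
        obtain ⟨h1, hmh1⟩ := hodd m1 hm1.1.1
        obtain ⟨h2, hmh2⟩ := hodd m2 hm2.1.1
        simp only at h
        omega
    rw [hinj]
    refine (sum_le_sum_of_subset_of_nonneg (t := range L) ?_ ?_).trans
      (fluct_sum a (n + 1) L ha (by omega))
    · intro h hh
      rw [mem_image] at hh
      obtain ⟨m, hm, rfl⟩ := hh
      rw [mem_erase, Nat.mem_divisors] at hm
      have := Nat.le_of_dvd (by omega) hm.2.1
      rw [mem_range]
      omega
    · intro i _ _
      exact bnd_nonneg _ _ _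
  have hfin : (L : ℂ) * ((ss a n x' : ℤ) : ℂ) - ((L * mu a n : ℝ) : ℂ) =
      ∑ m ∈ L.divisors.erase 1, ∑ z ∈ primitiveRoots m ℂ, (z⁻¹) ^ x' * aeval z H := by
    rw [← hd]; ring
  rw [← hfin] at hrest
  have e1 : (L : ℂ) * ((ss a n x' : ℤ) : ℂ) - ((L * mu a n : ℝ) : ℂ) =
      ((L * (((ss a n x' : ℤ) : ℝ) - mu a n) : ℝ) : ℂ) := by
    push_cast; ring
  rw [e1, Complex.norm_real, Real.norm_eq_abs, abs_mul, abs_of_nonneg (by positivity)] at hrest
  have hLpos : (0 : ℝ) < L := by exact_mod_cast (by omega : 0 < L)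
  exact le_of_mul_le_mul_left hrest hLpos

theorem plateau (a n x : ℕ) (ha : 1 ≤ a) :
    |((PowerSeries.coeff x (Gs a n) + (if x < 2 * (a - 1) * n then
      PowerSeries.coeff (2 * (a - 1) * n - 1 - x) (Gs a n)
      else 0) : ℤ) : ℝ) - mu a n| ≤ kap * ww ^ (a + n + 1) :=
  ss_bound a n x ha

end Pool.Agent.Lib.GKN
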