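import Pool.Agent.Lib.MP_86b3b2_co.HPoly

namespace Pool.Agent.Lib.GKN

open Finset

namespace Small

/-! ### Truncated evaluation -/

/-- truncated evaluation `∑_{y<M} f_y Q^y` -/
noncomputable def kev (Q : ℤ) (M : ℕ) (f : PowerSeries ℤ) : ℤ :=
  ∑ y ∈ range M, PowerSeries.coeff y f * Q ^ y

lemma kev_eq_eval (Q : ℤ) (M : ℕ) (f : PowerSeries ℤ) :
    kev Q M f = (PowerSeries.trunc M f).eval Q := by
  unfold kev Polynomial.eval
  rw [PowerSeries.eval₂_trunc_eq_sum_range]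
  rfl

lemma kev_coe (Q : ℤ) (M : ℕ) (p : Polynomial ℤ) :
    kev Q M (p : PowerSeries ℤ) ≡ p.eval Q [ZMOD Q ^ M] := by
  rw [kev_eq_eval]
  have h : (Polynomial.X : Polynomial ℤ) ^ M ∣ p - PowerSeries.trunc M (p : PowerSeries ℤ) := by
    rw [Polynomial.X_pow_dvd_iff]
    intro d hd
    rw [Polynomial.coeff_sub, PowerSeries.coeff_trunc, if_pos hd, Polynomial.coeff_coe, sub_self]
  obtain ⟨r, hr⟩ := h
  have h2 := congrArg (Polynomial.eval Q) hr
  rw [Polynomial.eval_sub, Polynomial.eval_mul, Polynomial.eval_pow, Polynomial.eval_X] at h2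
  exact Int.modEq_iff_dvd.2 ⟨_, h2⟩

lemma kev_mul (Q : ℤ) (M : ℕ) (f g : PowerSeries ℤ) :
    kev Q M (f * g) ≡ kev Q M f * kev Q M g [ZMOD Q ^ M] := by
  have h1 : kev Q M (f * g) = kev Q M (((PowerSeries.trunc M f * PowerSeries.trunc M g :
      Polynomial ℤ)) : PowerSeries ℤ) := by
    rw [kev_eq_eval, kev_eq_eval, Polynomial.coe_mul, PowerSeries.trunc_trunc_mul_trunc]
  rw [h1]
  refine (kev_coe Q M _).trans ?_
  rw [Polynomial.eval_mul, kev_eq_eval, kev_eq_eval]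

/-! ### Crude bounds -/

lemma geo_coeff_abs (j i : ℕ) : |PowerSeries.coeff i (geo j)| ≤ 1 := by
  simp only [geo, PowerSeries.coeff_mk]
  split_ifs <;> simp

lemma ip_bound (x k : ℕ) : ∀ i, |PowerSeries.coeff i (ip x k)| ≤ ((i : ℤ) + 1) ^ k := by
  induction k with
  | zero =>
    intro i
    unfold ip
    rw [prod_range_zero, PowerSeries.coeff_one]
    split_ifs <;> simp
  | succ k ih =>
    intro i
    have e : ip x (k + 1) = ip x k * geo (x + 2 * k) := by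
      unfold ip; rw [prod_range_succ]
    rw [e, PowerSeries.coeff_mul]
    refine (abs_sum_le_sum_abs _ _).trans ?_
    have h1 : ∀ p ∈ antidiagonal i, |PowerSeries.coeff p.1 (ip x k) *
        PowerSeries.coeff p.2 (geo (x + 2 * k))| ≤ ((i : ℤ) + 1) ^ k := by
      intro p hp
      rw [abs_mul]
      have h2 := ih p.1
      have h3 := geo_coeff_abs (x + 2 * k) p.2
      have h4 : ((p.1 : ℤ) + 1) ^ k ≤ ((i : ℤ) + 1) ^ k := by
        have : p.1 ≤ i := by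
          have := mem_antidiagonal.1 hp
          omega
        have h5 : ((p.1 : ℤ)) ≤ i := by exact_mod_cast this
        gcongr
      calc |PowerSeries.coeff p.1 (ip x k)| * |PowerSeries.coeff p.2 (geo (x + 2 * k))|
          ≤ ((p.1 : ℤ) + 1) ^ k * 1 := by
            apply mul_le_mul h2 h3 (abs_nonneg _) (by positivity)
        _ ≤ _ := by rw [mul_one]; exact h4
    refine (sum_le_sum h1).trans ?_
    rw [sum_const, Nat.card_antidiagonal, nsmul_eq_mul, pow_succ]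
    push_cast
    rw [mul_comm]

lemma po_bound (x m : ℕ) (f : PowerSeries ℤ) (M : ℕ) (B : ℤ) (hB : 0 ≤ B)
    (hf : ∀ i < M, |PowerSeries.coeff i f| ≤ B) :
    ∀ i < M, |PowerSeries.coeff i (po x m * f)| ≤ 2 ^ m * B := by
  induction m with
  | zero => simpa [po_zero] using hf
  | succ m ih =>
    intro i hi
    have e : po x (m + 1) * f = po x m * f - PowerSeries.X ^ (x + 2 * m) * (po x m * f) := by
      rw [po_succ]; ring
    rw [e, map_sub, PowerSeries.coeff_X_pow_mul']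
    have h1 := ih i hi
    have h2 : |(if x + 2 * m ≤ i then PowerSeries.coeff (i - (x + 2 * m)) (po x m * f) else 0)| ≤
        2 ^ m * B := by
      split_ifs
      · exact ih _ (by omega)
      · rw [abs_zero]; positivity
    refine (abs_sub _ _).trans ?_
    rw [pow_succ]
    linarith

lemma Gs_bound (a n M : ℕ) : ∀ i < M, |PowerSeries.coeff i (Gs a n)| ≤ 2 ^ n * (M : ℤ) ^ (n + 1) := by
  unfold Gs
  apply po_bound
  · positivity
  · intro i hi
    refine (ip_bound 1 (n + 1) i).trans ?_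
    have : ((i : ℤ) + 1) ≤ M := by exact_mod_cast hi
    gcongr

/-! ### Digits -/

/-- `∑_{y<M} 2^W (2^(W+1))^y` -/
def mask (W : ℕ) : ℕ → ℕ
  | 0 => 0
  | M + 1 => 2 ^ W + 2 ^ (W + 1) * mask W M

/-- closed form of the mask -/
def maskC (W M : ℕ) : ℕ := 2 ^ W * (((2 ^ (W + 1)) ^ M - 1) / (2 ^ (W + 1) - 1))

lemma mask_eq (W M : ℕ) : mask W M = maskC W M := by
  have hQ : 2 ≤ 2 ^ (W + 1) := by
    rw [pow_succ]
    have : 0 < 2 ^ W := by positivity
    omega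
  unfold maskC
  rw [← Nat.geomSum_eq hQ]
  induction M with
  | zero => simp [mask]
  | succ M ih =>
    rw [mask, ih, sum_range_succ', mul_add, mul_sum, mul_sum, mul_sum]
    simp only [pow_zero, mul_one]
    rw [add_comm]
    congr 1
    apply sum_congr rfl
    intro y _
    rw [pow_succ]
    ring

lemma mask_land (W M N : ℕ) (h : N &&& mask W (M + 1) = 0) :
    N % 2 ^ (W + 1) < 2 ^ W ∧ (N / 2 ^ (W + 1)) &&& mask W M = 0 := by
  have hQ : 2 ^ W < 2 ^ (W + 1) := Nat.pow_lt_pow_right (by norm_num) (by omega)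
  constructor
  · have h1 : Nat.testBit (N &&& mask W (M + 1)) W = false := by rw [h]; simp
    rw [Nat.testBit_and] at h1
    have h2 : Nat.testBit (mask W (M + 1)) W = true := by
      rw [mask, Nat.testBit_eq_decide_div_mod_eq]
      have e : 2 ^ W + 2 ^ (W + 1) * mask W M = 2 ^ W * (1 + 2 * mask W M) := by ring
      rw [e, Nat.mul_div_cancel_left _ (by positivity)]
      have e2 : (1 + 2 * mask W M) % 2 = 1 := by omega
      rw [e2]
      rfl
    rw [h2, Bool.and_true, Nat.testBit_eq_decide_div_mod_eq] at h1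
    have h3 : N / 2 ^ W % 2 ≠ 1 := by simpa using h1
    have h4 : N % 2 ^ (W + 1) / 2 ^ W = 0 := by
      rw [pow_succ, Nat.mod_mul_right_div_self]
      omega
    rcases Nat.div_eq_zero_iff.1 h4 with h5 | h5
    · have : 0 < 2 ^ W := by positivity
      omega
    · exact h5
  · have h1 : (N &&& mask W (M + 1)) >>> (W + 1) = 0 := by rw [h]; simp
    rw [Nat.shiftRight_and_distrib, Nat.shiftRight_eq_div_pow, Nat.shiftRight_eq_div_pow] at h1
    have h2 : mask W (M + 1) / 2 ^ (W + 1) = mask W M := by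
      rw [mask, Nat.add_mul_div_left _ _ (by positivity), Nat.div_eq_of_lt hQ, zero_add]
    rw [h2] at h1
    exact h1

lemma digits_nonneg (W M : ℕ) : ∀ (f : ℕ → ℤ) (N : ℕ), (∀ y < M, |f y| < 2 ^ W) →
    ((N : ℤ) ≡ ∑ y ∈ range M, f y * (2 ^ (W + 1)) ^ y [ZMOD (2 ^ (W + 1)) ^ M]) →
    N &&& mask W M = 0 → ∀ y < M, 0 ≤ f y := by
  induction M with
  | zero => intro f N _ _ _ y hy; omega
  | succ M ih =>
    intro f N hf hN hm
    obtain ⟨h1, h2⟩ := mask_land W M N hm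
    have hsum : ∑ y ∈ range (M + 1), f y * ((2 : ℤ) ^ (W + 1)) ^ y =
        f 0 + 2 ^ (W + 1) * ∑ y ∈ range M, f (y + 1) * (2 ^ (W + 1)) ^ y := by
      rw [sum_range_succ', mul_sum]
      simp only [pow_zero, mul_one]
      rw [add_comm]
      congr 1
      apply sum_congr rfl
      intro y _
      ring
    rw [hsum] at hN
    have hQpos : (0 : ℤ) < 2 ^ (W + 1) := by positivity
    have e0 : (N : ℤ) ≡ f 0 [ZMOD 2 ^ (W + 1)] := by
      have h3 : (N : ℤ) ≡ f 0 + 2 ^ (W + 1) * ∑ y ∈ range M, f (y + 1) * (2 ^ (W + 1)) ^ y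
          [ZMOD 2 ^ (W + 1)] := by
        apply hN.of_dvd
        rw [pow_succ ((2 : ℤ) ^ (W + 1)) M]
        exact Dvd.intro_left _ rfl
      refine h3.trans ?_
      rw [Int.modEq_iff_dvd]
      refine ⟨-∑ y ∈ range M, f (y + 1) * (2 ^ (W + 1)) ^ y, ?_⟩
      ring
    have e1 : (N : ℤ) = 2 ^ (W + 1) * ((N / 2 ^ (W + 1) : ℕ) : ℤ) + ((N % 2 ^ (W + 1) : ℕ) : ℤ) := by
      have := Nat.div_add_mod N (2 ^ (W + 1))
      exact_mod_cast this.symm
    have e2 : f 0 = ((N % 2 ^ (W + 1) : ℕ) : ℤ) := by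
      have h3 : ((N % 2 ^ (W + 1) : ℕ) : ℤ) ≡ f 0 [ZMOD 2 ^ (W + 1)] := by
        refine Int.ModEq.trans ?_ e0
        rw [Int.modEq_iff_dvd]
        exact ⟨((N / 2 ^ (W + 1) : ℕ) : ℤ), by linarith⟩
      obtain ⟨k, hk⟩ := Int.modEq_iff_dvd.1 h3
      have h4 := abs_lt.1 (hf 0 (by omega))
      have h5 : ((N % 2 ^ (W + 1) : ℕ) : ℤ) < 2 ^ W := by exact_mod_cast h1
      have h6 : (0 : ℤ) ≤ ((N % 2 ^ (W + 1) : ℕ) : ℤ) := by positivity
      have h7 : (2 : ℤ) ^ (W + 1) = 2 * 2 ^ W := by ring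
      have hk0 : k = 0 := by
        by_contra hne
        rcases lt_or_gt_of_ne hne with h | h
        · have : k ≤ -1 := by omega
          have h8 : (2 : ℤ) ^ (W + 1) * k ≤ 2 ^ (W + 1) * (-1) := by
            apply mul_le_mul_of_nonneg_left this hQpos.le
          linarith
        · have : 1 ≤ k := by omega
          have h8 : (2 : ℤ) ^ (W + 1) * 1 ≤ 2 ^ (W + 1) * k := by
            apply mul_le_mul_of_nonneg_left this hQpos.le
          linarith
      rw [hk0, mul_zero] at hk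
      linarith
    have e3 : ((N / 2 ^ (W + 1) : ℕ) : ℤ) ≡ ∑ y ∈ range M, f (y + 1) * (2 ^ (W + 1)) ^ y
        [ZMOD (2 ^ (W + 1)) ^ M] := by
      obtain ⟨k, hk⟩ := Int.modEq_iff_dvd.1 hN
      rw [Int.modEq_iff_dvd]
      refine ⟨k, ?_⟩
      rw [e1, e2] at hk
      apply mul_left_cancel₀ hQpos.ne'
      linear_combination hk
    have h8 := ih (fun y => f (y + 1)) (N / 2 ^ (W + 1)) (fun y hy => hf (y + 1) (by omega)) e3 h2
    intro y hy
    rcases Nat.eq_zero_or_pos y with rfl | hpos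
    · rw [e2]; positivity
    · obtain ⟨z, rfl⟩ : ∃ z, y = z + 1 := ⟨y - 1, by omega⟩
      exact h8 z (by omega)

/-! ### The certificate -/

/-- `∏_{i<m} (Q^{x+2i} - 1)` -/
def pp (Q x : ℕ) : ℕ → ℕ
  | 0 => 1
  | m + 1 => pp Q x m * (Q ^ (x + 2 * m) - 1)

lemma pp_cast (Q x m : ℕ) (hQ : 1 ≤ Q) :
    ((pp Q x m : ℕ) : ℤ) = (-1) ^ m * (pop x m).eval (Q : ℤ) := by
  induction m with
  | zero => simp [pp, pop]
  | succ m ih =>
    have e1 : pop x (m + 1) = pop x m * (1 - Polynomial.X ^ (x + 2 * m)) := by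
      unfold pop; rw [prod_range_succ]
    have h1 : 1 ≤ Q ^ (x + 2 * m) := Nat.one_le_pow _ _ hQ
    rw [pp, Nat.cast_mul, ih, Nat.cast_sub h1, e1]
    simp only [Polynomial.eval_mul, Polynomial.eval_sub, Polynomial.eval_one,
      Polynomial.eval_pow, Polynomial.eval_X]
    push_cast
    ring

lemma pp_coprime (Q x m M : ℕ) (hQ : 1 ≤ Q) (hx : 1 ≤ x) :
    IsCoprime ((Q : ℤ) ^ M) ((pp Q x m : ℕ) : ℤ) := by
  apply IsCoprime.pow_left
  induction m with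
  | zero => simp [pp, isCoprime_one_right]
  | succ m ih =>
    have h1 : 1 ≤ Q ^ (x + 2 * m) := Nat.one_le_pow _ _ hQ
    rw [pp, Nat.cast_mul]
    refine ih.mul_right ?_
    rw [Nat.cast_sub h1]
    push_cast
    refine ⟨(Q : ℤ) ^ (x + 2 * m - 1), -1, ?_⟩
    have : (Q : ℤ) ^ (x + 2 * m - 1) * Q = Q ^ (x + 2 * m) := by
      rw [← pow_succ]; congr 1; omega
    rw [this]
    ring

/-- The check of a certificate `N`. -/
def good (W a n M N : ℕ) : Bool :=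
  (N * pp (2 ^ (W + 1)) 1 (n + 1) + pp (2 ^ (W + 1)) (2 * a + 1) n) % (2 ^ (W + 1)) ^ M == 0 &&
    ((N &&& maskC W M) == 0 && Nat.blt (2 ^ n * M ^ (n + 1)) (2 ^ W))

theorem good_nonneg (W a n M N : ℕ) (h : good W a n M N = true) :
    ∀ y < M, 0 ≤ PowerSeries.coeff y (Gs a n) := by
  unfold good at h
  rw [Bool.and_eq_true, Bool.and_eq_true, beq_iff_eq, beq_iff_eq] at h
  obtain ⟨h1, h2, h3⟩ := h
  have h3' : 2 ^ n * M ^ (n + 1) < 2 ^ W := by simpa [Nat.blt] using h3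
  clear h3
  set Q : ℕ := 2 ^ (W + 1) with hQdef
  have hQ1 : 1 ≤ Q := Nat.one_le_two_pow
  have hQc : (Q : ℤ) = 2 ^ (W + 1) := by rw [hQdef]; push_cast; rfl
  rw [← mask_eq] at h2
  apply digits_nonneg W M (fun y => PowerSeries.coeff y (Gs a n)) N _ _ h2
  · intro y hy
    have := Gs_bound a n M y hy
    refine lt_of_le_of_lt this ?_
    exact_mod_cast h3'
  · rw [← hQc]
    change (N : ℤ) ≡ kev Q M (Gs a n) [ZMOD (Q : ℤ) ^ M]
    have k1 : po 1 (n + 1) * Gs a n = po (2 * a + 1) n := by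
      unfold Gs
      have := po_mul_ip 1 (n + 1) one_pos
      calc po 1 (n + 1) * (po (2 * a + 1) n * ip 1 (n + 1))
          = po (2 * a + 1) n * (po 1 (n + 1) * ip 1 (n + 1)) := by ring
        _ = _ := by rw [this, mul_one]
    have k2 := kev_mul (Q : ℤ) M (po 1 (n + 1)) (Gs a n)
    rw [k1, ← coe_pop, ← coe_pop] at k2
    have k3 := kev_coe (Q : ℤ) M (pop 1 (n + 1))
    have k4 := kev_coe (Q : ℤ) M (pop (2 * a + 1) n)
    have k5 : (pop (2 * a + 1) n).eval (Q : ℤ) ≡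
        (pop 1 (n + 1)).eval (Q : ℤ) * kev Q M (Gs a n) [ZMOD (Q : ℤ) ^ M] :=
      k4.symm.trans (k2.trans (k3.mul_right _))
    have c1 := pp_cast Q 1 (n + 1) hQ1
    have c2 := pp_cast Q (2 * a + 1) n hQ1
    have k6 : ((Q : ℤ) ^ M) ∣ ((N * pp Q 1 (n + 1) + pp Q (2 * a + 1) n : ℕ) : ℤ) := by
      have := Nat.dvd_of_mod_eq_zero h1
      exact_mod_cast this
    obtain ⟨r, hr⟩ := Int.modEq_iff_dvd.1 k5
    obtain ⟨s, hs⟩ := k6
    have s2 : ((-1 : ℤ) ^ n) * (-1) ^ n = 1 := by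
      rw [← pow_add, ← two_mul, pow_mul]; simp
    have k7 : ((Q : ℤ) ^ M) ∣ ((pp Q 1 (n + 1) : ℕ) : ℤ) * (kev Q M (Gs a n) - N) := by
      refine ⟨-(-1) ^ n * r - s, ?_⟩
      push_cast at hs
      rw [c2] at hs
      rw [c1] at hs ⊢
      linear_combination (-(-1) ^ n : ℤ) * hr - hs
    rw [Int.modEq_iff_dvd]
    exact (pp_coprime Q 1 (n + 1) M hQ1 le_rfl).dvd_of_dvd_mul_left k7

/-! ### Computation of the certificate -/

/-- multiply by `1 - Q^e` -/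
def mulS (T e N : ℕ) : ℕ := (N + (T - (N <<< e) % T)) % T

/-- multiply by `∏_{k<f} (1 + Q^{d 2^k})` -/
def divS (T : ℕ) : ℕ → ℕ → ℕ → ℕ
  | 0, _, N => N
  | f + 1, s, N => divS T f (2 * s) ((N + (N <<< s)) % T)

def mulL (T W x : ℕ) : ℕ → ℕ → ℕ
  | 0, N => N
  | k + 1, N => mulL T W x k (mulS T (W * (x + 2 * k)) N)

def divL (T W F : ℕ) : ℕ → ℕ → ℕ
  | 0, N => N
  | k + 1, N => divL T W F k (divS T F (W * (2 * k + 1)) N)

/-- the certificate -/
def cert (W a n M : ℕ) : ℕ :=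
  divL ((2 ^ (W + 1)) ^ M) (W + 1) 12 (n + 1) (mulL ((2 ^ (W + 1)) ^ M) (W + 1) (2 * a + 1) n 1)

/-- the full check for `(a, n)` with period `L` -/
def chk (a n L : ℕ) : Bool :=
  let M := 2 * (a - 1) * n + L
  good 79 a n M (cert 79 a n M)

theorem nonneg_of_chk (a n L : ℕ) (ha : 1 ≤ a) (hL1 : 1 ≤ L) (hL : ∀ i ≤ n, (2 * i + 1) ∣ L)
    (h : chk a n L = true) (x : ℕ) : 0 ≤ PowerSeries.coeff x (Gs a n) := by
  have h0 : ∀ y < 2 * (a - 1) * n + L, 0 ≤ PowerSeries.coeff y (Gs a n) :=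
    good_nonneg 79 a n _ _ h
  induction x using Nat.strong_induction_on with
  | _ x ih =>
    rcases Nat.lt_or_ge x (2 * (a - 1) * n + L) with hx | hx
    · exact h0 x hx
    · have h1 := period a n L ha hL1 hL (x - L) (by omega)
      rw [Nat.sub_add_cancel (by omega)] at h1
      rw [h1]
      exact ih (x - L) (by omega)

end Small

set_option maxRecDepth 100000 in
set_option exponentiation.threshold 100000000 in
theorem Small.chks : (Small.chk 2 1 3 && Small.chk 3 2 15 && Small.chk 4 2 15 && Small.chk 4 3 105 &&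
    Small.chk 5 3 105 && Small.chk 6 3 105 && Small.chk 5 4 315 && Small.chk 6 4 315 &&
    Small.chk 7 4 315 && Small.chk 8 4 315 && Small.chk 6 5 3465 && Small.chk 7 5 3465 &&
    Small.chk 8 5 3465 && Small.chk 9 5 3465 && Small.chk 10 5 3465) = true := by
  decide +kernel

theorem small_nonneg (a n x : ℕ) (hn : n ≤ 5) (h : n + 1 ≤ a) (h2 : a ≤ 2 * n) :
    0 ≤ PowerSeries.coeff x (Gs a n) := by
  have hc := Small.chks
  simp only [Bool.and_eq_true] at hc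
  obtain ⟨⟨⟨⟨⟨⟨⟨⟨⟨⟨⟨⟨⟨⟨c1, c2⟩, c3⟩, c4⟩, c5⟩, c6⟩, c7⟩, c8⟩, c9⟩, c10⟩, c11⟩, c12⟩, c13⟩, c14⟩, c15⟩ := hc
  have l1 : ∀ i ≤ 1, (2 * i + 1) ∣ 3 := by decide
  have l2 : ∀ i ≤ 2, (2 * i + 1) ∣ 15 := by decide
  have l3 : ∀ i ≤ 3, (2 * i + 1) ∣ 105 := by decide
  have l4 : ∀ i ≤ 4, (2 * i + 1) ∣ 315 := by decide
  have l5 : ∀ i ≤ 5, (2 * i + 1) ∣ 3465 := by decide
  have cases : (a = 2 ∧ n = 1) ∨ (a = 3 ∧ n = 2) ∨ (a = 4 ∧ n = 2) ∨ (a = 4 ∧ n = 3) ∨
      (a = 5 ∧ n = 3) ∨ (a = 6 ∧ n = 3) ∨ (a = 5 ∧ n = 4) ∨ (a = 6 ∧ n = 4) ∨ (a = 7 ∧ n = 4) ∨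
      (a = 8 ∧ n = 4) ∨ (a = 6 ∧ n = 5) ∨ (a = 7 ∧ n = 5) ∨ (a = 8 ∧ n = 5) ∨ (a = 9 ∧ n = 5) ∨
      (a = 10 ∧ n = 5) := by
    clear c1 c2 c3 c4 c5 c6 c7 c8 c9 c10 c11 c12 c13 c14 c15 l1 l2 l3 l4 l5
    interval_cases n <;> interval_cases a <;> simp
  rcases cases with ⟨rfl, rfl⟩ | ⟨rfl, rfl⟩ | ⟨rfl, rfl⟩ | ⟨rfl, rfl⟩ | ⟨rfl, rfl⟩ | ⟨rfl, rfl⟩ |
    ⟨rfl, rfl⟩ | ⟨rfl, rfl⟩ | ⟨rfl, rfl⟩ | ⟨rfl, rfl⟩ | ⟨rfl, rfl⟩ | ⟨rfl, rfl⟩ | ⟨rfl, rfl⟩ |
    ⟨rfl, rfl⟩ | ⟨rfl, rfl⟩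
  · exact Small.nonneg_of_chk 2 1 3 (by norm_num) (by norm_num) l1 c1 x
  · exact Small.nonneg_of_chk 3 2 15 (by norm_num) (by norm_num) l2 c2 x
  · exact Small.nonneg_of_chk 4 2 15 (by norm_num) (by norm_num) l2 c3 x
  · exact Small.nonneg_of_chk 4 3 105 (by norm_num) (by norm_num) l3 c4 x
  · exact Small.nonneg_of_chk 5 3 105 (by norm_num) (by norm_num) l3 c5 x
  · exact Small.nonneg_of_chk 6 3 105 (by norm_num) (by norm_num) l3 c6 x
  · exact Small.nonneg_of_chk 5 4 315 (by norm_num) (by norm_num) l4 c7 x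
  · exact Small.nonneg_of_chk 6 4 315 (by norm_num) (by norm_num) l4 c8 x
  · exact Small.nonneg_of_chk 7 4 315 (by norm_num) (by norm_num) l4 c9 x
  · exact Small.nonneg_of_chk 8 4 315 (by norm_num) (by norm_num) l4 c10 x
  · exact Small.nonneg_of_chk 6 5 3465 (by norm_num) (by norm_num) l5 c11 x
  · exact Small.nonneg_of_chk 7 5 3465 (by norm_num) (by norm_num) l5 c12 x
  · exact Small.nonneg_of_chk 8 5 3465 (by norm_num) (by norm_num) l5 c13 x
  · exact Small.nonneg_of_chk 9 5 3465 (by norm_num) (by norm_num) l5 c14 x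
  · exact Small.nonneg_of_chk 10 5 3465 (by norm_num) (by norm_num) l5 c15 x

end Pool.Agent.Lib.GKN
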