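import Pool.Agent.Lib.MP_86b3b2_co.Base

namespace Pool.Agent.Lib.GKN

open Finset

namespace Star

/-- weighted AM-GM `x^5 y^3 ≤ 5^5 3^3 ((x+y)/8)^8` -/
lemma amgm (x y : ℝ) (hx : 0 ≤ x) (hy : 0 ≤ y) :
    8 ^ 8 * (x ^ 5 * y ^ 3) ≤ 5 ^ 5 * 3 ^ 3 * (x + y) ^ 8 := by
  have h := Real.geom_mean_le_arith_mean2_weighted (w₁ := 5 / 8) (w₂ := 3 / 8)
    (p₁ := x / 5) (p₂ := y / 3) (by norm_num) (by norm_num) (by positivity) (by positivity)
    (by norm_num)
  have e : 5 / 8 * (x / 5) + 3 / 8 * (y / 3) = (x + y) / 8 := by ring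
  rw [e] at h
  have h0 : 0 ≤ (x / 5) ^ (5 / 8 : ℝ) * (y / 3) ^ (3 / 8 : ℝ) := by positivity
  have h8 := pow_le_pow_left₀ h0 h 8
  rw [mul_pow] at h8
  have e1 : ((x / 5) ^ (5 / 8 : ℝ)) ^ 8 = (x / 5) ^ 5 := by
    rw [← Real.rpow_natCast, ← Real.rpow_mul (by positivity), ← Real.rpow_natCast]
    norm_num
  have e2 : ((y / 3) ^ (3 / 8 : ℝ)) ^ 8 = (y / 3) ^ 3 := by
    rw [← Real.rpow_natCast, ← Real.rpow_mul (by positivity), ← Real.rpow_natCast]
    norm_num
  rw [e1, e2, div_pow, div_pow, div_pow] at h8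
  have h9 : x ^ 5 / 5 ^ 5 * (y ^ 3 / 3 ^ 3) = x ^ 5 * y ^ 3 / (5 ^ 5 * 3 ^ 3) := by
    field_simp
  rw [h9, div_le_div_iff₀ (by norm_num) (by norm_num)] at h8
  linarith

/-- Inequality for the step of the binomial coefficient. -/
lemma prod_ineq (n j : ℝ) (hn : 119 ≤ n) (hj : 0 ≤ j) (hjn : j ≤ n) :
    170 * ((j + 1) * (j + 2) * (j + 3) * (j + 4) * (j + 5) *
      ((n - j + 1) * (n - j + 2) * (n - j + 3))) ≤
    (n + 1) * (n + 2) * (n + 3) * (n + 4) * (n + 5) * (n + 6) * (n + 7) * (n + 8) := by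
  have hx : (j + 1) * (j + 2) * (j + 3) * (j + 4) * (j + 5) ≤ (j + 3) ^ 5 := by
    nlinarith [pow_nonneg hj 2, pow_nonneg hj 3]
  have hm : 0 ≤ n - j := by linarith
  have hy : (n - j + 1) * (n - j + 2) * (n - j + 3) ≤ (n - j + 2) ^ 3 := by
    nlinarith
  have h1 : (j + 1) * (j + 2) * (j + 3) * (j + 4) * (j + 5) *
      ((n - j + 1) * (n - j + 2) * (n - j + 3)) ≤ (j + 3) ^ 5 * (n - j + 2) ^ 3 :=
    mul_le_mul hx hy (by positivity) (by positivity)
  have h2 := amgm (j + 3) (n - j + 2) (by linarith) (by linarith)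
  have e : j + 3 + (n - j + 2) = n + 5 := by ring
  rw [e] at h2
  have h3 : (n + 1) ^ 4 ≤ (n + 1) * (n + 2) * (n + 3) * (n + 4) := by
    have a1 : (n + 1) * (n + 1) ≤ (n + 1) * (n + 2) := by nlinarith
    have a2 : (n + 1) * (n + 1) ≤ (n + 3) * (n + 4) := by nlinarith
    calc (n + 1) ^ 4 = ((n + 1) * (n + 1)) * ((n + 1) * (n + 1)) := by ring
      _ ≤ ((n + 1) * (n + 2)) * ((n + 3) * (n + 4)) :=
        mul_le_mul a1 a2 (by positivity) (by positivity)
      _ = _ := by ring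
  have h4 : (n + 5) ^ 4 ≤ (n + 5) * (n + 6) * (n + 7) * (n + 8) := by
    have a1 : (n + 5) * (n + 5) ≤ (n + 5) * (n + 6) := by nlinarith
    have a2 : (n + 5) * (n + 5) ≤ (n + 7) * (n + 8) := by nlinarith
    calc (n + 5) ^ 4 = ((n + 5) * (n + 5)) * ((n + 5) * (n + 5)) := by ring
      _ ≤ ((n + 5) * (n + 6)) * ((n + 7) * (n + 8)) :=
        mul_le_mul a1 a2 (by positivity) (by positivity)
      _ = _ := by ring
  have h5 : 877 / 1000 * (n + 5) ^ 4 ≤ (n + 1) ^ 4 := by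
    have b1 : 30 / 31 * (n + 5) ≤ n + 1 := by linarith
    have b2 := pow_le_pow_left₀ (by positivity) b1 4
    rw [mul_pow] at b2
    have b3 : 0 ≤ (n + 5) ^ 4 := by positivity
    nlinarith
  have h6 : 877 / 1000 * (n + 5) ^ 8 ≤
      (n + 1) * (n + 2) * (n + 3) * (n + 4) * ((n + 5) * (n + 6) * (n + 7) * (n + 8)) := by
    calc 877 / 1000 * (n + 5) ^ 8 = (877 / 1000 * (n + 5) ^ 4) * (n + 5) ^ 4 := by ring
      _ ≤ ((n + 1) * (n + 2) * (n + 3) * (n + 4)) * ((n + 5) * (n + 6) * (n + 7) * (n + 8)) :=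
        mul_le_mul (h5.trans h3) h4 (by positivity) (by positivity)
  have h7 : 0 ≤ (n + 5) ^ 8 := by positivity
  have h8 : (n + 1) * (n + 2) * (n + 3) * (n + 4) * ((n + 5) * (n + 6) * (n + 7) * (n + 8)) =
    (n + 1) * (n + 2) * (n + 3) * (n + 4) * (n + 5) * (n + 6) * (n + 7) * (n + 8) := by ring
  rw [← h8]
  nlinarith

/-- The binomial coefficient step as a statement about naturals cast to reals. -/
lemma choose_step (n j : ℕ) (hn : 119 ≤ n) (hjn : j ≤ n) :
    170 * (n.choose j : ℝ) ≤ ((n + 8).choose (j + 5) : ℝ) := by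
  obtain ⟨m, rfl⟩ := Nat.exists_eq_add_of_le hjn
  have hm := prod_ineq ((j + m : ℕ) : ℝ) (j : ℝ) (by exact_mod_cast hn) (by positivity)
    (by push_cast; linarith [Nat.cast_nonneg (α := ℝ) m])
  have c1 : ((j + m).choose j : ℝ) = ((j + m).factorial : ℝ) / (j.factorial * m.factorial) :=
    Nat.cast_add_choose ℝ
  have c2 : (((j + 5) + (m + 3)).choose (j + 5) : ℝ) = (((j + 5) + (m + 3)).factorial : ℝ) /
      ((j + 5).factorial * (m + 3).factorial) := Nat.cast_add_choose ℝ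
  have e : j + m + 8 = (j + 5) + (m + 3) := by ring
  rw [e, c1, c2]
  have f1 : ((j + 5).factorial : ℝ) =
      ((j : ℝ) + 1) * (j + 2) * (j + 3) * (j + 4) * (j + 5) * j.factorial := by
    simp only [Nat.factorial_succ]; push_cast; ring
  have f2 : ((m + 3).factorial : ℝ) =
      ((m : ℝ) + 1) * (m + 2) * (m + 3) * m.factorial := by
    simp only [Nat.factorial_succ]; push_cast; ring
  have f3 : (((j + 5) + (m + 3)).factorial : ℝ) =
      (((j + m : ℕ) : ℝ) + 1) * (((j + m : ℕ) : ℝ) + 2) * (((j + m : ℕ) : ℝ) + 3) *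
      (((j + m : ℕ) : ℝ) + 4) * (((j + m : ℕ) : ℝ) + 5) * (((j + m : ℕ) : ℝ) + 6) *
      (((j + m : ℕ) : ℝ) + 7) * (((j + m : ℕ) : ℝ) + 8) * (j + m).factorial := by
    rw [← e]
    simp only [Nat.factorial_succ]; push_cast; ring
  have g1 : (0 : ℝ) < j.factorial := by exact_mod_cast Nat.factorial_pos j
  have g2 : (0 : ℝ) < m.factorial := by exact_mod_cast Nat.factorial_pos m
  have g3 : (0 : ℝ) < (j + m).factorial := by exact_mod_cast Nat.factorial_pos _
  have hmj : ((j + m : ℕ) : ℝ) - j = m := by push_cast; ring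
  rw [hmj] at hm
  rw [f1, f2, f3, ← mul_div_assoc, div_le_div_iff₀ (by positivity) (by positivity)]
  have := mul_le_mul_of_nonneg_right hm (by positivity :
    (0 : ℝ) ≤ (j + m).factorial * (j.factorial * m.factorial))
  linarith

lemma tt_succ (j : ℕ) : tt (j + 1) = tt j * ((2 * j + 2) / (2 * j + 3)) := by
  unfold tt
  rw [prod_range_succ, prod_range_succ _ (j + 1), mul_div_mul_comm]
  push_cast
  congr 2
  ring

lemma tt_pos (j : ℕ) : 0 < tt j := by
  unfold tt; positivity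

lemma tt_step1 (j : ℕ) (hj : 70 ≤ j) : 142 / 143 * tt j ≤ tt (j + 1) := by
  rw [tt_succ, mul_comm]
  apply mul_le_mul_of_nonneg_left _ (tt_pos j).le
  rw [div_le_div_iff₀ (by norm_num) (by positivity)]
  have : (70 : ℝ) ≤ j := by exact_mod_cast hj
  linarith

lemma tt_step (j : ℕ) (hj : 70 ≤ j) : 96 / 100 * tt j ≤ tt (j + 5) := by
  have h1 := tt_step1 j hj
  have h2 := tt_step1 (j + 1) (by omega)
  have h3 := tt_step1 (j + 2) (by omega)
  have h4 := tt_step1 (j + 3) (by omega)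
  have h5 := tt_step1 (j + 4) (by omega)
  have h0 := tt_pos j
  norm_num only [add_assoc] at *
  nlinarith

/-- The right-hand side. -/
noncomputable def RR (n : ℕ) : ℝ :=
  kap * ww ^ (2 * (n + 1)) + kap * ww ^ (n + 1) * (23 / 10) ^ n + 3 ^ n / 2

lemma RR_step (n : ℕ) : RR (n + 8) ≤ (46 / 13) ^ 8 * RR n := by
  unfold RR
  have h1 : kap * ww ^ (2 * (n + 8 + 1)) ≤ (46 / 13) ^ 8 * (kap * ww ^ (2 * (n + 1))) := by
    have e : kap * ww ^ (2 * (n + 8 + 1)) = ww ^ 16 * (kap * ww ^ (2 * (n + 1))) := by ring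
    rw [e]
    apply mul_le_mul_of_nonneg_right
    · unfold ww; norm_num
    · unfold ww kap; positivity
  have h2 : kap * ww ^ (n + 8 + 1) * (23 / 10) ^ (n + 8) =
      (46 / 13) ^ 8 * (kap * ww ^ (n + 1) * (23 / 10) ^ n) := by
    have e : kap * ww ^ (n + 8 + 1) * (23 / 10) ^ (n + 8) =
      (ww * (23 / 10)) ^ 8 * (kap * ww ^ (n + 1) * (23 / 10) ^ n) := by ring
    rw [e]
    congr 1
    unfold ww; norm_num
  have h3 : (3 : ℝ) ^ (n + 8) / 2 ≤ (46 / 13) ^ 8 * (3 ^ n / 2) := by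
    have e : (3 : ℝ) ^ (n + 8) / 2 = 3 ^ 8 * (3 ^ n / 2) := by ring
    rw [e]
    apply mul_le_mul_of_nonneg_right
    · norm_num
    · positivity
  linarith

/-- The invariant. -/
def Inv (n j : ℕ) : Prop :=
  j ≤ n ∧ 11 * (n + 1) ≤ 18 * j + 41 ∧ n ^ 2 ≤ j ^ 2 + j * (n + 1) + 3 * n + 1 ∧ 21 * n ≤ 40 * j ∧
    70 ≤ j ∧ RR n ≤ (n.choose j : ℝ) ^ 2 * tt j / 2

lemma Inv_step (n j : ℕ) (hn : 119 ≤ n) (h : Inv n j) : Inv (n + 8) (j + 5) := by
  obtain ⟨h1, h2, h3, h4, h5, h6⟩ := h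
  refine ⟨by omega, by omega, ?_, by omega, by omega, ?_⟩
  · nlinarith
  · have a1 := RR_step n
    have a2 := choose_step n j hn h1
    have a3 := tt_step j h5
    have a4 : (170 * (n.choose j : ℝ)) ^ 2 ≤ ((n + 8).choose (j + 5) : ℝ) ^ 2 :=
      pow_le_pow_left₀ (by positivity) a2 2
    have a5 : (170 * (n.choose j : ℝ)) ^ 2 * (96 / 100 * tt j) ≤
        ((n + 8).choose (j + 5) : ℝ) ^ 2 * tt (j + 5) :=
      mul_le_mul a4 a3 (by have := tt_pos j; positivity) (by positivity)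
    have a6 : 0 ≤ (n.choose j : ℝ) ^ 2 * tt j := by have := tt_pos j; positivity
    have a7 : (46 / 13 : ℝ) ^ 8 ≤ 170 ^ 2 * (96 / 100) := by norm_num
    have a8 : (46 / 13 : ℝ) ^ 8 * RR n ≤
        (46 / 13 : ℝ) ^ 8 * ((n.choose j : ℝ) ^ 2 * tt j / 2) :=
      mul_le_mul_of_nonneg_left h6 (by positivity)
    have a9 : (46 / 13 : ℝ) ^ 8 * ((n.choose j : ℝ) ^ 2 * tt j / 2) ≤
        170 ^ 2 * (96 / 100) * ((n.choose j : ℝ) ^ 2 * tt j / 2) :=
      mul_le_mul_of_nonneg_right a7 (by positivity)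
    nlinarith

/-- numerator of `tt` -/
def ttN : ℕ → ℕ
  | 0 => 1
  | j + 1 => ttN j * (2 * j + 2)

/-- denominator of `tt` -/
def ttD : ℕ → ℕ
  | 0 => 1
  | j + 1 => ttD j * (2 * j + 3)

lemma ttD_pos (j : ℕ) : 0 < ttD j := by
  induction j with
  | zero => simp [ttD]
  | succ j ih => simp only [ttD]; positivity

lemma tt_eq (j : ℕ) : tt j = (ttN j : ℝ) / ttD j := by
  induction j with
  | zero => simp [tt, ttN, ttD]
  | succ j ih =>
    rw [tt_succ, ih]
    simp only [ttN, ttD]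
    push_cast
    rw [div_mul_div_comm]

/-- factorial as a computable natural number -/
def fac : ℕ → ℕ
  | 0 => 1
  | j + 1 => (j + 1) * fac j

lemma fac_eq (j : ℕ) : fac j = j.factorial := by
  induction j with
  | zero => rfl
  | succ j ih => rw [fac, ih, Nat.factorial_succ]

/-- The check for the base case. -/
def chk (n j : ℕ) : Bool :=
  (fac j * fac (n - j)) ^ 2 * ttD j *
    (2 * 41 * 20 ^ (2 * (n + 1)) * 10 ^ n + 2 * 41 * 20 ^ (n + 1) * 13 ^ (n + 1) * 23 ^ n +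
      50 * 3 ^ n * 13 ^ (2 * (n + 1)) * 10 ^ n) ≤
  fac n ^ 2 * ttN j * (50 * 13 ^ (2 * (n + 1)) * 10 ^ n)

lemma chk_spec (n j : ℕ) (hj : j ≤ n) (h : chk n j = true) :
    RR n ≤ (n.choose j : ℝ) ^ 2 * tt j / 2 := by
  unfold chk at h
  rw [decide_eq_true_eq] at h
  simp only [fac_eq] at h
  have h' : (((j.factorial * (n - j).factorial) ^ 2 * ttD j *
    (2 * 41 * 20 ^ (2 * (n + 1)) * 10 ^ n + 2 * 41 * 20 ^ (n + 1) * 13 ^ (n + 1) * 23 ^ n +
      50 * 3 ^ n * 13 ^ (2 * (n + 1)) * 10 ^ n) : ℕ) : ℝ) ≤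
    ((n.factorial ^ 2 * ttN j * (50 * 13 ^ (2 * (n + 1)) * 10 ^ n) : ℕ) : ℝ) := by
    exact_mod_cast h
  push_cast at h'
  rw [Nat.cast_choose ℝ hj, tt_eq]
  have p1 : (0 : ℝ) < j.factorial := by exact_mod_cast Nat.factorial_pos j
  have p2 : (0 : ℝ) < (n - j).factorial := by exact_mod_cast Nat.factorial_pos _
  have p3 : (0 : ℝ) < ttD j := by exact_mod_cast ttD_pos j
  have e1 : RR n = (2 * 41 * 20 ^ (2 * (n + 1)) * 10 ^ n +
      2 * 41 * 20 ^ (n + 1) * 13 ^ (n + 1) * 23 ^ n +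
      50 * 3 ^ n * 13 ^ (2 * (n + 1)) * 10 ^ n) / (2 * (50 * 13 ^ (2 * (n + 1)) * 10 ^ n)) := by
    unfold RR kap ww
    rw [div_pow, div_pow, div_pow]
    have e13 : (13 : ℝ) ^ (2 * (n + 1)) = 13 ^ (n + 1) * 13 ^ (n + 1) := by ring
    rw [e13]
    field_simp
  have e2 : ((n.factorial : ℝ) / (j.factorial * (n - j).factorial)) ^ 2 *
      ((ttN j : ℝ) / ttD j) / 2 = (n.factorial ^ 2 * ttN j) /
      (2 * ((j.factorial * (n - j).factorial) ^ 2 * ttD j)) := by
    field_simp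
  rw [e1, e2, div_le_div_iff₀ (by positivity) (by positivity)]
  nlinarith

lemma base (n j : ℕ) (h : j ≤ n ∧ 11 * (n + 1) ≤ 18 * j + 41 ∧
    n ^ 2 ≤ j ^ 2 + j * (n + 1) + 3 * n + 1 ∧ 21 * n ≤ 40 * j ∧ 70 ≤ j)
    (hc : chk n j = true) : Inv n j :=
  ⟨h.1, h.2.1, h.2.2.1, h.2.2.2.1, h.2.2.2.2, chk_spec n j h.1 hc⟩

lemma exists_inv : ∀ n : ℕ, 119 ≤ n → ∃ j, Inv n j := by
  intro n
  induction n using Nat.strong_induction_on with
  | _ n ih =>
    intro hn
    rcases Nat.lt_or_ge n 127 with h | h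
    · interval_cases n
      · exact ⟨72, base _ _ (by norm_num) (by decide +kernel)⟩
      · exact ⟨73, base _ _ (by norm_num) (by decide +kernel)⟩
      · exact ⟨74, base _ _ (by norm_num) (by decide +kernel)⟩
      · exact ⟨74, base _ _ (by norm_num) (by decide +kernel)⟩
      · exact ⟨75, base _ _ (by norm_num) (by decide +kernel)⟩
      · exact ⟨76, base _ _ (by norm_num) (by decide +kernel)⟩
      · exact ⟨76, base _ _ (by norm_num) (by decide +kernel)⟩
      · exact ⟨77, base _ _ (by norm_num) (by decide +kernel)⟩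
    · obtain ⟨j, hj⟩ := ih (n - 8) (by omega) (by omega)
      refine ⟨j + 5, ?_⟩
      have := Inv_step (n - 8) j (by omega) hj
      rwa [show n - 8 + 8 = n by omega] at this

/-! ### From `a = b` to general `a` -/

lemma choose_rec (c j : ℕ) (h : j ≤ c) :
    ((c + 1).choose j : ℝ) * ((c : ℝ) + 1 - j) = (c.choose j : ℝ) * (c + 1) := by
  have h1 := Nat.choose_mul_succ_eq c j
  have h2 : ((c.choose j * (c + 1) : ℕ) : ℝ) = (((c + 1).choose j * (c + 1 - j) : ℕ) : ℝ) := by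
    exact_mod_cast h1
  rw [Nat.cast_mul, Nat.cast_mul, Nat.cast_sub (by omega)] at h2
  push_cast at h2
  linarith

/-- increasing part -/
lemma incr (n j : ℕ) (hj : j ≤ n) : ∀ d : ℕ, 7 * (n + d) ≤ 20 * j →
    ww ^ d * (n.choose j : ℝ) ≤ ((n + d).choose j : ℝ) := by
  intro d
  induction d with
  | zero => intro _; simp
  | succ d ih =>
    intro h
    have h1 := ih (by omega)
    have h2 := choose_rec (n + d) j (by omega)
    have hnd : (j : ℝ) ≤ n + d := by exact_mod_cast (by omega : j ≤ n + d)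
    have h3 : (7 : ℝ) * (n + (d + 1)) ≤ 20 * j := by exact_mod_cast h
    have hpos : (0 : ℝ) < (n : ℝ) + d + 1 - j := by linarith
    have h4 : ww * ((n + d).choose j : ℝ) ≤ ((n + (d + 1)).choose j : ℝ) := by
      have e : n + (d + 1) = n + d + 1 := by ring
      rw [e]
      push_cast at h2
      have h5 : ((n + d).choose j : ℝ) * (ww * ((n : ℝ) + d + 1 - j)) ≤
          ((n + d + 1).choose j : ℝ) * ((n : ℝ) + d + 1 - j) := by
        rw [h2]
        apply mul_le_mul_of_nonneg_left _ (by positivity)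
        unfold ww
        linarith
      have h6 : (ww * ((n + d).choose j : ℝ)) * ((n : ℝ) + d + 1 - j) ≤
          ((n + d + 1).choose j : ℝ) * ((n : ℝ) + d + 1 - j) := by linarith
      exact le_of_mul_le_mul_right h6 hpos
    have hw : (0 : ℝ) ≤ ww := by unfold ww; norm_num
    calc ww ^ (d + 1) * (n.choose j : ℝ) = ww * (ww ^ d * (n.choose j : ℝ)) := by ring
      _ ≤ ww * ((n + d).choose j : ℝ) := mul_le_mul_of_nonneg_left h1 hw
      _ ≤ _ := h4

/-- decreasing part -/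
lemma decr (c j : ℕ) (hj : j ≤ c) (h : 20 * j ≤ 7 * (c + 1)) : ∀ d : ℕ,
    ((c + d).choose j : ℝ) ≤ ww ^ d * (c.choose j : ℝ) := by
  intro d
  induction d with
  | zero => simp
  | succ d ih =>
    have h2 := choose_rec (c + d) j (by omega)
    have hcd : (j : ℝ) ≤ c + d := by exact_mod_cast (by omega : j ≤ c + d)
    have h3 : (20 : ℝ) * j ≤ 7 * (c + 1) := by exact_mod_cast h
    have hd0 : (0 : ℝ) ≤ d := by positivity
    have hpos : (0 : ℝ) < (c : ℝ) + d + 1 - j := by linarith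
    have h4 : ((c + (d + 1)).choose j : ℝ) ≤ ww * ((c + d).choose j : ℝ) := by
      have e : c + (d + 1) = c + d + 1 := by ring
      rw [e]
      push_cast at h2
      have h5 : ((c + d + 1).choose j : ℝ) * ((c : ℝ) + d + 1 - j) ≤
          ((c + d).choose j : ℝ) * (ww * ((c : ℝ) + d + 1 - j)) := by
        rw [h2]
        apply mul_le_mul_of_nonneg_left _ (by positivity)
        unfold ww
        linarith
      have h6 : ((c + d + 1).choose j : ℝ) * ((c : ℝ) + d + 1 - j) ≤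
          (ww * ((c + d).choose j : ℝ)) * ((c : ℝ) + d + 1 - j) := by linarith
      exact le_of_mul_le_mul_right h6 hpos
    have hw : (0 : ℝ) ≤ ww := by unfold ww; norm_num
    calc ((c + (d + 1)).choose j : ℝ) ≤ ww * ((c + d).choose j : ℝ) := h4
      _ ≤ ww * (ww ^ d * (c.choose j : ℝ)) := mul_le_mul_of_nonneg_left ih hw
      _ = _ := by ring

/-- product formula -/
lemma choose_prod (n j : ℕ) (hj : j ≤ n) : ∀ d : ℕ,
    ((n + d).choose j : ℝ) =
      (∏ i ∈ range d, (((n : ℝ) + 1 + i) / ((n : ℝ) + 1 + i - j))) * (n.choose j : ℝ) := by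
  intro d
  induction d with
  | zero => simp
  | succ d ih =>
    have h2 := choose_rec (n + d) j (by omega)
    have hcd : (j : ℝ) ≤ n + d := by exact_mod_cast (by omega : j ≤ n + d)
    have hpos : (0 : ℝ) < (n : ℝ) + 1 + d - j := by linarith
    rw [prod_range_succ]
    have e : n + (d + 1) = n + d + 1 := by ring
    rw [e]
    push_cast at h2
    have e2 : ((n + d + 1).choose j : ℝ) =
        ((n + d).choose j : ℝ) * (((n : ℝ) + 1 + d) / ((n : ℝ) + 1 + d - j)) := by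
      rw [← mul_div_assoc, eq_div_iff hpos.ne']
      linarith
    rw [e2, ih]
    ring

lemma top (n j : ℕ) (hn : 1 ≤ n) (hj : j ≤ n) (h : 21 * n ≤ 40 * j) :
    ww ^ (n - 1) * (n.choose j : ℝ) ≤ ((n + (n - 1)).choose j : ℝ) := by
  rw [choose_prod n j hj (n - 1)]
  apply mul_le_mul_of_nonneg_right _ (by positivity)
  have hjr : (j : ℝ) ≤ n := by exact_mod_cast hj
  have h21 : (21 : ℝ) * n ≤ 40 * j := by exact_mod_cast h
  set f : ℕ → ℝ := fun i => ((n : ℝ) + 1 + i) / ((n : ℝ) + 1 + i - j) with hf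
  have hfpos : ∀ i, 0 < f i := by
    intro i
    have : (0 : ℝ) ≤ i := by positivity
    simp only [hf]
    apply div_pos
    · positivity
    · linarith
  have hrefl : ∏ i ∈ range (n - 1), f (n - 1 - 1 - i) = ∏ i ∈ range (n - 1), f i :=
    prod_range_reflect f (n - 1)
  have hsq : (ww ^ (n - 1)) ^ 2 ≤ (∏ i ∈ range (n - 1), f i) ^ 2 := by
    calc (ww ^ (n - 1)) ^ 2 = ∏ i ∈ range (n - 1), ww ^ 2 := by
          rw [prod_const, card_range, ← pow_mul, ← pow_mul, mul_comm]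
      _ ≤ ∏ i ∈ range (n - 1), (f i * f (n - 1 - 1 - i)) := by
          apply prod_le_prod
          · intro i _; unfold ww; positivity
          · intro i hi
            rw [mem_range] at hi
            have hc : ((n - 1 - 1 - i : ℕ) : ℝ) = n - 2 - i := by
              rw [show n - 1 - 1 - i = n - (2 + i) by omega, Nat.cast_sub (by omega)]
              push_cast; ring
            have hin : (i : ℝ) + 2 ≤ n := by exact_mod_cast (by omega : i + 2 ≤ n)
            have hi0 : (0 : ℝ) ≤ i := by positivity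
            simp only [hf, hc]
            rw [div_mul_div_comm, le_div_iff₀ (by apply mul_pos <;> linarith)]
            unfold ww
            set c : ℝ := (n : ℝ) + 1 + i with hc
            have e1 : (n : ℝ) + 1 + (n - 2 - i) = 3 * n - c := by rw [hc]; ring
            rw [e1]
            have q1 : 0 ≤ (20 * (j : ℝ) - 21 / 2 * n) * (99 / 2 * n - 20 * j) := by
              apply mul_nonneg <;> nlinarith
            nlinarith [sq_nonneg (2 * c - 3 * n)]
      _ = (∏ i ∈ range (n - 1), f i) ^ 2 := by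
          rw [prod_mul_distrib, hrefl, sq]
  have hp : 0 ≤ ∏ i ∈ range (n - 1), f i := prod_nonneg fun i _ => (hfpos i).le
  exact le_of_sq_le_sq hsq hp

lemma transfer (n j : ℕ) (hn : 1 ≤ n) (hj : j ≤ n) (h : 21 * n ≤ 40 * j) (d : ℕ) (hd : d ≤ n - 1) :
    ww ^ d * (n.choose j : ℝ) ≤ ((n + d).choose j : ℝ) := by
  rcases Nat.lt_or_ge (20 * j) (7 * (n + d)) with h1 | h1
  · have h2 := decr (n + d) j (by omega) (by omega) (n - 1 - d)
    have e : n + d + (n - 1 - d) = n + (n - 1) := by omega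
    rw [e] at h2
    have h3 := top n j hn hj h
    have h4 : ww ^ (n - 1 - d) * (ww ^ d * (n.choose j : ℝ)) ≤
        ww ^ (n - 1 - d) * ((n + d).choose j : ℝ) := by
      have e2 : ww ^ (n - 1 - d) * (ww ^ d * (n.choose j : ℝ)) = ww ^ (n - 1) * (n.choose j : ℝ) := by
        rw [← mul_assoc, ← pow_add, show n - 1 - d + d = n - 1 by omega]
      rw [e2]
      linarith
    exact le_of_mul_le_mul_left h4 (by unfold ww; positivity)
  · exact incr n j hj d h1

end Star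

theorem star (a n : ℕ) (hn : 119 ≤ n) (h : n + 1 ≤ a) (h2 : a ≤ 2 * n) :
    ∃ j, j ≤ n ∧ (∀ y, y + a ^ 2 + a ≤ 2 * (a - 1) * n → y < j ^ 2 + j * (n + 1)) ∧
    kap * ww ^ (a + n + 1) + kap * ww ^ a * (23 / 10) ^ n + 3 ^ n / 2 ≤
      (n.choose j : ℝ) * ((a - 1).choose j : ℝ) * tt j / 2 := by
  obtain ⟨j, h1, h3, h4, h5, h6, h7⟩ := Star.exists_inv n hn
  refine ⟨j, h1, ?_, ?_⟩
  · intro y hy
    obtain ⟨c, rfl⟩ := Nat.exists_eq_add_of_le h
    have e : n + 1 + c - 1 = n + c := by omega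
    rw [e] at hy
    nlinarith
  · obtain ⟨d, rfl⟩ := Nat.exists_eq_add_of_le h
    have e : n + 1 + d - 1 = n + d := by omega
    rw [e]
    have ht := Star.transfer n j (by omega) h1 h5 d (by omega)
    have hc : (0 : ℝ) ≤ (n.choose j : ℝ) := by positivity
    have htt := Star.tt_pos j
    have a1 : (n.choose j : ℝ) * (ww ^ d * (n.choose j : ℝ)) * tt j / 2 ≤
        (n.choose j : ℝ) * ((n + d).choose j : ℝ) * tt j / 2 := by
      have := mul_le_mul_of_nonneg_left ht hc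
      have := mul_le_mul_of_nonneg_right this htt.le
      linarith
    have hwd : (0 : ℝ) ≤ ww ^ d := by unfold ww; positivity
    have hw1 : (1 : ℝ) ≤ ww ^ d := one_le_pow₀ (by unfold ww; norm_num)
    have a2 : ww ^ d * Star.RR n ≤ ww ^ d * ((n.choose j : ℝ) ^ 2 * tt j / 2) :=
      mul_le_mul_of_nonneg_left h7 hwd
    have a3 : ww ^ d * Star.RR n = kap * ww ^ (n + 1 + d + n + 1) +
        kap * ww ^ (n + 1 + d) * (23 / 10) ^ n + ww ^ d * (3 ^ n / 2) := by
      unfold Star.RR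
      ring
    have a4 : (3 : ℝ) ^ n / 2 ≤ ww ^ d * (3 ^ n / 2) := by
      have : (0 : ℝ) ≤ 3 ^ n / 2 := by positivity
      nlinarith
    have a5 : ww ^ d * ((n.choose j : ℝ) ^ 2 * tt j / 2) =
      (n.choose j : ℝ) * (ww ^ d * (n.choose j : ℝ)) * tt j / 2 := by ring
    linarith

end Pool.Agent.Lib.GKN
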