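import Pool.Agent.Lib.MP_86b3b2_co.Coef
import Pool.Agent.Lib.MP_86b3b2_co.Plateau
import Pool.Agent.Lib.MP_86b3b2_co.Star
import Pool.Agent.Lib.MP_86b3b2_co.KCheck
import Pool.Agent.Lib.MP_86b3b2_co.Small

namespace Pool.Agent.Lib.GKN

open PowerSeries Finset

/-- final induction -/
theorem main_aux : ∀ s a n : ℕ, a + n + 1 ≤ s → (∀ x, 0 ≤ coeff x (Gs a n)) ∧
    (∀ x, ((coeff x (Gs a n) : ℤ) : ℝ) ≤ mu a n + kap * ww ^ (a + n + 1)) := by
  intro s
  induction s with
  | zero => intro a n h; omega
  | succ s ih =>
    intro a n hs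
    -- upper bound from positivity
    have upper : ∀ a n : ℕ, 1 ≤ a → (∀ x, 0 ≤ coeff x (Gs a n)) →
        ∀ x, ((coeff x (Gs a n) : ℤ) : ℝ) ≤ mu a n + kap * ww ^ (a + n + 1) := by
      intro a n ha hpos x
      have h1 := plateau a n x ha
      have h2 := (abs_le.1 h1).2
      have h3 : coeff x (Gs a n) ≤ coeff x (Gs a n) +
          (if x < 2 * (a - 1) * n then coeff (2 * (a - 1) * n - 1 - x) (Gs a n) else 0) := by
        split_ifs
        · have := hpos (2 * (a - 1) * n - 1 - x); linarith
        · linarith
      have h4 : ((coeff x (Gs a n) : ℤ) : ℝ) ≤ ((coeff x (Gs a n) +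
          (if x < 2 * (a - 1) * n then coeff (2 * (a - 1) * n - 1 - x) (Gs a n) else 0) : ℤ) : ℝ) := by
        exact_mod_cast h3
      linarith
    -- the case `n + 1 ≤ a`
    have main : ∀ a n : ℕ, a + n + 1 ≤ s + 1 → n + 1 ≤ a → ∀ x, 0 ≤ coeff x (Gs a n) := by
      intro a n hs han
      have IH1 : ∀ a' i, a' + i + 1 ≤ a → ∀ y, 0 ≤ coeff y (Gs a' i) := by
        intro a' i h; exact (ih a' i (by omega)).1
      have IH2 : ∀ a' i, a' + i + 1 ≤ a → ∀ y, ((coeff y (Gs a' i) : ℤ) : ℝ) ≤
          mu a' i + kap * ww ^ (a' + i + 1) := by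
        intro a' i h; exact (ih a' i (by omega)).2
      intro x
      rcases Nat.lt_or_ge (2 * n) a with hbig | hle
      · exact nonneg_step a n x han (Or.inr (by omega)) IH1
      rcases Nat.lt_or_ge (a ^ 2 + a) (x + 2) with hx | hx
      swap
      · exact nonneg_step a n x han (Or.inl hx) IH1
      rcases Nat.lt_or_ge 5 n with hn5 | hn5
      swap
      · exact small_nonneg a n x hn5 han hle
      -- reciprocity
      have hpl := (abs_le.1 (plateau a n x (by omega))).1
      -- it suffices
      have key : kap * ww ^ (a + n + 1) ≤ mu a n ∧ (∀ y, y + a ^ 2 + a ≤ 2 * (a - 1) * n →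
          ((coeff y (Gs a n) : ℤ) : ℝ) ≤ mu a n - kap * ww ^ (a + n + 1)) := by
        have hsplit : (kap * ww ^ (a + n + 1) ≤ mu a n ∧
            ∀ y, y + a ^ 2 + a ≤ 2 * (a - 1) * n → ((coeff y (Gs a n) : ℤ) : ℝ) ≤
            mu a n - kap * ww ^ (a + n + 1)) ∨
            ∃ j, j ≤ n ∧ (∀ y, y + a ^ 2 + a ≤ 2 * (a - 1) * n → y < j ^ 2 + j * (n + 1)) ∧
            kap * ww ^ (a + n + 1) + kap * ww ^ a * (23 / 10) ^ n + 3 ^ n / 2 ≤
            (n.choose j : ℝ) * ((a - 1).choose j : ℝ) * tt j / 2 := by
          rcases Nat.lt_or_ge 118 n with hn | hn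
          swap
          · exact ksplit a n (by omega) hn han hle
              (fun y hy => nonneg_step a n y han (Or.inl hy) IH1)
              (fun y hy => apriori_step a n y han hy IH2)
          · exact Or.inr (star a n (by omega) han hle)
        rcases hsplit with hk | ⟨j, hj, hyj, hst⟩
        · exact hk
        · have hw := ww_pos
          have hk := kap_pos
          have p1 : 0 < kap * ww ^ (a + n + 1) := by positivity
          have p2 : 0 < kap * ww ^ a * (23 / 10) ^ n := by positivity
          have p3 : (0 : ℝ) < 3 ^ n / 2 := by positivity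
          constructor
          · have := mu_ge a n j han hj
            linarith
          · intro y hy
            have hy2 : y + 2 ≤ a ^ 2 + a := by
              obtain ⟨c, rfl⟩ := Nat.exists_eq_add_of_le han
              have e : n + 1 + c - 1 = n + c := by omega
              rw [e] at hy
              nlinarith
            have := upper_step a n y j han hy2 hj (hyj y hy) IH2
            linarith
      by_cases hxD : x < 2 * (a - 1) * n
      · rw [if_pos hxD] at hpl
        have hy : (2 * (a - 1) * n - 1 - x) + a ^ 2 + a ≤ 2 * (a - 1) * n := by omega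
        have h5 := key.2 _ hy
        push_cast at hpl
        have : (0 : ℝ) ≤ ((coeff x (Gs a n) : ℤ) : ℝ) := by linarith
        exact_mod_cast this
      · rw [if_neg hxD] at hpl
        push_cast at hpl
        have h6 := key.1
        have : (0 : ℝ) ≤ ((coeff x (Gs a n) : ℤ) : ℝ) := by linarith
        exact_mod_cast this
    -- now the general case
    rcases Nat.eq_zero_or_pos a with rfl | ha
    · have hc : ∀ x, coeff x (Gs 0 n) = if (2 * n + 1) ∣ x then 1 else 0 := by
        intro x; rw [Gs_zero_left]; simp [geo]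
      constructor
      · intro x; rw [hc]; split_ifs <;> norm_num
      · intro x
        have h1 : ((coeff x (Gs 0 n) : ℤ) : ℝ) ≤ 1 := by
          rw [hc]; split_ifs <;> norm_num
        have h2 : (0 : ℝ) ≤ mu 0 n := by unfold mu; positivity
        have h3 : (1 : ℝ) ≤ kap * ww ^ (0 + n + 1) := by
          have : (1 : ℝ) ≤ ww ^ n := one_le_pow₀ (by unfold ww; norm_num)
          rw [zero_add, pow_succ]
          unfold kap
          have h7 : ww = 20 / 13 := rfl
          rw [h7] at this ⊢
          linarith
        linarith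
    · have hpos : ∀ x, 0 ≤ coeff x (Gs a n) := by
        rcases Nat.lt_or_ge n a with h | h
        · exact main a n hs h
        · obtain ⟨m, rfl⟩ := Nat.exists_eq_add_of_le ha
          rw [show 1 + m = m + 1 by ring, Gs_symm]
          exact main (n + 1) m (by omega) (by omega)
      exact ⟨hpos, upper a n ha hpos⟩

theorem main (a n x : ℕ) : 0 ≤ coeff x (Gs a n) := (main_aux (a + n + 1) a n le_rfl).1 x

end Pool.Agent.Lib.GKN
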