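import Pool.Agent.Lib.MP_86b3b2_co.Base

namespace Pool.Agent.Lib.GKN

open Finset Polynomial

/-- `(q^x; q^2)_m` as a polynomial -/
noncomputable def pop (x m : ℕ) : ℤ[X] := ∏ i ∈ range m, (1 - (X : ℤ[X]) ^ (x + 2 * i))

lemma coe_pop (x m : ℕ) : ((pop x m : ℤ[X]) : PowerSeries ℤ) = po x m := by
  induction m with
  | zero => simp [pop, po]
  | succ m ih =>
    rw [po_succ, ← ih]
    unfold pop
    rw [prod_range_succ, Polynomial.coe_mul]
    congr 1
    rw [Polynomial.coe_sub, Polynomial.coe_one, Polynomial.coe_pow, Polynomial.coe_X]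

lemma pop_add (x m n : ℕ) : pop x (m + n) = pop x m * pop (x + 2 * m) n := by
  unfold pop
  rw [prod_range_add]
  congr 1
  apply prod_congr rfl
  intro i _
  congr 2
  ring

lemma one_sub_X_pow_ne_zero (v : ℕ) (hv : 1 ≤ v) : (1 - (X : ℤ[X]) ^ v) ≠ 0 := by
  have h : (X : ℤ[X]) ^ v - C 1 ≠ 0 := X_pow_sub_C_ne_zero (by omega) 1
  intro h0
  apply h
  rw [C_1]
  linear_combination -h0

lemma pop_ne_zero (x m : ℕ) (hx : 1 ≤ x) : pop x m ≠ 0 := by
  unfold pop
  rw [prod_ne_zero_iff]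
  intro i _
  exact one_sub_X_pow_ne_zero _ (by omega)

/-! ### Divisibility via cyclotomic polynomials -/

/-- number of `i < m` with `d ∣ 2i+1` -/
def cnt (d m : ℕ) : ℕ := ((range m).filter fun i => d ∣ 2 * i + 1).card

lemma cnt_odd (h N : ℕ) : cnt (2 * h + 1) N = (N + h) / (2 * h + 1) := by
  induction N with
  | zero =>
    have : (0 + h) / (2 * h + 1) = 0 := Nat.div_eq_of_lt (by omega)
    rw [this]; simp [cnt]
  | succ N ih =>
    have e1 : cnt (2 * h + 1) (N + 1) = cnt (2 * h + 1) N + if (2 * h + 1) ∣ 2 * N + 1 then 1 else 0 := by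
      unfold cnt
      rw [range_add_one, filter_insert]
      split_ifs with hd
      · rw [card_insert_of_notMem (by simp)]
      · rfl
    have e2 : (2 * h + 1) ∣ 2 * N + 1 ↔ (2 * h + 1) ∣ N + h + 1 := by
      have h1 : 2 * (N + h + 1) = (2 * N + 1) + (2 * h + 1) := by ring
      have h2 : (2 * h + 1) ∣ N + h + 1 ↔ (2 * h + 1) ∣ 2 * (N + h + 1) := by
        constructor
        · intro h; exact Dvd.dvd.mul_left h 2
        · intro h'
          apply Nat.Coprime.dvd_of_dvd_mul_left _ h'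
          rw [Nat.coprime_comm]
          simp
      rw [h2, h1, Nat.dvd_add_self_right]
    have e3 : N + 1 + h = N + h + 1 := by ring
    rw [e1, ih, e3]
    split_ifs with hd
    · rw [Nat.succ_div_of_dvd (e2.1 hd)]
    · rw [Nat.succ_div_of_not_dvd (fun hh => hd (e2.2 hh))]; rfl

lemma one_sub_cyc (v N : ℕ) (hv : 1 ≤ v) (hN : v < N) : (1 - (X : ℤ[X]) ^ v) =
    -∏ d ∈ range N, (cyclotomic d ℤ) ^ (if d ∣ v then 1 else 0) := by
  have h1 := prod_cyclotomic_eq_X_pow_sub_one (show 0 < v by omega) ℤ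
  have h2 : ∏ d ∈ range N, (cyclotomic d ℤ) ^ (if d ∣ v then 1 else 0) =
      ∏ d ∈ v.divisors, cyclotomic d ℤ := by
    rw [← prod_filter_mul_prod_filter_not (range N) (fun d => d ∣ v)]
    have h3 : ∏ d ∈ (range N).filter (fun d => ¬ d ∣ v),
        (cyclotomic d ℤ) ^ (if d ∣ v then 1 else 0) = 1 := by
      apply prod_eq_one
      intro d hd
      rw [if_neg (mem_filter.1 hd).2, pow_zero]
    rw [h3, mul_one]
    have h4 : (range N).filter (fun d => d ∣ v) = v.divisors := by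
      ext d
      simp only [mem_filter, mem_range, Nat.mem_divisors]
      constructor
      · rintro ⟨_, h⟩; exact ⟨h, by omega⟩
      · rintro ⟨h, _⟩
        exact ⟨lt_of_le_of_lt (Nat.le_of_dvd (by omega) h) hN, h⟩
    rw [h4]
    apply prod_congr rfl
    intro d hd
    rw [if_pos (Nat.dvd_of_mem_divisors hd), pow_one]
  rw [h2, h1]
  ring

lemma pop_cyc (m N : ℕ) (hN : 2 * m < N) : pop 1 m =
    (-1) ^ m * ∏ d ∈ range N, (cyclotomic d ℤ) ^ (cnt d m) := by
  induction m with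
  | zero => simp [pop, cnt]
  | succ m ih =>
    have e1 : pop 1 (m + 1) = pop 1 m * (1 - X ^ (2 * m + 1)) := by
      unfold pop
      rw [prod_range_succ, add_comm 1 (2 * m)]
    rw [e1, ih (by omega), one_sub_cyc (2 * m + 1) N (by omega) (by omega)]
    have e2 : ∀ d, cnt d (m + 1) = cnt d m + if d ∣ 2 * m + 1 then 1 else 0 := by
      intro d
      unfold cnt
      rw [range_add_one, filter_insert]
      split_ifs with hd
      · rw [card_insert_of_notMem (by simp)]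
      · rfl
    have e3 : ∏ d ∈ range N, (cyclotomic d ℤ) ^ (cnt d (m + 1)) =
        (∏ d ∈ range N, (cyclotomic d ℤ) ^ (cnt d m)) *
          ∏ d ∈ range N, (cyclotomic d ℤ) ^ (if d ∣ 2 * m + 1 then 1 else 0) := by
      rw [← prod_mul_distrib]
      apply prod_congr rfl
      intro d _
      rw [e2, pow_add]
    rw [e3]
    ring

lemma cnt_ineq (a n L d : ℕ) (hL : ∀ i ≤ n, (2 * i + 1) ∣ L) :
    cnt d (n + 1) + cnt d a ≤ (if d ∣ L then 1 else 0) + cnt d (a + n) := by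
  rcases Nat.even_or_odd' d with ⟨h, rfl | rfl⟩
  · have hz : ∀ N, cnt (2 * h) N = 0 := by
      intro N
      unfold cnt
      rw [card_eq_zero, filter_eq_empty_iff]
      intro i _ hd
      have : 2 ∣ 2 * i + 1 := (Dvd.intro h rfl).trans hd
      omega
    rw [hz, hz]
    omega
  · rw [cnt_odd, cnt_odd, cnt_odd]
    split_ifs with hd
    · have h1 : (n + 1 + h) / (2 * h + 1) + (a + h) / (2 * h + 1) ≤ (n + 1 + h + (a + h)) / (2 * h + 1) := Nat.div_add_div_le_add_div
      have h2 : (n + 1 + h + (a + h)) / (2 * h + 1) ≤ (a + n + h + (2 * h + 1)) / (2 * h + 1) :=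
        Nat.div_le_div_right (by omega)
      rw [Nat.add_div_right _ (by omega)] at h2
      omega
    · have hh : n < h := by
        by_contra hcon
        exact hd (hL h (by omega))
      have h1 : (n + 1 + h) / (2 * h + 1) = 0 := Nat.div_eq_of_lt (by omega)
      have h2 : (a + h) / (2 * h + 1) ≤ (a + n + h) / (2 * h + 1) :=
        Nat.div_le_div_right (by omega)
      omega

theorem exists_H (a n L : ℕ) (hL1 : 1 ≤ L) (hL : ∀ i ≤ n, (2 * i + 1) ∣ L) :
    ∃ H : ℤ[X], (1 - (X : ℤ[X]) ^ L) * pop (2 * a + 1) n = pop 1 (n + 1) * H := by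
  have hdvd : pop 1 (n + 1) * pop 1 a ∣ (1 - (X : ℤ[X]) ^ L) * pop 1 (a + n) := by
    set N := 2 * (a + n + 1) + L + 1 with hN
    rw [pop_cyc (n + 1) N (by omega), pop_cyc a N (by omega), pop_cyc (a + n) N (by omega),
      one_sub_cyc L N hL1 (by omega)]
    have h1 : (∏ d ∈ range N, (cyclotomic d ℤ) ^ (cnt d (n + 1))) *
        (∏ d ∈ range N, (cyclotomic d ℤ) ^ (cnt d a)) ∣
        (∏ d ∈ range N, (cyclotomic d ℤ) ^ (if d ∣ L then 1 else 0)) *
        (∏ d ∈ range N, (cyclotomic d ℤ) ^ (cnt d (a + n))) := by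
      rw [← prod_mul_distrib, ← prod_mul_distrib]
      apply prod_dvd_prod_of_dvd
      intro d _
      rw [← pow_add, ← pow_add]
      exact pow_dvd_pow _ (cnt_ineq a n L d hL)
    obtain ⟨K, hK⟩ := h1
    refine ⟨(-1) ^ (n + 1) * (-1) ^ a * (-1) * (-1) ^ (a + n) * K, ?_⟩
    have s1 : ((-1 : ℤ[X]) ^ (n + 1)) * (-1) ^ (n + 1) = 1 := by
      rw [← pow_add, ← two_mul, pow_mul]; simp
    have s2 : ((-1 : ℤ[X]) ^ a) * (-1) ^ a = 1 := by
      rw [← pow_add, ← two_mul, pow_mul]; simp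
    calc (-∏ d ∈ range N, (cyclotomic d ℤ) ^ (if d ∣ L then 1 else 0)) *
          ((-1) ^ (a + n) * ∏ d ∈ range N, (cyclotomic d ℤ) ^ (cnt d (a + n)))
        = (-1) * (-1) ^ (a + n) * ((∏ d ∈ range N, (cyclotomic d ℤ) ^ (if d ∣ L then 1 else 0)) *
          ∏ d ∈ range N, (cyclotomic d ℤ) ^ (cnt d (a + n))) := by ring
      _ = (-1) * (-1) ^ (a + n) * (((∏ d ∈ range N, (cyclotomic d ℤ) ^ (cnt d (n + 1))) *
          (∏ d ∈ range N, (cyclotomic d ℤ) ^ (cnt d a))) * K) := by rw [hK]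
      _ = (((-1 : ℤ[X]) ^ (n + 1)) * (-1) ^ (n + 1)) * (((-1 : ℤ[X]) ^ a) * (-1) ^ a) *
          ((-1) * (-1) ^ (a + n) * (((∏ d ∈ range N, (cyclotomic d ℤ) ^ (cnt d (n + 1))) *
          (∏ d ∈ range N, (cyclotomic d ℤ) ^ (cnt d a))) * K)) := by rw [s1, s2]; ring
      _ = _ := by ring
  obtain ⟨H, hH⟩ := hdvd
  refine ⟨H, ?_⟩
  rw [pop_add 1 a n] at hH
  have h2 := pop_ne_zero 1 a le_rfl
  apply mul_left_cancel₀ h2
  have e : 1 + 2 * a = 2 * a + 1 := by ring
  rw [e] at hH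
  linear_combination hH

/-! ### Palindromicity -/

lemma natDegree_one_sub (v : ℕ) : (1 - (X : ℤ[X]) ^ v).natDegree = v := by
  have h : (1 - (X : ℤ[X]) ^ v) = -(X ^ v - C 1) := by rw [C_1]; ring
  rw [h, natDegree_neg, natDegree_X_pow_sub_C]

lemma reverse_one_sub (v : ℕ) : (1 - (X : ℤ[X]) ^ v).reverse = -(1 - (X : ℤ[X]) ^ v) := by
  rw [reverse, natDegree_one_sub, reflect_sub, reflect_one]
  have := reflect_monomial v v (R := ℤ)
  have h2 : reflect v (X ^ v : ℤ[X]) = 1 := by simp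
  rw [h2]
  ring

lemma reverse_pop (x m : ℕ) : (pop x m).reverse = (-1) ^ m * pop x m := by
  induction m with
  | zero => simp [pop, reverse]
  | succ m ih =>
    have e1 : pop x (m + 1) = pop x m * (1 - X ^ (x + 2 * m)) := by
      unfold pop; rw [prod_range_succ]
    rw [e1, reverse_mul_of_domain, ih, reverse_one_sub]
    ring

lemma natDegree_pop (x m : ℕ) (hx : 1 ≤ x) : (pop x m).natDegree + m = m * (x + m) := by
  induction m with
  | zero => simp [pop]
  | succ m ih =>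
    have e1 : pop x (m + 1) = pop x m * (1 - X ^ (x + 2 * m)) := by
      unfold pop; rw [prod_range_succ]
    rw [e1, natDegree_mul (pop_ne_zero x m hx) (one_sub_X_pow_ne_zero _ (by omega)),
      natDegree_one_sub]
    nlinarith

theorem H_pal (a n L : ℕ) (ha : 1 ≤ a) (hL1 : 1 ≤ L) (H : ℤ[X])
    (hH : (1 - (X : ℤ[X]) ^ L) * pop (2 * a + 1) n = pop 1 (n + 1) * H) :
    H.natDegree + 1 = L + 2 * (a - 1) * n ∧ H.reverse = H := by
  have h1 : (1 - (X : ℤ[X]) ^ L) ≠ 0 := one_sub_X_pow_ne_zero L hL1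
  have h2 := pop_ne_zero (2 * a + 1) n (by omega)
  have h3 := pop_ne_zero 1 (n + 1) le_rfl
  have hH0 : H ≠ 0 := by
    rintro rfl
    rw [mul_zero] at hH
    exact (mul_ne_zero h1 h2) hH
  constructor
  · have hd := congrArg natDegree hH
    rw [natDegree_mul h1 h2, natDegree_mul h3 hH0, natDegree_one_sub] at hd
    have d1 := natDegree_pop (2 * a + 1) n (by omega)
    have d2 := natDegree_pop 1 (n + 1) le_rfl
    obtain ⟨c, rfl⟩ : ∃ c, a = c + 1 := ⟨a - 1, by omega⟩
    rw [Nat.add_sub_cancel]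
    nlinarith
  · have hr := congrArg reverse hH
    rw [reverse_mul_of_domain, reverse_mul_of_domain, reverse_one_sub, reverse_pop, reverse_pop] at hr
    have h4 : pop 1 (n + 1) * H.reverse = pop 1 (n + 1) * H := by
      rw [← hH]
      have s2 : ((-1 : ℤ[X]) ^ n) * (-1) ^ n = 1 := by
        rw [← pow_add, ← two_mul, pow_mul]; simp
      calc pop 1 (n + 1) * H.reverse
          = (((-1 : ℤ[X]) ^ n) * (-1) ^ n) * (pop 1 (n + 1) * H.reverse) := by rw [s2, one_mul]
        _ = -((-1 : ℤ[X]) ^ n) * ((-1) ^ (n + 1) * pop 1 (n + 1) * H.reverse) := by ring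
        _ = -((-1 : ℤ[X]) ^ n) * (-(1 - X ^ L) * ((-1) ^ n * pop (2 * a + 1) n)) := by rw [← hr]
        _ = (((-1 : ℤ[X]) ^ n) * (-1) ^ n) * ((1 - X ^ L) * pop (2 * a + 1) n) := by ring
        _ = _ := by rw [s2, one_mul]
    exact mul_left_cancel₀ h3 h4

/-- coefficients of `H` -/
theorem H_coeff (a n L : ℕ) (ha : 1 ≤ a) (hL1 : 1 ≤ L) (H : ℤ[X])
    (hH : (1 - (X : ℤ[X]) ^ L) * pop (2 * a + 1) n = pop 1 (n + 1) * H) :
    (∀ y, L + 2 * (a - 1) * n ≤ y → H.coeff y = 0) ∧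
    (∀ y, y < L + 2 * (a - 1) * n → H.coeff y = H.coeff (L + 2 * (a - 1) * n - 1 - y)) := by
  obtain ⟨h1, h2⟩ := H_pal a n L ha hL1 H hH
  constructor
  · intro y hy
    exact coeff_eq_zero_of_natDegree_lt (by omega)
  · intro y hy
    conv_lhs => rw [← h2]
    rw [coeff_reverse, revAt_le (by omega)]
    congr 1
    omega

/-- `(1 - q^L) G = H` -/
theorem H_series (a n L : ℕ) (H : ℤ[X])
    (hH : (1 - (X : ℤ[X]) ^ L) * pop (2 * a + 1) n = pop 1 (n + 1) * H) :
    (1 - (PowerSeries.X : PowerSeries ℤ) ^ L) * Gs a n = (H : PowerSeries ℤ) := by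
  have h1 := congrArg (fun p : ℤ[X] => (p : PowerSeries ℤ)) hH
  simp only [Polynomial.coe_mul, coe_pop, Polynomial.coe_sub, Polynomial.coe_one,
    Polynomial.coe_pow, Polynomial.coe_X] at h1
  unfold Gs
  rw [← mul_assoc, h1]
  have h2 := po_mul_ip 1 (n + 1) one_pos
  calc po 1 (n + 1) * (H : PowerSeries ℤ) * ip 1 (n + 1)
      = (po 1 (n + 1) * ip 1 (n + 1)) * (H : PowerSeries ℤ) := by ring
    _ = _ := by rw [h2, one_mul]

theorem H_rec (a n L : ℕ) (H : ℤ[X])
    (hH : (1 - (X : ℤ[X]) ^ L) * pop (2 * a + 1) n = pop 1 (n + 1) * H) (y : ℕ) :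
    PowerSeries.coeff y (Gs a n) - (if L ≤ y then PowerSeries.coeff (y - L) (Gs a n) else 0) =
      H.coeff y := by
  have h1 := congrArg (PowerSeries.coeff y) (H_series a n L H hH)
  rw [sub_mul, one_mul, map_sub, PowerSeries.coeff_X_pow_mul', Polynomial.coeff_coe] at h1
  exact h1

/-- the symmetrised coefficient -/
noncomputable def ss (a n x : ℕ) : ℤ :=
  PowerSeries.coeff x (Gs a n) + (if x < 2 * (a - 1) * n then
    PowerSeries.coeff (2 * (a - 1) * n - 1 - x) (Gs a n) else 0)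

theorem ss_period (a n L : ℕ) (ha : 1 ≤ a) (hL1 : 1 ≤ L) (hL : ∀ i ≤ n, (2 * i + 1) ∣ L) (x : ℕ) :
    ss a n (x + L) = ss a n x := by
  obtain ⟨H, hH⟩ := exists_H a n L hL1 hL
  obtain ⟨hc1, hc2⟩ := H_coeff a n L ha hL1 H hH
  have hr := H_rec a n L H hH
  set E := 2 * (a - 1) * n with hE
  have r1 := hr (x + L)
  rw [if_pos (by omega), Nat.add_sub_cancel] at r1
  unfold ss
  rw [← hE]
  by_cases hx : x < E
  · rw [if_pos hx]
    have r2 := hr (E - 1 - x)
    have r3 := hc2 (E - 1 - x) (by omega)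
    have e : L + E - 1 - (E - 1 - x) = x + L := by omega
    rw [e] at r3
    by_cases hx2 : x + L < E
    · rw [if_pos hx2]
      rw [if_pos (by omega : L ≤ E - 1 - x)] at r2
      have e2 : E - 1 - x - L = E - 1 - (x + L) := by omega
      rw [e2] at r2
      linarith
    · rw [if_neg hx2]
      rw [if_neg (by omega : ¬ L ≤ E - 1 - x)] at r2
      linarith
  · rw [if_neg hx, if_neg (by omega)]
    have r3 := hc1 (x + L) (by omega)
    linarith

theorem period (a n L : ℕ) (ha : 1 ≤ a) (hL1 : 1 ≤ L) (hL : ∀ i ≤ n, (2 * i + 1) ∣ L) (x : ℕ)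
    (hx : 2 * (a - 1) * n ≤ x) :
    PowerSeries.coeff (x + L) (Gs a n) = PowerSeries.coeff x (Gs a n) := by
  have h := ss_period a n L ha hL1 hL x
  unfold ss at h
  rw [if_neg (by omega), if_neg (by omega)] at h
  linarith

/-- `H` in terms of the periodic sequence -/
theorem H_eq (a n L : ℕ) (ha : 1 ≤ a) (hL1 : 1 ≤ L) (hL : ∀ i ≤ n, (2 * i + 1) ∣ L) (H : ℤ[X])
    (hH : (1 - (X : ℤ[X]) ^ L) * pop (2 * a + 1) n = pop 1 (n + 1) * H) :
    H = (∑ x ∈ range L, C (ss a n x) * X ^ x) - (1 - X ^ L) *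
      ∑ x ∈ range (2 * (a - 1) * n), C (PowerSeries.coeff (2 * (a - 1) * n - 1 - x) (Gs a n)) * X ^ x := by
  set E := 2 * (a - 1) * n with hE
  set t : ℤ[X] := ∑ x ∈ range E, C (PowerSeries.coeff (E - 1 - x) (Gs a n)) * X ^ x with ht
  have ht1 : ∀ y, t.coeff y = if y < E then PowerSeries.coeff (E - 1 - y) (Gs a n) else 0 := by
    intro y
    rw [ht, finsetSum_coeff]
    simp only [coeff_C_mul, coeff_X_pow, mul_ite, mul_one, mul_zero]
    rw [sum_ite_eq (range E) y]
    simp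
  have hs1 : ∀ y, (∑ x ∈ range L, C (ss a n x) * X ^ x : ℤ[X]).coeff y =
      if y < L then ss a n y else 0 := by
    intro y
    rw [finsetSum_coeff]
    simp only [coeff_C_mul, coeff_X_pow, mul_ite, mul_one, mul_zero]
    rw [sum_ite_eq (range L) y]
    simp
  have hss : ∀ y, ss a n y = PowerSeries.coeff y (Gs a n) + t.coeff y := by
    intro y
    rw [ht1]
    rfl
  ext y
  rw [coeff_sub, hs1, sub_mul, one_mul, coeff_sub, coeff_X_pow_mul', ← H_rec a n L H hH y]
  by_cases hy : y < L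
  · rw [if_pos hy, if_neg (by omega), if_neg (by omega), hss]
    ring
  · rw [if_neg hy, if_pos (by omega), if_pos (by omega)]
    have h1 := hss y
    have h2 := hss (y - L)
    have h3 := ss_period a n L ha hL1 hL (y - L)
    rw [Nat.sub_add_cancel (by omega)] at h3
    linarith

end Pool.Agent.Lib.GKN
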