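import Pool.Agent.Lib.MP_86b3b2_co.Base

namespace Pool.Agent.Lib.GKN

open PowerSeries Finset

/-- product splitting off the first factor -/
lemma prod_Ico_first {R : Type} [CommRing R] (f : ℕ → R) {j n : ℕ} (h : j < n) :
    ∏ l ∈ Ico j n, f l = f j * ∏ l ∈ Ico (j + 1) n, f l := by
  rw [← Finset.prod_Ioo_mul_eq_prod_Ico h, mul_comm]
  congr 1

/-- The basic `q`-Vandermonde type identity. -/
theorem vand (n : ℕ) : ∀ x z : PowerSeries ℤ,
    ∏ l ∈ range n, (1 - x * X ^ (2 * l)) =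
      ∑ j ∈ range (n + 1), gb n j * (X ^ (j * (j - 1)) * (∏ l ∈ range j, (z * X ^ (2 * l) - x)) *
        ∏ l ∈ Ico j n, (1 - z * X ^ (2 * l))) := by
  induction n with
  | zero => intro x z; simp [gb]
  | succ n ih =>
    intro x z
    have step : ∏ l ∈ range (n + 1), (1 - x * X ^ (2 * l)) =
        (1 - x) * ∏ l ∈ range n, (1 - (x * X ^ 2) * X ^ (2 * l)) := by
      rw [prod_range_succ', mul_comm]
      congr 1
      · simp
      · apply prod_congr rfl
        intro l _
        ring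
    rw [step, ih (x * X ^ 2) (z * X ^ 2), mul_sum]
    -- the right side
    have pr1 : ∀ j, X ^ (2 * j) * ∏ l ∈ range j, (z * X ^ (2 * l) - x) =
        ∏ l ∈ range j, (z * X ^ 2 * X ^ (2 * l) - x * X ^ 2) := by
      intro j
      induction j with
      | zero => simp
      | succ j ihj =>
        rw [prod_range_succ, prod_range_succ, ← ihj]
        ring
    have pr2 : ∀ j, ∏ l ∈ Ico (j + 1) (n + 1), (1 - z * X ^ (2 * l)) =
        ∏ l ∈ Ico j n, (1 - z * X ^ 2 * X ^ (2 * l)) := by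
      intro j
      rw [← Finset.prod_Ico_add' (fun l => (1 - z * X ^ (2 * l) : PowerSeries ℤ)) j n 1]
      apply prod_congr rfl
      intro l _
      ring
    -- first part
    set A : ℕ → PowerSeries ℤ := fun j => X ^ (j * (j - 1)) *
      (∏ l ∈ range j, (z * X ^ 2 * X ^ (2 * l) - x * X ^ 2)) *
        ∏ l ∈ Ico j n, (1 - z * X ^ 2 * X ^ (2 * l)) with hA
    have key : ∀ j, (1 - x) * (gb n j * A j) =
        gb n j * (X ^ (2 * j) * (X ^ (j * (j - 1)) * (∏ l ∈ range j, (z * X ^ (2 * l) - x)) *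
          ((1 - z * X ^ (2 * j)) * ∏ l ∈ Ico (j + 1) (n + 1), (1 - z * X ^ (2 * l))))) +
        gb n j * (X ^ ((j + 1) * (j + 1 - 1)) * (∏ l ∈ range (j + 1), (z * X ^ (2 * l) - x)) *
          ∏ l ∈ Ico (j + 1) (n + 1), (1 - z * X ^ (2 * l))) := by
      intro j
      rw [pr2, prod_range_succ, hA]
      simp only []
      have e : X ^ ((j + 1) * (j + 1 - 1)) = X ^ (j * (j - 1)) * (X : PowerSeries ℤ) ^ (2 * j) := by
        rw [← pow_add]; congr 1
        cases j with
        | zero => simp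
        | succ j => simp; ring
      rw [e, ← pr1]
      ring
    rw [sum_congr rfl fun j _ => key j, sum_add_distrib]
    -- the sum for n + 1
    rw [sum_range_succ' (fun j => gb (n + 1) j * (X ^ (j * (j - 1)) *
      (∏ l ∈ range j, (z * X ^ (2 * l) - x)) * ∏ l ∈ Ico j (n + 1), (1 - z * X ^ (2 * l)))) (n + 1)]
    have dist : ∀ j, gb (n + 1) (j + 1) * (X ^ ((j + 1) * (j + 1 - 1)) *
      (∏ l ∈ range (j + 1), (z * X ^ (2 * l) - x)) *
        ∏ l ∈ Ico (j + 1) (n + 1), (1 - z * (X : PowerSeries ℤ) ^ (2 * l))) =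
        X ^ (2 * (j + 1)) * gb n (j + 1) * (X ^ ((j + 1) * (j + 1 - 1)) *
      (∏ l ∈ range (j + 1), (z * X ^ (2 * l) - x)) *
        ∏ l ∈ Ico (j + 1) (n + 1), (1 - z * X ^ (2 * l))) +
        gb n j * (X ^ ((j + 1) * (j + 1 - 1)) *
      (∏ l ∈ range (j + 1), (z * X ^ (2 * l) - x)) *
        ∏ l ∈ Ico (j + 1) (n + 1), (1 - z * X ^ (2 * l))) := by
      intro j; rw [gb_succ, add_mul]
    rw [sum_congr rfl fun j _ => dist j, sum_add_distrib]
    rw [sum_range_succ' (fun j => gb n j * (X ^ (2 * j) * (X ^ (j * (j - 1)) *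
      (∏ l ∈ range j, (z * X ^ (2 * l) - x)) *
          ((1 - z * X ^ (2 * j)) * ∏ l ∈ Ico (j + 1) (n + 1), (1 - z * X ^ (2 * l)))))) n]
    rw [sum_range_succ (fun j => X ^ (2 * (j + 1)) * gb n (j + 1) * (X ^ ((j + 1) * (j + 1 - 1)) *
      (∏ l ∈ range (j + 1), (z * X ^ (2 * l) - x)) *
        ∏ l ∈ Ico (j + 1) (n + 1), (1 - z * X ^ (2 * l)))) n]
    rw [gb_eq_zero n (n + 1) (by omega)]
    have e0 : ∏ l ∈ Ico 0 (n + 1), (1 - z * X ^ (2 * l)) =
        (1 - z) * ∏ l ∈ Ico (0 + 1) (n + 1), (1 - z * (X : PowerSeries ℤ) ^ (2 * l)) := by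
      rw [prod_Ico_first _ (by omega : 0 < n + 1)]; simp
    have e1 : ∑ j ∈ range n, gb n (j + 1) * (X ^ (2 * (j + 1)) * (X ^ ((j + 1) * (j + 1 - 1)) *
        (∏ l ∈ range (j + 1), (z * X ^ (2 * l) - x)) *
          ((1 - z * X ^ (2 * (j + 1))) * ∏ l ∈ Ico (j + 1 + 1) (n + 1), (1 - z * X ^ (2 * l))))) =
        ∑ j ∈ range n, X ^ (2 * (j + 1)) * gb n (j + 1) * (X ^ ((j + 1) * (j + 1 - 1)) *
      (∏ l ∈ range (j + 1), (z * X ^ (2 * l) - x)) *
        ∏ l ∈ Ico (j + 1) (n + 1), (1 - z * (X : PowerSeries ℤ) ^ (2 * l))) := by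
      apply sum_congr rfl
      intro j hj
      rw [prod_Ico_first _ (by have := mem_range.1 hj; omega : j + 1 < n + 1)]
      ring
    rw [e1, e0]
    simp only [gb_zero, range_zero, prod_empty, mul_zero, zero_mul, pow_zero, zero_add]
    ring

lemma prod_fac (c i : ℕ) :
    ∏ l ∈ range i, ((X : PowerSeries ℤ) ^ 3 * X ^ (2 * l) - X ^ (c + 2 * i + 1)) =
      X ^ (i * (i + 2)) * po c i := by
  have h1 : ∏ l ∈ range i, (X : PowerSeries ℤ) ^ (3 + 2 * l) = X ^ (i * (i + 2)) := by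
    induction i with
    | zero => simp
    | succ i ih => rw [prod_range_succ, ih, ← pow_add]; congr 1; ring
  have h2 : ∏ l ∈ range i, (1 - (X : PowerSeries ℤ) ^ (c + 2 * (i - 1 - l))) = po c i := by
    unfold po
    exact prod_range_reflect (fun l => (1 - (X : PowerSeries ℤ) ^ (c + 2 * l))) i
  rw [← h1, ← h2, ← prod_mul_distrib]
  apply prod_congr rfl
  intro l hl
  have hl := mem_range.1 hl
  have e : c + 2 * i + 1 = (3 + 2 * l) + (c + 2 * (i - 1 - l)) := by omega
  rw [e, pow_add, pow_add]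
  ring

lemma prod_Ico_po (j n : ℕ) :
    ∏ l ∈ Ico j n, (1 - (X : PowerSeries ℤ) ^ 3 * X ^ (2 * l)) = po (2 * j + 3) (n - j) := by
  rw [prod_Ico_eq_prod_range]
  unfold po
  apply prod_congr rfl
  intro l _
  rw [← pow_add]
  congr 2
  ring

lemma po_ip_cancel (j n : ℕ) (h : j ≤ n) :
    po (2 * j + 3) (n - j) * ip 1 (n + 1) = ip 1 (j + 1) := by
  obtain ⟨d, rfl⟩ := Nat.exists_eq_add_of_le h
  have e1 : j + d - j = d := by omega
  have e2 : j + d + 1 = (j + 1) + d := by ring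
  rw [e1, e2, ip_add]
  have e3 : 1 + 2 * (j + 1) = 2 * j + 3 := by ring
  rw [e3]
  calc po (2 * j + 3) d * (ip 1 (j + 1) * ip (2 * j + 3) d)
      = (po (2 * j + 3) d * ip (2 * j + 3) d) * ip 1 (j + 1) := by ring
    _ = ip 1 (j + 1) := by rw [po_mul_ip _ _ (by omega), one_mul]

theorem outer (a n : ℕ) (h : n ≤ a) : Gs a n =
    ∑ j ∈ range (n + 1), X ^ (j * (2 * j + 1)) * gb n j * (po (2 * (a - j)) j * ip 1 (j + 1)) := by
  have h1 : po (2 * a + 1) n = ∏ l ∈ range n, (1 - (X : PowerSeries ℤ) ^ (2 * a + 1) * X ^ (2 * l)) := by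
    unfold po
    apply prod_congr rfl
    intro l _
    rw [← pow_add]
  unfold Gs
  rw [h1, vand n (X ^ (2 * a + 1)) (X ^ 3), sum_mul]
  apply sum_congr rfl
  intro j hj
  have hj := mem_range.1 hj
  have e : 2 * a + 1 = 2 * (a - j) + 2 * j + 1 := by omega
  rw [prod_Ico_po, e, prod_fac]
  have e2 : (X : PowerSeries ℤ) ^ (j * (2 * j + 1)) = X ^ (j * (j - 1)) * X ^ (j * (j + 2)) := by
    rw [← pow_add]; congr 1
    cases j with
    | zero => simp
    | succ j => simp; ring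
  rw [e2, ← po_ip_cancel j n (by omega)]
  ring

theorem inner_id (s j : ℕ) (hs : 1 ≤ s) : po (2 * s) j * ip 1 (j + 1) =
    ∑ i ∈ range (j + 1), gb j i * TT s i := by
  have h1 : po (2 * s) j = ∏ l ∈ range j, (1 - (X : PowerSeries ℤ) ^ (2 * s) * X ^ (2 * l)) := by
    unfold po
    apply prod_congr rfl
    intro l _
    rw [← pow_add]
  rw [h1, vand j (X ^ (2 * s)) (X ^ 3), sum_mul]
  apply sum_congr rfl
  intro i hi
  have hi := mem_range.1 hi
  rw [prod_Ico_po, TT]
  split_ifs with his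
  · have e : 2 * s = (2 * (s - 1 - i) + 1) + 2 * i + 1 := by omega
    have e2 : (X : PowerSeries ℤ) ^ (i * (2 * i + 1)) = X ^ (i * (i - 1)) * X ^ (i * (i + 2)) := by
      rw [← pow_add]; congr 1
      cases i with
      | zero => simp
      | succ i => simp; ring
    rw [e2, Gs, ← po_ip_cancel i j (by omega)]
    rw [e, prod_fac]
    ring
  · obtain ⟨r, rfl⟩ : ∃ r, s = r + 1 := ⟨s - 1, by omega⟩
    obtain ⟨σ, hσ⟩ : ∃ σ, i = r + σ := ⟨i - r, by omega⟩
    have e1 : i + 1 - (r + 1) = σ := by omega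
    have e2 : r + 1 - 1 = r := by omega
    rw [e1, e2, ← po_ip_cancel i j (by omega)]
    have e3 : ∏ l ∈ range i, ((X : PowerSeries ℤ) ^ 3 * X ^ (2 * l) - X ^ (2 * (r + 1))) =
        X ^ (r * (r + 2)) * po 1 r * ((-1) ^ σ * X ^ (2 * (r + 1) * σ) * po 1 σ) := by
      rw [hσ, prod_range_add]
      congr 1
      · have e : 2 * (r + 1) = 1 + 2 * r + 1 := by ring
        rw [e, prod_fac]
      · unfold po
        clear hσ e1
        induction σ with
        | zero => simp
        | succ σ ih =>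
          rw [prod_range_succ, ih, prod_range_succ]
          have e4 : (X : PowerSeries ℤ) ^ 3 * X ^ (2 * (r + σ)) =
            X ^ (2 * (r + 1)) * X ^ (1 + 2 * σ) := by
            rw [← pow_add, ← pow_add]; congr 1; ring
          rw [e4]
          ring
    rw [e3]
    have e5 : i * (2 * i + 1) - σ ^ 2 = i * (i - 1) + r * (r + 2) + 2 * (r + 1) * σ := by
      have : i * (2 * i + 1) = i * (i - 1) + r * (r + 2) + 2 * (r + 1) * σ + σ ^ 2 := by
        rw [hσ]
        rcases Nat.eq_zero_or_pos (r + σ) with h0 | h0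
        · have h1 : r = 0 := by omega
          have h2 : σ = 0 := by omega
          subst h1; subst h2; simp
        · obtain ⟨u, hu⟩ : ∃ u, r + σ = u + 1 := ⟨r + σ - 1, by omega⟩
          rw [hu]
          simp only [Nat.add_sub_cancel]
          have : σ = u + 1 - r := by omega
          zify
          have hz : (r : ℤ) + σ = u + 1 := by exact_mod_cast hu
          have hz2 : (u : ℤ) = r + σ - 1 := by linarith
          rw [hz2]; ring
      omega
    rw [e5, pow_add, pow_add]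
    ring

theorem two_step (a n : ℕ) (h : n + 1 ≤ a) : Gs a n =
    ∑ j ∈ range (n + 1), ∑ i ∈ range (j + 1),
      X ^ (j * (2 * j + 1)) * gb n j * (gb j i * TT (a - j) i) := by
  rw [outer a n (by omega)]
  apply sum_congr rfl
  intro j hj
  have hj := mem_range.1 hj
  rw [inner_id (a - j) j (by omega), mul_sum]

end Pool.Agent.Lib.GKN
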