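import Pool.Agent.Lib.MP_86b3b2_co.KDefs

/-! Kernel computation of `diag n W s` for `6 ≤ n ≤ 38`. The results are stored in definitions
(`PLift`), which Lean elaborates one after the other: this limits the memory needed. -/

namespace Pool.Agent.Lib.GKN.KC

set_option exponentiation.threshold 100000000 in
set_option maxRecDepth 100000 in
def d6 : PLift (diag 6 19 6 = true) := ⟨by decide +kernel⟩

set_option exponentiation.threshold 100000000 in
set_option maxRecDepth 100000 in
def d7 : PLift (diag 7 22 7 = true) := ⟨by decide +kernel⟩

set_option exponentiation.threshold 100000000 in
set_option maxRecDepth 100000 in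
def d8 : PLift (diag 8 25 8 = true) := ⟨by decide +kernel⟩

set_option exponentiation.threshold 100000000 in
set_option maxRecDepth 100000 in
def d9 : PLift (diag 9 28 9 = true) := ⟨by decide +kernel⟩

set_option exponentiation.threshold 100000000 in
set_option maxRecDepth 100000 in
def d10 : PLift (diag 10 31 10 = true) := ⟨by decide +kernel⟩

set_option exponentiation.threshold 100000000 in
set_option maxRecDepth 100000 in
def d11 : PLift (diag 11 34 11 = true) := ⟨by decide +kernel⟩

set_option exponentiation.threshold 100000000 in
set_option maxRecDepth 100000 in
def d12 : PLift (diag 12 37 12 = true) := ⟨by decide +kernel⟩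

set_option exponentiation.threshold 100000000 in
set_option maxRecDepth 100000 in
def d13 : PLift (diag 13 40 13 = true) := ⟨by decide +kernel⟩

set_option exponentiation.threshold 100000000 in
set_option maxRecDepth 100000 in
def d14 : PLift (diag 14 43 14 = true) := ⟨by decide +kernel⟩

set_option exponentiation.threshold 100000000 in
set_option maxRecDepth 100000 in
def d15 : PLift (diag 15 46 15 = true) := ⟨by decide +kernel⟩

set_option exponentiation.threshold 100000000 in
set_option maxRecDepth 100000 in
def d16 : PLift (diag 16 49 16 = true) := ⟨by decide +kernel⟩

set_option exponentiation.threshold 100000000 in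
set_option maxRecDepth 100000 in
def d17 : PLift (diag 17 52 17 = true) := ⟨by decide +kernel⟩

set_option exponentiation.threshold 100000000 in
set_option maxRecDepth 100000 in
def d18 : PLift (diag 18 55 18 = true) := ⟨by decide +kernel⟩

set_option exponentiation.threshold 100000000 in
set_option maxRecDepth 100000 in
def d19 : PLift (diag 19 58 19 = true) := ⟨by decide +kernel⟩

set_option exponentiation.threshold 100000000 in
set_option maxRecDepth 100000 in
def d20 : PLift (diag 20 61 20 = true) := ⟨by decide +kernel⟩

set_option exponentiation.threshold 100000000 in
set_option maxRecDepth 100000 in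
def d21 : PLift (diag 21 64 21 = true) := ⟨by decide +kernel⟩

set_option exponentiation.threshold 100000000 in
set_option maxRecDepth 100000 in
def d22 : PLift (diag 22 67 22 = true) := ⟨by decide +kernel⟩

set_option exponentiation.threshold 100000000 in
set_option maxRecDepth 100000 in
def d23 : PLift (diag 23 70 23 = true) := ⟨by decide +kernel⟩

set_option exponentiation.threshold 100000000 in
set_option maxRecDepth 100000 in
def d24 : PLift (diag 24 73 24 = true) := ⟨by decide +kernel⟩

set_option exponentiation.threshold 100000000 in
set_option maxRecDepth 100000 in
def d25 : PLift (diag 25 76 25 = true) := ⟨by decide +kernel⟩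

set_option exponentiation.threshold 100000000 in
set_option maxRecDepth 100000 in
def d26 : PLift (diag 26 79 26 = true) := ⟨by decide +kernel⟩

set_option exponentiation.threshold 100000000 in
set_option maxRecDepth 100000 in
def d27 : PLift (diag 27 82 27 = true) := ⟨by decide +kernel⟩

set_option exponentiation.threshold 100000000 in
set_option maxRecDepth 100000 in
def d28 : PLift (diag 28 85 28 = true) := ⟨by decide +kernel⟩

set_option exponentiation.threshold 100000000 in
set_option maxRecDepth 100000 in
def d29 : PLift (diag 29 88 29 = true) := ⟨by decide +kernel⟩

set_option exponentiation.threshold 100000000 in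
set_option maxRecDepth 100000 in
def d30 : PLift (diag 30 91 30 = true) := ⟨by decide +kernel⟩

set_option exponentiation.threshold 100000000 in
set_option maxRecDepth 100000 in
def d31 : PLift (diag 31 94 31 = true) := ⟨by decide +kernel⟩

set_option exponentiation.threshold 100000000 in
set_option maxRecDepth 100000 in
def d32 : PLift (diag 32 97 32 = true) := ⟨by decide +kernel⟩

set_option exponentiation.threshold 100000000 in
set_option maxRecDepth 100000 in
def d33 : PLift (diag 33 100 33 = true) := ⟨by decide +kernel⟩

set_option exponentiation.threshold 100000000 in
set_option maxRecDepth 100000 in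
def d34 : PLift (diag 34 103 34 = true) := ⟨by decide +kernel⟩

set_option exponentiation.threshold 100000000 in
set_option maxRecDepth 100000 in
def d35 : PLift (diag 35 106 35 = true) := ⟨by decide +kernel⟩

set_option exponentiation.threshold 100000000 in
set_option maxRecDepth 100000 in
def d36 : PLift (diag 36 109 36 = true) := ⟨by decide +kernel⟩

set_option exponentiation.threshold 100000000 in
set_option maxRecDepth 100000 in
def d37 : PLift (diag 37 112 37 = true) := ⟨by decide +kernel⟩

set_option exponentiation.threshold 100000000 in
set_option maxRecDepth 100000 in
def d38 : PLift (diag 38 115 38 = true) := ⟨by decide +kernel⟩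

end Pool.Agent.Lib.GKN.KC
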