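import Pool.Agent.Lib.MP_86b3b2_co.Base

/-!
# Kernel check of the range `n ≤ 118`: algorithm and soundness

Power series modulo `X^L` are evaluated at `Q = 2^W` modulo `2^(W L)` (Kronecker substitution).
-/

namespace Pool.Agent.Lib.GKN

open PowerSeries Finset

namespace KC

/-- multiply by `1 - 2^s` modulo `2^T` (without reducing the result) -/
def mulS (T s N : ℕ) : ℕ := N + (2 ^ T - (N <<< s) % 2 ^ T)

/-- division by `1 - Q^d` modulo `Q^L`, by multiplication with a geometric sum -/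
def divQ (W L d N : ℕ) : ℕ :=
  (N * ((2 ^ (W * d * (L / d + 1)) - 1) / (2 ^ (W * d) - 1))) % 2 ^ (W * L)

/-- multiply by `∏_{i<k} (1 - Q^(x+2i))` -/
def mulL (W L x : ℕ) : ℕ → ℕ → ℕ
  | 0, N => N
  | k + 1, N => mulL W L x k (mulS (W * L) (W * (x + 2 * k)) N)

/-- divide by `∏_{i<k} (1 - Q^(1+2i))` -/
def divL (W L : ℕ) : ℕ → ℕ → ℕ
  | 0, N => N
  | k + 1, N => divL W L k (divQ W L (1 + 2 * k) N)

/-- odd products -/
def od : ℕ → ℕ
  | 0 => 1
  | m + 1 => od m * (2 * m + 1)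

/-- the check for one value of `a`; `oa = od a`, `ob = od (n+1)`, `oc = od (a+n)`,
`on = ∑_{y ≤ Y(a)} Q^y` -/
def check (n W a N on oa ob oc : ℕ) : Bool :=
  let A := 50 * 13 ^ (a + n + 1) * (oa * ob)
  let B := 41 * 20 ^ (a + n + 1) * (oa * ob)
  let C := 50 * 13 ^ (a + n + 1) * oc
  let v := Nat.log2 ((C - B) / A)
  Nat.ble (A * 2 ^ v + B) C && Nat.beq (N &&& ((2 ^ W - 2 ^ v) * on)) 0

/-- number of values of `y` to be checked: `Y(a) + 1` -/
def kk (n a : ℕ) : ℕ := 2 * (a - 1) * n + 1 - (a ^ 2 + a)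

/-- run through the values of `a` -/
def loop (n W ob : ℕ) : ℕ → ℕ → ℕ → ℕ → ℕ → ℕ → Bool
  | 0, _, _, _, _, _ => true
  | f + 1, a, N, on, oa, oc =>
    check n W a N on oa ob oc &&
      loop n W ob f (a + 1)
        (divQ W (kk n (a + 1)) (2 * a + 1)
          (mulS (W * kk n (a + 1)) (W * (2 * a + 1 + 2 * n)) N))
        (on % 2 ^ (W * kk n (a + 1)))
        (oa * (2 * a + 1)) (oc * (2 * (a + n) + 1))

/-- starting value, `a = n + 1` -/
def start (n W : ℕ) : ℕ :=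
  divL W (kk n (n + 1)) (n + 1) (mulL W (kk n (n + 1)) (2 * (n + 1) + 1) n 1)

/-- the check for `n + 1 ≤ a ≤ n + s`, with `W` bits for each coefficient -/
def diag (n W s : ℕ) : Bool :=
  loop n W (od (n + 1)) s (n + 1) (start n W)
    ((2 ^ (W * kk n (n + 1)) - 1) / (2 ^ W - 1)) (od (n + 1)) (od (2 * n + 1))

/-! ### Soundness -/

/-- evaluation at `2^W` modulo `2^(W L)` -/
noncomputable def ev (W L : ℕ) (f : PowerSeries ℤ) : ZMod (2 ^ (W * L)) :=
  ∑ y ∈ range L, ((coeff y f : ℤ) : ZMod (2 ^ (W * L))) * 2 ^ (W * y)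

lemma ev_add (W L : ℕ) (f g : PowerSeries ℤ) : ev W L (f + g) = ev W L f + ev W L g := by
  unfold ev
  rw [← sum_add_distrib]
  apply sum_congr rfl
  intro y _
  rw [map_add]; push_cast; ring

lemma ev_sub (W L : ℕ) (f g : PowerSeries ℤ) : ev W L (f - g) = ev W L f - ev W L g := by
  unfold ev
  rw [← sum_sub_distrib]
  apply sum_congr rfl
  intro y _
  rw [map_sub]; push_cast; ring

lemma two_pow_zero {T i : ℕ} (h : T ≤ i) : (2 : ZMod (2 ^ T)) ^ i = 0 := by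
  obtain ⟨c, rfl⟩ := Nat.exists_eq_add_of_le h
  rw [pow_add]
  have : (2 : ZMod (2 ^ T)) ^ T = 0 := by
    have := ZMod.natCast_self (2 ^ T)
    push_cast at this
    exact this
  rw [this, zero_mul]

lemma ev_X_pow_mul (W L e : ℕ) (f : PowerSeries ℤ) :
    ev W L (X ^ e * f) = 2 ^ (W * e) * ev W L f := by
  unfold ev
  rcases Nat.lt_or_ge L e with he | he
  · have h1 : (2 : ZMod (2 ^ (W * L))) ^ (W * e) = 0 :=
      two_pow_zero (Nat.mul_le_mul_left _ he.le)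
    rw [h1, zero_mul]
    apply sum_eq_zero
    intro y hy
    have : y < L := mem_range.1 hy
    rw [coeff_X_pow_mul', if_neg (by omega)]
    simp
  · obtain ⟨c, rfl⟩ := Nat.exists_eq_add_of_le he
    rw [sum_range_add, mul_sum]
    have h1 : ∑ y ∈ range e, ((coeff y (X ^ e * f) : ℤ) : ZMod (2 ^ (W * (e + c)))) *
        2 ^ (W * y) = 0 := by
      apply sum_eq_zero
      intro y hy
      have : y < e := mem_range.1 hy
      rw [coeff_X_pow_mul', if_neg (by omega)]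
      simp
    rw [h1, zero_add, add_comm e c, sum_range_add]
    have h2 : ∑ y ∈ range e, 2 ^ (W * e) *
        (((coeff (c + y) f : ℤ) : ZMod (2 ^ (W * (c + e)))) * 2 ^ (W * (c + y))) = 0 := by
      apply sum_eq_zero
      intro y _
      have h3 : (2 : ZMod (2 ^ (W * (c + e)))) ^ (W * e) * 2 ^ (W * (c + y)) = 0 := by
        rw [← pow_add]
        apply two_pow_zero
        nlinarith
      calc 2 ^ (W * e) *
        (((coeff (c + y) f : ℤ) : ZMod (2 ^ (W * (c + e)))) * 2 ^ (W * (c + y)))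
          = ((coeff (c + y) f : ℤ) : ZMod (2 ^ (W * (c + e)))) *
            (2 ^ (W * e) * 2 ^ (W * (c + y))) := by ring
        _ = 0 := by rw [h3, mul_zero]
    rw [h2, add_zero]
    apply sum_congr rfl
    intro y _
    rw [coeff_X_pow_mul', if_pos (by omega), Nat.add_sub_cancel_left]
    rw [mul_add, pow_add]
    ring

lemma ev_one_sub (W L e : ℕ) (f : PowerSeries ℤ) :
    ev W L ((1 - X ^ e) * f) = (1 - 2 ^ (W * e)) * ev W L f := by
  rw [sub_mul, one_mul, ev_sub, ev_X_pow_mul]; ring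

lemma ev_one_add (W L e : ℕ) (f : PowerSeries ℤ) :
    ev W L ((1 + X ^ e) * f) = (1 + 2 ^ (W * e)) * ev W L f := by
  rw [add_mul, one_mul, ev_add, ev_X_pow_mul]; ring

/-- `N` represents `f` -/
def Rep (W L N : ℕ) (f : PowerSeries ℤ) : Prop := ((N : ℕ) : ZMod (2 ^ (W * L))) = ev W L f

lemma cast_mulS (T s N : ℕ) : ((mulS T s N : ℕ) : ZMod (2 ^ T)) = (1 - 2 ^ s) * (N : ℕ) := by
  unfold mulS
  have h : (N <<< s) % 2 ^ T ≤ 2 ^ T := (Nat.mod_lt _ (by positivity)).le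
  push_cast [Nat.cast_sub h]
  rw [ZMod.natCast_mod, Nat.shiftLeft_eq]
  push_cast
  have : (2 : ZMod (2 ^ T)) ^ T = 0 := two_pow_zero le_rfl
  rw [this]; ring

lemma Rep.mulS {W L N : ℕ} {f : PowerSeries ℤ} (h : Rep W L N f) (e : ℕ) :
    Rep W L (KC.mulS (W * L) (W * e) N) ((1 - X ^ e) * f) := by
  unfold Rep at *
  rw [cast_mulS, ev_one_sub, h]

lemma geom (q k : ℕ) (hq : 2 ≤ q) : (q ^ k - 1) / (q - 1) = ∑ i ∈ range k, q ^ i := by
  rw [Nat.geomSum_eq hq]

lemma two_le {W : ℕ} (hW : 1 ≤ W) : 2 ≤ 2 ^ W := by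
  calc 2 = 2 ^ 1 := by norm_num
    _ ≤ 2 ^ W := Nat.pow_le_pow_right (by norm_num) hW

lemma Rep.divQ {W L N : ℕ} {f : PowerSeries ℤ} (hW : 1 ≤ W) (h : Rep W L N f) (d : ℕ)
    (hd : 0 < d) : Rep W L (KC.divQ W L d N) (geo d * f) := by
  unfold KC.divQ
  have hWd : 1 ≤ W * d := Nat.mul_pos hW hd
  rw [pow_mul, geom _ _ (two_le hWd)]
  unfold Rep at *
  rw [ZMod.natCast_mod]
  push_cast
  rw [h]
  have h1 : ev W L f = (1 - 2 ^ (W * d)) * ev W L (geo d * f) := by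
    rw [← ev_one_sub, ← mul_assoc, geo_mul d hd, one_mul]
  have h2 : (1 - (2 : ZMod (2 ^ (W * L))) ^ (W * d)) *
      ∑ i ∈ range (L / d + 1), ((2 : ZMod (2 ^ (W * L))) ^ (W * d)) ^ i = 1 := by
    rw [mul_neg_geom_sum, ← pow_mul]
    have h3 : L ≤ d * (L / d + 1) := (Nat.lt_mul_div_succ L hd).le
    rw [two_pow_zero (by rw [mul_assoc]; exact Nat.mul_le_mul_left _ h3), sub_zero]
  rw [h1]
  calc (1 - (2 : ZMod (2 ^ (W * L))) ^ (W * d)) * ev W L (geo d * f) *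
        ∑ i ∈ range (L / d + 1), ((2 : ZMod (2 ^ (W * L))) ^ (W * d)) ^ i
      = ((1 - (2 : ZMod (2 ^ (W * L))) ^ (W * d)) *
        ∑ i ∈ range (L / d + 1), ((2 : ZMod (2 ^ (W * L))) ^ (W * d)) ^ i) *
        ev W L (geo d * f) := by ring
    _ = ev W L (geo d * f) := by rw [h2, one_mul]

lemma Rep.mulL {W L : ℕ} (x : ℕ) : ∀ (k N : ℕ) (f : PowerSeries ℤ), Rep W L N f →
    Rep W L (KC.mulL W L x k N) (po x k * f)
  | 0, N, f, h => by simpa [KC.mulL, po_zero] using h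
  | k + 1, N, f, h => by
      have h1 := Rep.mulL x k _ _ (h.mulS (x + 2 * k))
      rw [← mul_assoc, ← po_succ] at h1
      exact h1

lemma ip_succ (x m : ℕ) : ip x (m + 1) = ip x m * geo (x + 2 * m) := by
  simp [ip, prod_range_succ]

lemma Rep.divL {W L : ℕ} (hW : 1 ≤ W) : ∀ (k N : ℕ) (f : PowerSeries ℤ), Rep W L N f →
    Rep W L (KC.divL W L k N) (ip 1 k * f)
  | 0, N, f, h => by simpa [KC.divL, ip] using h
  | k + 1, N, f, h => by
      have h1 := Rep.divL hW k _ _ (h.divQ hW (1 + 2 * k) (by omega))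
      rw [← mul_assoc, ← ip_succ] at h1
      exact h1

lemma Rep.one {W L : ℕ} (hL : 0 < L) : Rep W L 1 1 := by
  unfold Rep ev
  obtain ⟨c, rfl⟩ := Nat.exists_eq_add_of_le' hL
  rw [sum_range_succ']
  simp [coeff_one]

lemma kk_pos {n : ℕ} (hn : 6 ≤ n) : 0 < kk n (n + 1) := by
  unfold kk
  have e1 : n + 1 - 1 = n := rfl
  rw [e1]
  have : (n + 1) ^ 2 + (n + 1) < 2 * n * n + 1 := by nlinarith
  omega

lemma rep_start {n W : ℕ} (hW : 1 ≤ W) (hn : 6 ≤ n) :
    Rep W (kk n (n + 1)) (start n W) (Gs (n + 1) n) := by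
  unfold start Gs
  have h1 := Rep.mulL (2 * (n + 1) + 1) n 1 1 (Rep.one (W := W) (kk_pos hn))
  have h2 := Rep.divL hW (n + 1) _ _ h1
  rw [mul_one, mul_comm (ip 1 (n + 1))] at h2
  exact h2

lemma Gs_succ (a n : ℕ) :
    Gs (a + 1) n = geo (2 * a + 1) * ((1 - X ^ (2 * a + 1 + 2 * n)) * Gs a n) := by
  have h1 : po (2 * a + 1) (n + 1) = (1 - X ^ (2 * a + 1)) * po (2 * (a + 1) + 1) n := by
    rw [po_succ']; rfl
  have h2 : po (2 * a + 1) (n + 1) = po (2 * a + 1) n * (1 - X ^ (2 * a + 1 + 2 * n)) :=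
    po_succ _ _
  have h3 := geo_mul (2 * a + 1) (by omega)
  unfold Gs
  calc po (2 * (a + 1) + 1) n * ip 1 (n + 1)
      = ((1 - X ^ (2 * a + 1)) * geo (2 * a + 1)) * (po (2 * (a + 1) + 1) n * ip 1 (n + 1)) := by
        rw [h3, one_mul]
    _ = geo (2 * a + 1) * (((1 - X ^ (2 * a + 1)) * po (2 * (a + 1) + 1) n) * ip 1 (n + 1)) := by
        ring
    _ = geo (2 * a + 1) * ((1 - X ^ (2 * a + 1 + 2 * n)) * (po (2 * a + 1) n * ip 1 (n + 1))) := by
        rw [← h1, h2]; ring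

/-! ### The mask -/

/-- `∑_{y<k} Q^y` -/
def ons (W k : ℕ) : ℕ := ∑ i ∈ range k, (2 ^ W) ^ i

lemma ons_succ (W k : ℕ) : ons W (k + 1) = (2 ^ W) * ons W k + 1 := by
  unfold ons
  rw [geom_sum_succ]

lemma ons_lt (W k : ℕ) (hW : 1 ≤ W) : ons W k < 2 ^ (W * k) := by
  have h2 := two_le hW
  induction k with
  | zero => simp [ons]
  | succ k ih =>
    rw [ons_succ, mul_add, mul_one, pow_add]
    nlinarith

lemma ons_mod (W k k' : ℕ) (hW : 1 ≤ W) (h : k' ≤ k) : ons W k % 2 ^ (W * k') = ons W k' := by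
  obtain ⟨c, rfl⟩ := Nat.exists_eq_add_of_le h
  have h1 : ons W (k' + c) = ons W k' + 2 ^ (W * k') * ons W c := by
    unfold ons
    rw [sum_range_add, mul_sum]
    congr 1
    apply sum_congr rfl
    intro i _
    rw [pow_add, pow_mul]
  rw [h1, Nat.add_mul_mod_self_left, Nat.mod_eq_of_lt (ons_lt W k' hW)]

/-- the mask `∑_{y<k} (2^W - 2^v) Q^y` -/
def mask (W v k : ℕ) : ℕ := (2 ^ W - 2 ^ v) * ons W k

lemma mask_succ (W v k : ℕ) :
    mask W v (k + 1) = (2 ^ W) * mask W v k + (2 ^ W - 2 ^ v) := by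
  unfold mask
  rw [ons_succ]
  ring

lemma small_of_land {W v d : ℕ} (hv : v ≤ W) (hd : d < 2 ^ W)
    (h : d &&& (2 ^ W - 2 ^ v) = 0) : d < 2 ^ v := by
  apply Nat.lt_pow_two_of_testBit
  intro i hi
  rcases Nat.lt_or_ge i W with hiW | hiW
  · have e : 2 ^ W - 2 ^ v = 2 ^ v * (2 ^ (W - v) - 1) := by
      rw [Nat.mul_sub, ← pow_add, Nat.add_sub_cancel' hv, mul_one]
    have h1 : (d &&& (2 ^ W - 2 ^ v)).testBit i = false := by rw [h]; exact Nat.zero_testBit i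
    rw [Nat.testBit_and, e] at h1
    have h2 : (2 ^ v * (2 ^ (W - v) - 1)).testBit i = true := by
      rw [Nat.testBit_two_pow_mul, Nat.testBit_two_pow_sub_one]
      simp only [ge_iff_le, hi, decide_true, Bool.true_and, decide_eq_true_eq]
      omega
    rw [h2, Bool.and_true] at h1
    exact h1
  · exact Nat.testBit_lt_two_pow (lt_of_lt_of_le hd (Nat.pow_le_pow_right (by norm_num) hiW))

lemma land_split {W x y a b : ℕ} (ha : a < 2 ^ W) (hb : b < 2 ^ W)
    (h : (2 ^ W * x + a) &&& (2 ^ W * y + b) = 0) : x &&& y = 0 ∧ a &&& b = 0 := by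
  constructor
  · apply Nat.eq_of_testBit_eq
    intro i
    have h1 : ((2 ^ W * x + a) &&& (2 ^ W * y + b)).testBit (W + i) = false := by
      rw [h]; exact Nat.zero_testBit _
    rw [Nat.testBit_and, Nat.testBit_two_pow_mul_add x ha, Nat.testBit_two_pow_mul_add y hb] at h1
    rw [if_neg (by omega), if_neg (by omega), Nat.add_sub_cancel_left] at h1
    rw [Nat.testBit_and, h1, Nat.zero_testBit]
  · apply Nat.eq_of_testBit_eq
    intro i
    rcases Nat.lt_or_ge i W with hi | hi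
    · have h1 : ((2 ^ W * x + a) &&& (2 ^ W * y + b)).testBit i = false := by
        rw [h]; exact Nat.zero_testBit _
      rw [Nat.testBit_and, Nat.testBit_two_pow_mul_add x ha, Nat.testBit_two_pow_mul_add y hb] at h1
      rw [if_pos hi, if_pos hi] at h1
      rw [Nat.testBit_and, h1, Nat.zero_testBit]
    · rw [Nat.testBit_and, Nat.testBit_lt_two_pow (lt_of_lt_of_le ha
        (Nat.pow_le_pow_right (by norm_num) hi)), Bool.false_and, Nat.zero_testBit]

lemma digits {W v : ℕ} (hv : v ≤ W) : ∀ (k N : ℕ) (g : ℕ → ℤ),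
    (∀ y < k, 0 ≤ g y) → (∀ y < k, g y < 2 ^ W) →
    ((2 : ℤ) ^ (W * k) ∣ (N : ℤ) - ∑ y ∈ range k, g y * 2 ^ (W * y)) →
    N &&& mask W v k = 0 → ∀ y < k, g y < 2 ^ v
  | 0, _, _, _, _, _, _, y, hy => by omega
  | k + 1, N, g, h0, h1, h2, h3, y, hy => by
      have hN : N = 2 ^ W * (N / 2 ^ W) + N % 2 ^ W := (Nat.div_add_mod N (2 ^ W)).symm
      have hm : N % 2 ^ W < 2 ^ W := Nat.mod_lt _ (by positivity)
      have hm2 : 2 ^ W - 2 ^ v < 2 ^ W := by
        have : 0 < 2 ^ v := by positivity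
        have : 0 < 2 ^ W := by positivity
        omega
      rw [mask_succ W v k, hN] at h3
      obtain ⟨h4, h5⟩ := land_split hm hm2 h3
      have h6 := small_of_land hv hm h5
      -- the last digit
      rw [sum_range_succ'] at h2
      simp only [mul_zero, pow_zero, mul_one] at h2
      have e1 : ∑ y ∈ range k, g (y + 1) * (2 : ℤ) ^ (W * (y + 1)) =
          2 ^ W * ∑ y ∈ range k, g (y + 1) * (2 : ℤ) ^ (W * y) := by
        rw [mul_sum]
        apply sum_congr rfl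
        intro y _
        rw [mul_add, mul_one, pow_add]; ring
      rw [e1] at h2
      have e2 : (2 : ℤ) ^ (W * (k + 1)) = 2 ^ W * 2 ^ (W * k) := by
        rw [mul_add, mul_one, pow_add]; ring
      have hNz : (N : ℤ) = 2 ^ W * ((N / 2 ^ W : ℕ) : ℤ) + ((N % 2 ^ W : ℕ) : ℤ) := by
        conv_lhs => rw [hN]
        push_cast; ring
      have h7 : g 0 = ((N % 2 ^ W : ℕ) : ℤ) := by
        have hd : (2 : ℤ) ^ W ∣ g 0 - ((N % 2 ^ W : ℕ) : ℤ) := by
          have h8 : (2 : ℤ) ^ W ∣ (N : ℤ) - (2 ^ W * ∑ y ∈ range k, g (y + 1) * (2 : ℤ) ^ (W * y) +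
              g 0) := dvd_trans (by rw [e2]; exact dvd_mul_right _ _) h2
          rw [hNz] at h8
          obtain ⟨c, hc⟩ := h8
          refine ⟨((N / 2 ^ W : ℕ) : ℤ) - ∑ y ∈ range k, g (y + 1) * (2 : ℤ) ^ (W * y) - c, ?_⟩
          linear_combination -hc
        have b1 := h0 0 (by omega)
        have b2 := h1 0 (by omega)
        have b3 : (0 : ℤ) ≤ ((N % 2 ^ W : ℕ) : ℤ) := by positivity
        have b4 : ((N % 2 ^ W : ℕ) : ℤ) < 2 ^ W := by exact_mod_cast hm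
        have b5 := Int.eq_zero_of_abs_lt_dvd hd (abs_lt.2 ⟨by linarith, by linarith⟩)
        linarith
      rcases Nat.eq_zero_or_pos y with rfl | hy0
      · rw [h7]; exact_mod_cast h6
      · obtain ⟨z, rfl⟩ := Nat.exists_eq_add_of_le' hy0
        refine digits hv k (N / 2 ^ W) (fun y => g (y + 1)) (fun y hy => h0 _ (by omega))
          (fun y hy => h1 _ (by omega)) ?_ h4 z (by omega)
        have h9 : (2 : ℤ) ^ W * 2 ^ (W * k) ∣ 2 ^ W * (((N / 2 ^ W : ℕ) : ℤ) -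
            ∑ y ∈ range k, g (y + 1) * (2 : ℤ) ^ (W * y)) := by
          rw [← e2]
          obtain ⟨c, hc⟩ := h2
          refine ⟨c, ?_⟩
          rw [← hc, hNz, h7]; ring
        exact (mul_dvd_mul_iff_left (by positivity)).1 h9

lemma Rep.dvd {W L N : ℕ} {f : PowerSeries ℤ} (h : Rep W L N f) (k : ℕ) (hk : k ≤ L) :
    (2 : ℤ) ^ (W * k) ∣ (N : ℤ) - ∑ y ∈ range k, coeff y f * 2 ^ (W * y) := by
  unfold Rep ev at h
  have h1 : (((N : ℤ) - ∑ y ∈ range L, coeff y f * 2 ^ (W * y) : ℤ) : ZMod (2 ^ (W * L))) = 0 := by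
    push_cast
    rw [h, sub_self]
  rw [ZMod.intCast_zmod_eq_zero_iff_dvd] at h1
  push_cast at h1
  obtain ⟨c, rfl⟩ := Nat.exists_eq_add_of_le hk
  rw [sum_range_add] at h1
  have h2 : (2 : ℤ) ^ (W * k) ∣ ∑ y ∈ range c, coeff (k + y) f * 2 ^ (W * (k + y)) := by
    apply dvd_sum
    intro y _
    apply dvd_mul_of_dvd_right
    apply pow_dvd_pow
    exact Nat.mul_le_mul_left _ (by omega)
  have h3 : (2 : ℤ) ^ (W * k) ∣ (N : ℤ) - (∑ y ∈ range k, coeff y f * 2 ^ (W * y) +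
      ∑ y ∈ range c, coeff (k + y) f * 2 ^ (W * (k + y))) :=
    dvd_trans (pow_dvd_pow _ (Nat.mul_le_mul_left _ (by omega))) h1
  have h4 := dvd_add h3 h2
  have e : (N : ℤ) - (∑ y ∈ range k, coeff y f * 2 ^ (W * y) +
      ∑ y ∈ range c, coeff (k + y) f * 2 ^ (W * (k + y))) +
      ∑ y ∈ range c, coeff (k + y) f * 2 ^ (W * (k + y)) =
      (N : ℤ) - ∑ y ∈ range k, coeff y f * 2 ^ (W * y) := by ring
  rwa [e] at h4

lemma Rep.of_dvd {W k N : ℕ} {f : PowerSeries ℤ}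
    (h : (2 : ℤ) ^ (W * k) ∣ (N : ℤ) - ∑ y ∈ range k, coeff y f * 2 ^ (W * y)) : Rep W k N f := by
  unfold Rep ev
  have h1 : (((N : ℤ) - ∑ y ∈ range k, coeff y f * 2 ^ (W * y) : ℤ) : ZMod (2 ^ (W * k))) = 0 := by
    rw [ZMod.intCast_zmod_eq_zero_iff_dvd]
    push_cast
    exact h
  push_cast at h1
  exact sub_eq_zero.1 h1

lemma Rep.mono {W L N : ℕ} {f : PowerSeries ℤ} (h : Rep W L N f) {k : ℕ} (hk : k ≤ L) :
    Rep W k N f := Rep.of_dvd (h.dvd k hk)

/-! ### Odd products -/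

lemma od_cast (m : ℕ) : ((od m : ℕ) : ℝ) = ∏ i ∈ range m, (2 * (i : ℝ) + 1) := by
  induction m with
  | zero => simp [od]
  | succ m ih => rw [od, prod_range_succ, ← ih]; push_cast; ring

lemma od_pos (m : ℕ) : 0 < od m := by
  induction m with
  | zero => simp [od]
  | succ m ih => rw [od]; positivity

lemma mu_eq (a n : ℕ) : mu a n = (od (a + n) : ℝ) / ((od a : ℝ) * (od (n + 1) : ℝ)) := by
  unfold mu
  rw [od_cast, od_cast, od_cast, prod_range_add (fun i : ℕ => 2 * (i : ℝ) + 1) a n]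
  have h1 : (∏ i ∈ range a, (2 * (i : ℝ) + 1)) ≠ 0 := by
    apply prod_ne_zero_iff.2; intro i _; positivity
  have h2 : (∏ i ∈ range (n + 1), (2 * (i : ℝ) + 1)) ≠ 0 := by
    apply prod_ne_zero_iff.2; intro i _; positivity
  rw [mul_div_mul_left _ _ h1]
  congr 1
  apply prod_congr rfl
  intro i _
  push_cast; ring

/-- The conclusion for one pair. -/
def Good (a n : ℕ) : Prop :=
  kap * ww ^ (a + n + 1) ≤ mu a n ∧
    ∀ y, y + a ^ 2 + a ≤ 2 * (a - 1) * n → ((coeff y (Gs a n) : ℤ) : ℝ) ≤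
      mu a n - kap * ww ^ (a + n + 1)

lemma num_bound {a n v : ℕ}
    (h : 50 * 13 ^ (a + n + 1) * (od a * od (n + 1)) * 2 ^ v +
      41 * 20 ^ (a + n + 1) * (od a * od (n + 1)) ≤ 50 * 13 ^ (a + n + 1) * od (a + n)) :
    (2 : ℝ) ^ v + kap * ww ^ (a + n + 1) ≤ mu a n := by
  have h1 : (50 * 13 ^ (a + n + 1) * ((od a : ℝ) * (od (n + 1) : ℝ)) * 2 ^ v +
      41 * 20 ^ (a + n + 1) * ((od a : ℝ) * (od (n + 1) : ℝ)) : ℝ) ≤
      50 * 13 ^ (a + n + 1) * (od (a + n) : ℝ) := by exact_mod_cast h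
  have p1 : (0 : ℝ) < (od a : ℝ) * (od (n + 1) : ℝ) := by
    have := od_pos a; have := od_pos (n + 1); positivity
  rw [mu_eq, le_div_iff₀ p1]
  unfold kap ww
  rw [div_pow]
  have p2 : (0 : ℝ) < 50 * 13 ^ (a + n + 1) := by positivity
  rw [← mul_le_mul_iff_right₀ p2]
  calc 50 * 13 ^ (a + n + 1) * ((2 ^ v + 41 / 50 * (20 ^ (a + n + 1) / 13 ^ (a + n + 1))) *
        ((od a : ℝ) * (od (n + 1) : ℝ)))
      = 50 * 13 ^ (a + n + 1) * ((od a : ℝ) * (od (n + 1) : ℝ)) * 2 ^ v +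
      41 * 20 ^ (a + n + 1) * ((od a : ℝ) * (od (n + 1) : ℝ)) := by
        field_simp
    _ ≤ _ := h1

lemma check_sound {n W a N on : ℕ} (hW : a + n < W)
    (h : n + 1 ≤ a)
    (hN : Rep W (kk n a) N (Gs a n)) (hon : on = ons W (kk n a))
    (hc : check n W a N on (od a) (od (n + 1)) (od (a + n)) = true)
    (h0 : ∀ y, y + 2 ≤ a ^ 2 + a → 0 ≤ coeff y (Gs a n))
    (h1 : ∀ y, y + 2 ≤ a ^ 2 + a → coeff y (Gs a n) ≤ 2 ^ (a + n)) : Good a n := by
  simp only [check, Bool.and_eq_true] at hc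
  obtain ⟨hc1, hc2⟩ := hc
  set v := Nat.log2 ((50 * 13 ^ (a + n + 1) * od (a + n) - 41 * 20 ^ (a + n + 1) *
    (od a * od (n + 1))) / (50 * 13 ^ (a + n + 1) * (od a * od (n + 1)))) with hv
  have hb := num_bound (Nat.le_of_ble_eq_true hc1)
  refine ⟨by have : (0 : ℝ) < 2 ^ v := by positivity
             linarith, ?_⟩
  intro y hy
  have hc3 : N &&& mask W v (kk n a) = 0 := by
    unfold mask; rw [← hon]; exact Nat.eq_of_beq_eq_true hc2
  have hyk : y < kk n a := by unfold kk; omega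
  have hr : ∀ z < kk n a, z + 2 ≤ a ^ 2 + a := by
    intro z hz
    unfold kk at hz
    obtain ⟨c, rfl⟩ := Nat.exists_eq_add_of_le h
    have e1 : n + 1 + c - 1 = n + c := by omega
    rw [e1] at hz
    have e4 : (n + 1 + c) ^ 2 = n ^ 2 + 2 * n * c + c ^ 2 + 2 * n + 2 * c + 1 := by ring
    have e5 : 2 * (n + c) * n = 2 * n ^ 2 + 2 * n * c := by ring
    rw [e4] at hz ⊢
    rw [e5] at hz
    omega
  have hdv := hN.dvd _ le_rfl
  rcases Nat.lt_or_ge W v with hvW | hvW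
  · -- the bound `2^W` suffices
    have h5 := h1 y (hr y hyk)
    have h6 : ((coeff y (Gs a n) : ℤ) : ℝ) ≤ 2 ^ (a + n) := by exact_mod_cast h5
    have h7 : (2 : ℝ) ^ (a + n) ≤ 2 ^ v :=
      pow_le_pow_right₀ (by norm_num) (by omega)
    linarith
  · have hlt := digits (W := W) (v := v) hvW _ N (fun y => coeff y (Gs a n))
      (fun z hz => h0 z (hr z hz))
      (fun z hz => by
        have h5 := h1 z (hr z hz)
        have h7 : (2 : ℤ) ^ (a + n) < 2 ^ W :=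
          pow_lt_pow_right₀ (by norm_num) (by omega)
        show coeff z (Gs a n) < 2 ^ W
        linarith)
      hdv hc3 y hyk
    have h6 : ((coeff y (Gs a n) : ℤ) : ℝ) < 2 ^ v := by
      have : coeff y (Gs a n) < (2 : ℤ) ^ v := hlt
      exact_mod_cast this
    linarith

lemma kk_anti {n a : ℕ} (h : n + 1 ≤ a) : kk n (a + 1) ≤ kk n a := by
  unfold kk
  obtain ⟨c, rfl⟩ := Nat.exists_eq_add_of_le h
  have e1 : n + 1 + c - 1 = n + c := by omega
  have e2 : n + 1 + c + 1 - 1 = n + c + 1 := by omega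
  rw [e1, e2]
  have e3 : 2 * (n + c + 1) * n = 2 * (n + c) * n + 2 * n := by ring
  have e4 : (n + 1 + c + 1) ^ 2 = (n + 1 + c) ^ 2 + 2 * n + 2 * c + 3 := by ring
  rw [e3, e4]
  omega

lemma loop_sound {n W : ℕ} :
    ∀ (f a N on : ℕ), a + f + n ≤ W → n + 1 ≤ a → Rep W (kk n a) N (Gs a n) →
      on = ons W (kk n a) →
      loop n W (od (n + 1)) f a N on (od a) (od (a + n)) = true →
      ∀ a', a ≤ a' → a' < a + f →
        (∀ y, y + 2 ≤ a' ^ 2 + a' → 0 ≤ coeff y (Gs a' n)) →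
        (∀ y, y + 2 ≤ a' ^ 2 + a' → coeff y (Gs a' n) ≤ 2 ^ (a' + n)) → Good a' n
  | 0, a, N, on, _, _, _, _, _, a', h1, h2, _, _ => by omega
  | f + 1, a, N, on, hW, han, hN, hon, hl, a', h1, h2, h4, h5 => by
      rw [loop, Bool.and_eq_true] at hl
      obtain ⟨hl1, hl2⟩ := hl
      rcases Nat.eq_or_lt_of_le h1 with rfl | hlt
      · exact check_sound (by omega) han hN hon hl1 h4 h5
      · have hk := kk_anti han
        have hN' : Rep W (kk n (a + 1)) (divQ W (kk n (a + 1)) (2 * a + 1)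
            (mulS (W * kk n (a + 1)) (W * (2 * a + 1 + 2 * n)) N)) (Gs (a + 1) n) := by
          rw [Gs_succ]
          exact ((hN.mono hk).mulS _).divQ (by omega) _ (by omega)
        have hon' : on % 2 ^ (W * kk n (a + 1)) = ons W (kk n (a + 1)) := by
          rw [hon]; exact ons_mod W _ _ (by omega) hk
        have e1 : od a * (2 * a + 1) = od (a + 1) := rfl
        have e2 : od (a + n) * (2 * (a + n) + 1) = od (a + 1 + n) := by
          rw [show a + 1 + n = (a + n) + 1 by ring]; rfl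
        rw [e1, e2] at hl2
        exact loop_sound f (a + 1) _ _ (by omega) (by omega) hN' hon' hl2 a' (by omega) (by omega)
          h4 h5

theorem diag_sound {n W s : ℕ} (hn : 6 ≤ n) (hW : 2 * n + 1 + s ≤ W) (hd : diag n W s = true)
    (a : ℕ) (h : n + 1 ≤ a)
    (h2 : a ≤ n + s) (h0 : ∀ y, y + 2 ≤ a ^ 2 + a → 0 ≤ coeff y (Gs a n))
    (h1 : ∀ y, y + 2 ≤ a ^ 2 + a → coeff y (Gs a n) ≤ 2 ^ (a + n)) : Good a n := by
  unfold diag at hd
  have e : 2 * n + 1 = n + 1 + n := by ring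
  have e2 : (2 ^ (W * kk n (n + 1)) - 1) / (2 ^ W - 1) = ons W (kk n (n + 1)) := by
    rw [pow_mul, geom _ _ (two_le (by omega))]; rfl
  rw [e, e2] at hd
  exact loop_sound s (n + 1) (start n W) _ (by omega) le_rfl (rep_start (by omega) hn) rfl hd a h (by omega)
    h0 h1

end KC

end Pool.Agent.Lib.GKN
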