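import Pool.Agent.Lib.MP_86b3b2_co.Base

namespace Pool.Agent.Lib.GKN

open Finset

/-- The recursive majorant of the Gaussian trinomials. -/
noncomputable def RR : ℕ → ℕ → ℕ → ℝ
  | 0, x, y => if x = 0 ∧ y = 0 then 1 else 0
  | h + 1, x, y => (if 2 ≤ x ∧ 1 ≤ y then RR h (x - 2) (y - 1) else 0) +
      (if 1 ≤ x ∧ 2 ≤ y then RR h (x - 1) (y - 2) else 0) +
      (if 1 ≤ x ∧ 1 ≤ y then RR h (x - 1) (y - 1) else 0)

theorem RR_zero (x y : ℕ) : RR 0 x y = if x = 0 ∧ y = 0 then 1 else 0 := by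
  simp [RR]

theorem RR_succ (h x y : ℕ) : RR (h + 1) x y =
    (if 2 ≤ x ∧ 1 ≤ y then RR h (x - 2) (y - 1) else 0) +
      (if 1 ≤ x ∧ 2 ≤ y then RR h (x - 1) (y - 2) else 0) +
      (if 1 ≤ x ∧ 1 ≤ y then RR h (x - 1) (y - 1) else 0) := by
  rw [RR]

end Pool.Agent.Lib.GKN
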