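import Pool.Agent.Lib.MP_86b3b2_co.RRdef

namespace Pool.Agent.Lib.GKN

open Finset

/-- Lattice path numbers (natural number version of `RR`). -/
def RRn : ℕ → ℕ → ℕ → ℕ
  | 0, x, y => if x = 0 ∧ y = 0 then 1 else 0
  | h + 1, x, y => (if 2 ≤ x ∧ 1 ≤ y then RRn h (x - 2) (y - 1) else 0) +
      (if 1 ≤ x ∧ 2 ≤ y then RRn h (x - 1) (y - 2) else 0) +
      (if 1 ≤ x ∧ 1 ≤ y then RRn h (x - 1) (y - 1) else 0)

lemma RRn_cast : ∀ h x y : ℕ, ((RRn h x y : ℕ) : ℝ) = RR h x y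
  | 0, x, y => by rw [RRn, RR]; push_cast; rfl
  | h + 1, x, y => by
      rw [RRn, RR, ← RRn_cast h, ← RRn_cast h, ← RRn_cast h]
      push_cast
      rfl

/-- `∏_{l=1}^t |1 - om^l|` -/
noncomputable def PP (om : ℂ) (t : ℕ) : ℝ := ∏ l ∈ range t, ‖1 - om ^ (l + 1)‖

/-- `v / m` if `m ∣ v`, otherwise `|1 - z^v|` -/
noncomputable def ff (m : ℕ) (z : ℂ) (v : ℕ) : ℝ := if m ∣ v then (v : ℝ) / m else ‖1 - z ^ v‖

/-- `∏_{i<N} ff (2i+1)` -/
noncomputable def PiN (m : ℕ) (z : ℂ) (N : ℕ) : ℝ := ∏ i ∈ range N, ff m z (2 * i + 1)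

/-- `(2k+1)!!` -/
def dfa (k : ℕ) : ℕ := ∏ i ∈ range (k + 1), (2 * i + 1)

lemma dfa_zero : dfa 0 = 1 := by simp [dfa]

lemma dfa_succ (k : ℕ) : dfa (k + 1) = dfa k * (2 * (k + 1) + 1) := by
  unfold dfa
  rw [prod_range_succ]

lemma dfa_pos (k : ℕ) : 0 < dfa k := by
  unfold dfa
  exact prod_pos fun i _ => by omega

lemma dfa_aux (ka kb : ℕ) :
    dfa (ka + kb) * (ka.factorial * kb.factorial) ≤ dfa ka * dfa kb * (ka + kb).factorial := by
  induction kb with
  | zero => simp [dfa_zero]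
  | succ kb ih =>
    have e1 : ka + (kb + 1) = (ka + kb) + 1 := by ring
    rw [e1, dfa_succ, dfa_succ, Nat.factorial_succ, Nat.factorial_succ]
    have h1 : (2 * (ka + kb + 1) + 1) * (kb + 1) ≤ (2 * (kb + 1) + 1) * (ka + kb + 1) := by
      nlinarith
    calc dfa (ka + kb) * (2 * (ka + kb + 1) + 1) * (ka.factorial * ((kb + 1) * kb.factorial))
        = (dfa (ka + kb) * (ka.factorial * kb.factorial)) * ((2 * (ka + kb + 1) + 1) * (kb + 1)) := by
          ring
      _ ≤ (dfa ka * dfa kb * (ka + kb).factorial) * ((2 * (kb + 1) + 1) * (ka + kb + 1)) :=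
          Nat.mul_le_mul ih h1
      _ = _ := by ring

lemma dfa_le (ka kb : ℕ) : dfa (ka + kb) ≤ 2 ^ (ka + kb) * (dfa ka * dfa kb) := by
  have h1 := dfa_aux ka kb
  have h2 : (ka + kb).choose ka ≤ 2 ^ (ka + kb) := Nat.choose_le_two_pow _ _
  have h3 : (ka + kb).choose ka * (ka.factorial * kb.factorial) = (ka + kb).factorial := by
    have := Nat.choose_mul_factorial_mul_factorial (Nat.le_add_right ka kb)
    rw [Nat.add_sub_cancel_left] at this
    rw [← this]; ring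
  rw [← h3] at h1
  have h4 : 0 < ka.factorial * kb.factorial := Nat.mul_pos (Nat.factorial_pos _) (Nat.factorial_pos _)
  have h5 : dfa (ka + kb) ≤ dfa ka * dfa kb * (ka + kb).choose ka := by
    refine Nat.le_of_mul_le_mul_right ?_ h4
    calc dfa (ka + kb) * (ka.factorial * kb.factorial) ≤ _ := h1
      _ = _ := by ring
  calc dfa (ka + kb) ≤ dfa ka * dfa kb * (ka + kb).choose ka := h5
    _ ≤ dfa ka * dfa kb * 2 ^ (ka + kb) := Nat.mul_le_mul_left _ h2
    _ = _ := by ring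

/-! ### primitive roots -/

lemma PP_zero (om : ℂ) : PP om 0 = 1 := by simp [PP]

lemma PP_succ (om : ℂ) (t : ℕ) : PP om (t + 1) = PP om t * ‖1 - om ^ (t + 1)‖ := by
  simp [PP, prod_range_succ]

lemma PP_nonneg (om : ℂ) (t : ℕ) : 0 ≤ PP om t := prod_nonneg fun _ _ => norm_nonneg _

lemma PP_pos {om : ℂ} {m : ℕ} (hom : IsPrimitiveRoot om m) {t : ℕ} (ht : t < m) : 0 < PP om t := by
  unfold PP
  apply prod_pos
  intro l hl
  rw [mem_range] at hl
  rw [norm_pos_iff, sub_ne_zero]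
  intro h
  exact hom.pow_ne_one_of_pos_of_lt (by omega) (by omega : l + 1 < m) h.symm

lemma norm_one_sub_inv {w : ℂ} (hw : ‖w‖ = 1) : ‖1 - w⁻¹‖ = ‖1 - w‖ := by
  have h0 : w ≠ 0 := by
    intro h; rw [h, norm_zero] at hw; exact zero_ne_one hw
  have : 1 - w⁻¹ = - (w⁻¹ * (1 - w)) := by field_simp; ring
  rw [this, norm_neg, norm_mul, norm_inv, hw, inv_one, one_mul]

lemma norm_om {om : ℂ} {m : ℕ} (hm : m ≠ 0) (hom : IsPrimitiveRoot om m) : ‖om‖ = 1 :=
  hom.norm'_eq_one hm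

lemma norm_one_sub_refl {om : ℂ} {m : ℕ} (hm : m ≠ 0) (hom : IsPrimitiveRoot om m) {i j : ℕ}
    (hij : i + j = m) : ‖1 - om ^ i‖ = ‖1 - om ^ j‖ := by
  have h1 : om ^ i * om ^ j = 1 := by rw [← pow_add, hij]; exact hom.pow_eq_one
  have h2 : om ^ i = (om ^ j)⁻¹ := eq_inv_of_mul_eq_one_left h1
  rw [h2]
  apply norm_one_sub_inv
  rw [norm_pow, norm_om hm hom, one_pow]

lemma PP_top {om : ℂ} {n : ℕ} (hom : IsPrimitiveRoot om (n + 1)) : PP om n = n + 1 := by
  unfold PP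
  rw [← norm_prod, hom.prod_one_sub_pow_eq_order]
  have : ((n : ℂ) + 1) = ((n + 1 : ℕ) : ℂ) := by push_cast; ring
  rw [this, Complex.norm_natCast]
  push_cast; ring

lemma PP_mul {om : ℂ} {n : ℕ} (hom : IsPrimitiveRoot om (n + 1)) {g g' : ℕ} (hg : g + g' = n) :
    PP om g * PP om g' = n + 1 := by
  rw [← PP_top hom]
  unfold PP
  rw [← hg, prod_range_add]
  congr 1
  rw [← prod_range_reflect]
  apply prod_congr rfl
  intro l hl
  rw [mem_range] at hl
  apply norm_one_sub_refl (Nat.succ_ne_zero n) hom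
  omega

/-! ### the bound by `RRn` -/

lemma norm_three (om : ℂ) (hom : ‖om‖ = 1) (al be ga : ℕ) :
    ‖1 - om ^ (al + be + ga)‖ ≤ ‖1 - om ^ al‖ + ‖1 - om ^ be‖ + ‖1 - om ^ ga‖ := by
  have e : 1 - om ^ (al + be + ga)
      = (1 - om ^ al) + om ^ al * (1 - om ^ be) + om ^ (al + be) * (1 - om ^ ga) := by ring
  rw [e]
  calc _ ≤ ‖(1 - om ^ al) + om ^ al * (1 - om ^ be)‖ + ‖om ^ (al + be) * (1 - om ^ ga)‖ :=
        norm_add_le _ _
    _ ≤ ‖1 - om ^ al‖ + ‖om ^ al * (1 - om ^ be)‖ + ‖om ^ (al + be) * (1 - om ^ ga)‖ := by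
        gcongr; exact norm_add_le _ _
    _ = _ := by
        rw [norm_mul, norm_mul, norm_pow, norm_pow, hom, one_pow, one_pow, one_mul, one_mul]

lemma RR_bound {om : ℂ} {m : ℕ} (hm : m ≠ 0) (hom : IsPrimitiveRoot om m) :
    ∀ (h al be ga : ℕ), al + be + ga = h → h < m →
      PP om h / (PP om al * PP om be * PP om ga) ≤ (RRn h (h + al) (h + be) : ℕ) := by
  intro h
  induction h with
  | zero =>
    intro al be ga h1 _
    obtain rfl : al = 0 := by omega
    obtain rfl : be = 0 := by omega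
    obtain rfl : ga = 0 := by omega
    simp [PP_zero, RRn]
  | succ h ih =>
    intro al be ga h1 h2
    have hpal := PP_pos hom (show al < m by omega)
    have hpbe := PP_pos hom (show be < m by omega)
    have hpga := PP_pos hom (show ga < m by omega)
    have hph := PP_pos hom (show h < m by omega)
    have hthree := norm_three om (norm_om hm hom) al be ga
    rw [h1] at hthree
    -- the three pieces
    have k1 : PP om h * ‖1 - om ^ al‖ / (PP om al * PP om be * PP om ga) ≤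
        ((if 2 ≤ h + 1 + al ∧ 1 ≤ h + 1 + be then RRn h (h + 1 + al - 2) (h + 1 + be - 1) else 0 : ℕ) : ℝ) := by
      rcases al with _ | al
      · rw [pow_zero, sub_self, norm_zero, mul_zero, zero_div]
        exact Nat.cast_nonneg _
      · have hp' := PP_pos hom (show al < m by omega)
        rw [if_pos ⟨by omega, by omega⟩]
        have := ih al be ga (by omega) (by omega)
        rw [show h + 1 + (al + 1) - 2 = h + al by omega, show h + 1 + be - 1 = h + be by omega]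
        refine le_trans (le_of_eq ?_) this
        rw [PP_succ]
        have hn : ‖1 - om ^ (al + 1)‖ ≠ 0 := by
          intro h0; rw [PP_succ, h0] at hpal; simp at hpal
        field_simp
    have k2 : PP om h * ‖1 - om ^ be‖ / (PP om al * PP om be * PP om ga) ≤
        ((if 1 ≤ h + 1 + al ∧ 2 ≤ h + 1 + be then RRn h (h + 1 + al - 1) (h + 1 + be - 2) else 0 : ℕ) : ℝ) := by
      rcases be with _ | be
      · rw [pow_zero, sub_self, norm_zero, mul_zero, zero_div]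
        exact Nat.cast_nonneg _
      · have hp' := PP_pos hom (show be < m by omega)
        rw [if_pos ⟨by omega, by omega⟩]
        have := ih al be ga (by omega) (by omega)
        rw [show h + 1 + al - 1 = h + al by omega, show h + 1 + (be + 1) - 2 = h + be by omega]
        refine le_trans (le_of_eq ?_) this
        rw [PP_succ]
        have hn : ‖1 - om ^ (be + 1)‖ ≠ 0 := by
          intro h0; rw [PP_succ, h0] at hpbe; simp at hpbe
        field_simp
    have k3 : PP om h * ‖1 - om ^ ga‖ / (PP om al * PP om be * PP om ga) ≤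
        ((if 1 ≤ h + 1 + al ∧ 1 ≤ h + 1 + be then RRn h (h + 1 + al - 1) (h + 1 + be - 1) else 0 : ℕ) : ℝ) := by
      rcases ga with _ | ga
      · rw [pow_zero, sub_self, norm_zero, mul_zero, zero_div]
        exact Nat.cast_nonneg _
      · have hp' := PP_pos hom (show ga < m by omega)
        rw [if_pos ⟨by omega, by omega⟩]
        have := ih al be ga (by omega) (by omega)
        rw [show h + 1 + al - 1 = h + al by omega, show h + 1 + be - 1 = h + be by omega]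
        refine le_trans (le_of_eq ?_) this
        rw [PP_succ]
        have hn : ‖1 - om ^ (ga + 1)‖ ≠ 0 := by
          intro h0; rw [PP_succ, h0] at hpga; simp at hpga
        field_simp
    have hRR : ((RRn (h + 1) (h + 1 + al) (h + 1 + be) : ℕ) : ℝ) =
        ((if 2 ≤ h + 1 + al ∧ 1 ≤ h + 1 + be then RRn h (h + 1 + al - 2) (h + 1 + be - 1) else 0 : ℕ) : ℝ)
        + ((if 1 ≤ h + 1 + al ∧ 2 ≤ h + 1 + be then RRn h (h + 1 + al - 1) (h + 1 + be - 2) else 0 : ℕ) : ℝ)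
        + ((if 1 ≤ h + 1 + al ∧ 1 ≤ h + 1 + be then RRn h (h + 1 + al - 1) (h + 1 + be - 1) else 0 : ℕ) : ℝ) := by
      rw [← Nat.cast_add, ← Nat.cast_add]
      rfl
    rw [hRR]
    refine le_trans ?_ (add_le_add (add_le_add k1 k2) k3)
    rw [PP_succ, ← add_div, ← add_div, ← mul_add, ← mul_add]
    gcongr

/-! ### evaluation of `PiN` -/

lemma two_coprime {h : ℕ} : Nat.Coprime 2 (2 * h + 1) := by
  rw [Nat.coprime_two_left]
  exact ⟨h, rfl⟩

lemma prim_sq {h : ℕ} {z : ℂ} (hz : IsPrimitiveRoot z (2 * h + 1)) :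
    IsPrimitiveRoot (z ^ 2) (2 * h + 1) := hz.pow_of_coprime 2 two_coprime

lemma ff_mid {h : ℕ} (z : ℂ) (k : ℕ) :
    ff (2 * h + 1) z (2 * (k * (2 * h + 1) + h) + 1) = 2 * (k : ℝ) + 1 := by
  unfold ff
  rw [if_pos ⟨2 * k + 1, by ring⟩]
  have : ((2 * h + 1 : ℕ) : ℝ) ≠ 0 := by positivity
  rw [div_eq_iff this]
  push_cast
  ring

lemma ff_low {h : ℕ} {z : ℂ} (hz : IsPrimitiveRoot z (2 * h + 1)) {i : ℕ} (hi : i < h) :
    ff (2 * h + 1) z (2 * i + 1) = ‖1 - (z ^ 2) ^ (h - 1 - i + 1)‖ := by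
  unfold ff
  rw [if_neg (fun hd => by have := Nat.le_of_dvd (by omega) hd; omega)]
  rw [← pow_mul]
  apply norm_one_sub_refl (by omega) hz
  omega

lemma ff_high {h : ℕ} {z : ℂ} (hz : IsPrimitiveRoot z (2 * h + 1)) (k l : ℕ) (hl : l < 2 * h) :
    ff (2 * h + 1) z (2 * (k * (2 * h + 1) + h + 1 + l) + 1) = ‖1 - (z ^ 2) ^ (l + 1)‖ := by
  have e : 2 * (k * (2 * h + 1) + h + 1 + l) + 1 = (2 * h + 1) * (2 * k + 1) + 2 * (l + 1) := by ring
  unfold ff
  have hnd : ¬ (2 * h + 1) ∣ 2 * (k * (2 * h + 1) + h + 1 + l) + 1 := by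
    rw [e, Nat.dvd_add_right (Nat.dvd_mul_right _ _)]
    intro hd
    have h1 : (2 * h + 1) ∣ l + 1 := (Nat.Coprime.symm two_coprime).dvd_of_dvd_mul_left hd
    have := Nat.le_of_dvd (by omega) h1
    omega
  rw [if_neg hnd, e, pow_add, pow_mul, hz.pow_eq_one, one_pow, one_mul, pow_mul]

lemma PiN_add (m : ℕ) (z : ℂ) (N M : ℕ) :
    PiN m z (N + M) = PiN m z N * ∏ i ∈ range M, ff m z (2 * (N + i) + 1) := by
  unfold PiN
  rw [prod_range_add]

lemma PiN_base {h : ℕ} {z : ℂ} (hz : IsPrimitiveRoot z (2 * h + 1)) :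
    PiN (2 * h + 1) z (h + 1) = PP (z ^ 2) h := by
  have h1 : PiN (2 * h + 1) z h = PP (z ^ 2) h := by
    unfold PiN PP
    rw [← prod_range_reflect (fun l => ‖1 - (z ^ 2) ^ (l + 1)‖)]
    apply prod_congr rfl
    intro i hi
    rw [mem_range] at hi
    exact ff_low hz hi
  rw [PiN_add, h1]
  have := ff_mid (h := h) z 0
  simp only [zero_mul, zero_add, Nat.cast_zero, mul_zero] at this
  simp [this]

lemma PiN_part {h : ℕ} {z : ℂ} (hz : IsPrimitiveRoot z (2 * h + 1)) (k g : ℕ) (hg : g ≤ 2 * h) :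
    PiN (2 * h + 1) z (k * (2 * h + 1) + h + 1 + g) =
      PiN (2 * h + 1) z (k * (2 * h + 1) + h + 1) * PP (z ^ 2) g := by
  rw [PiN_add]
  congr 1
  unfold PP
  apply prod_congr rfl
  intro l hl
  rw [mem_range] at hl
  exact ff_high hz k l (by omega)

lemma PiN_block {h : ℕ} {z : ℂ} (hz : IsPrimitiveRoot z (2 * h + 1)) (k : ℕ) :
    PiN (2 * h + 1) z (k * (2 * h + 1) + h + 1) = dfa k * (2 * h + 1 : ℝ) ^ k * PP (z ^ 2) h := by
  induction k with
  | zero => rw [zero_mul, zero_add, PiN_base hz, dfa_zero]; simp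
  | succ k ih =>
    have e : (k + 1) * (2 * h + 1) + h + 1 = (k * (2 * h + 1) + h + 1 + 2 * h) + 1 := by ring
    rw [e, PiN_add, PiN_part hz k (2 * h) le_rfl, ih, PP_top (prim_sq hz)]
    have e2 : k * (2 * h + 1) + h + 1 + 2 * h = (k + 1) * (2 * h + 1) + h := by ring
    rw [prod_range_one, add_zero, e2, ff_mid, dfa_succ]
    push_cast
    ring

theorem PiN_eq {h : ℕ} {z : ℂ} (hz : IsPrimitiveRoot z (2 * h + 1)) (k g : ℕ) (hg : g ≤ 2 * h) :
    PiN (2 * h + 1) z (k * (2 * h + 1) + h + 1 + g) =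
      dfa k * (2 * h + 1 : ℝ) ^ k * PP (z ^ 2) h * PP (z ^ 2) g := by
  rw [PiN_part hz k g hg, PiN_block hz k]

theorem PiN_pos (h N : ℕ) (z : ℂ) (hz : IsPrimitiveRoot z (2 * h + 1)) (_hh : 1 ≤ h) :
    0 < PiN (2 * h + 1) z N := by
  unfold PiN
  apply prod_pos
  intro i _
  unfold ff
  split_ifs with hd
  · positivity
  · rw [norm_pos_iff, sub_ne_zero]
    intro h0
    exact hd ((hz.pow_eq_one_iff_dvd _).1 h0.symm)

theorem root_bound (h : ℕ) (hh : 1 ≤ h) (z : ℂ) (hz : IsPrimitiveRoot z (2 * h + 1))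
    (ka kb al be : ℕ) (hab : al + be ≤ h) :
    PiN (2 * h + 1) z ((ka * (2 * h + 1) + h + 1 + al) + (kb * (2 * h + 1) + h + 1 + be) - 1) /
      (PiN (2 * h + 1) z (ka * (2 * h + 1) + h + 1 + al) *
        PiN (2 * h + 1) z (kb * (2 * h + 1) + h + 1 + be)) ≤
      2 ^ (ka + kb) * (RRn h (h + al) (h + be) : ℕ) := by
  have e : (ka * (2 * h + 1) + h + 1 + al) + (kb * (2 * h + 1) + h + 1 + be) - 1
      = (ka + kb) * (2 * h + 1) + h + 1 + (h + al + be) := by
    have : (ka + kb) * (2 * h + 1) = ka * (2 * h + 1) + kb * (2 * h + 1) := by ring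
    rw [this]
    omega
  rw [e, PiN_eq hz _ _ (by omega), PiN_eq hz _ _ (by omega), PiN_eq hz _ _ (by omega)]
  obtain ⟨ga, hga⟩ : ∃ ga, al + be + ga = h := ⟨h - (al + be), by omega⟩
  have hom := prim_sq hz
  have hpal := PP_pos hom (show al < 2 * h + 1 by omega)
  have hpbe := PP_pos hom (show be < 2 * h + 1 by omega)
  have hpga := PP_pos hom (show ga < 2 * h + 1 by omega)
  have hph := PP_pos hom (show h < 2 * h + 1 by omega)
  have hRR := RR_bound (by omega) hom h al be ga hga (by omega)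
  have m1 : PP (z ^ 2) (h + al + be) * PP (z ^ 2) ga = ((2 * h : ℕ) : ℝ) + 1 := PP_mul hom (by omega)
  have m2 : PP (z ^ 2) h * PP (z ^ 2) h = ((2 * h : ℕ) : ℝ) + 1 := PP_mul hom (by omega)
  have m3 : PP (z ^ 2) (h + al + be) = PP (z ^ 2) h * PP (z ^ 2) h / PP (z ^ 2) ga := by
    rw [eq_div_iff hpga.ne', m1, m2]
  have hda : (0 : ℝ) < dfa ka := by exact_mod_cast dfa_pos ka
  have hdb : (0 : ℝ) < dfa kb := by exact_mod_cast dfa_pos kb
  have hdf : ((dfa (ka + kb) : ℕ) : ℝ) ≤ 2 ^ (ka + kb) * ((dfa ka : ℝ) * dfa kb) := by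
    exact_mod_cast dfa_le ka kb
  have hm : (0 : ℝ) < 2 * (h : ℝ) + 1 := by positivity
  have e3 : (dfa (ka + kb) : ℝ) * (2 * (h : ℝ) + 1) ^ (ka + kb) * PP (z ^ 2) h * PP (z ^ 2) (h + al + be) /
      ((dfa ka : ℝ) * (2 * (h : ℝ) + 1) ^ ka * PP (z ^ 2) h * PP (z ^ 2) al *
        ((dfa kb : ℝ) * (2 * (h : ℝ) + 1) ^ kb * PP (z ^ 2) h * PP (z ^ 2) be)) =
      ((dfa (ka + kb) : ℝ) / ((dfa ka : ℝ) * dfa kb)) *
        (PP (z ^ 2) h / (PP (z ^ 2) al * PP (z ^ 2) be * PP (z ^ 2) ga)) := by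
    rw [m3, pow_add]
    field_simp
  rw [e3]
  have hq : (dfa (ka + kb) : ℝ) / ((dfa ka : ℝ) * dfa kb) ≤ 2 ^ (ka + kb) := by
    rw [div_le_iff₀ (by positivity)]
    exact hdf
  have hq0 : 0 ≤ PP (z ^ 2) h / (PP (z ^ 2) al * PP (z ^ 2) be * PP (z ^ 2) ga) := by positivity
  exact mul_le_mul hq hRR hq0 (by positivity)

end Pool.Agent.Lib.GKN
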