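import Pool.Agent.Lib.MP_86b3b2_co.HPoly
import Pool.Agent.Lib.MP_86b3b2_co.Root

namespace Pool.Agent.Lib.GKN

open Finset Polynomial

/-- `1 - X^v` with the factor `1 - X^m` removed if `m ∣ v` -/
noncomputable def UU (m v : ℕ) : ℤ[X] :=
  if m ∣ v then ∑ l ∈ range (v / m), (X ^ m) ^ l else 1 - X ^ v

lemma one_sub_eq_UU (m v : ℕ) :
    (1 - (X : ℤ[X]) ^ v) = (if m ∣ v then (1 - X ^ m) else 1) * UU m v := by
  unfold UU
  split_ifs with hd
  · rw [mul_neg_geom_sum, ← pow_mul, Nat.mul_div_cancel' hd]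
  · rw [one_mul]

lemma pop_fac (h N : ℕ) : pop 1 N =
    (1 - X ^ (2 * h + 1)) ^ ((N + h) / (2 * h + 1)) * ∏ i ∈ range N, UU (2 * h + 1) (2 * i + 1) := by
  rw [← cnt_odd]
  induction N with
  | zero => simp [pop, cnt]
  | succ m ih =>
    have e1 : pop 1 (m + 1) = pop 1 m * (1 - X ^ (2 * m + 1)) := by
      unfold pop
      rw [prod_range_succ, add_comm 1 (2 * m)]
    have e2 : cnt (2 * h + 1) (m + 1) = cnt (2 * h + 1) m + if (2 * h + 1) ∣ 2 * m + 1 then 1 else 0 := by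
      unfold cnt
      rw [range_add_one, filter_insert]
      split_ifs with hd
      · rw [card_insert_of_notMem (by simp)]
      · rfl
    rw [e1, ih, one_sub_eq_UU (2 * h + 1) (2 * m + 1), e2, prod_range_succ]
    split_ifs with hd
    · rw [pow_succ]; ring
    · rw [add_zero]; ring

lemma norm_UU (m : ℕ) (hm : 1 ≤ m) (z : ℂ) (hz : IsPrimitiveRoot z m) (v : ℕ) :
    ‖aeval z (UU m v)‖ = ff m z v := by
  unfold UU ff
  split_ifs with hd
  · rw [map_sum]
    simp only [map_pow, aeval_X, hz.pow_eq_one, one_pow, sum_const, card_range, nsmul_eq_mul,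
      mul_one]
    rw [Complex.norm_natCast, Nat.cast_div hd (by exact_mod_cast (by omega : m ≠ 0))]
  · simp

lemma ff_pos (m : ℕ) (hm : 1 ≤ m) (z : ℂ) (hz : IsPrimitiveRoot z m) (v : ℕ) (hv : 1 ≤ v) :
    0 < ff m z v := by
  unfold ff
  split_ifs with hd
  · have h1 : (0 : ℝ) < v := by exact_mod_cast hv
    have h2 : (0 : ℝ) < m := by exact_mod_cast hm
    positivity
  · rw [norm_pos_iff, sub_ne_zero]
    intro h
    exact hd (hz.dvd_of_pow_eq_one v h.symm)

lemma PiN_pos' (m : ℕ) (hm : 1 ≤ m) (z : ℂ) (hz : IsPrimitiveRoot z m) (N : ℕ) :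
    0 < PiN m z N := by
  unfold PiN
  apply prod_pos
  intro i _
  exact ff_pos m hm z hz _ (by omega)

lemma norm_prod_UU (m : ℕ) (hm : 1 ≤ m) (z : ℂ) (hz : IsPrimitiveRoot z m) (N : ℕ) :
    ‖aeval z (∏ i ∈ range N, UU m (2 * i + 1))‖ = PiN m z N := by
  rw [map_prod, norm_prod]
  unfold PiN
  apply prod_congr rfl
  intro i _
  exact norm_UU m hm z hz _

theorem norm_H (a n L h : ℕ) (H : ℤ[X])
    (hH : (1 - (X : ℤ[X]) ^ L) * pop (2 * a + 1) n = pop 1 (n + 1) * H)
    (z : ℂ) (hz : IsPrimitiveRoot z (2 * h + 1)) (hmL : (2 * h + 1) ∣ L) :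
    ((a + h) % (2 * h + 1) + (n + 1 + h) % (2 * h + 1) ≤ h →
      ‖aeval z H‖ = (L : ℝ) / (2 * h + 1 : ℕ) * (PiN (2 * h + 1) z (a + n) /
        (PiN (2 * h + 1) z a * PiN (2 * h + 1) z (n + 1)))) ∧
    (h < (a + h) % (2 * h + 1) + (n + 1 + h) % (2 * h + 1) → aeval z H = 0) := by
  set m := 2 * h + 1 with hm
  have hm1 : 1 ≤ m := by omega
  have h1 : (1 - (X : ℤ[X]) ^ L) * pop 1 (a + n) = pop 1 (n + 1) * pop 1 a * H := by
    rw [pop_add 1 a n, show 1 + 2 * a = 2 * a + 1 by ring]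
    linear_combination pop 1 a * hH
  rw [pop_fac h (a + n), pop_fac h (n + 1), pop_fac h a, one_sub_eq_UU m L, if_pos hmL, ← hm] at h1
  have da := Nat.div_add_mod (a + h) m
  have db := Nat.div_add_mod (n + 1 + h) m
  have ma := Nat.mod_lt (a + h) (show m > 0 by omega)
  have mb := Nat.mod_lt (n + 1 + h) (show m > 0 by omega)
  set ka := (a + h) / m with hka
  set kb := (n + 1 + h) / m with hkb
  set al := (a + h) % m with hal
  set be := (n + 1 + h) % m with hbe
  have hne : (1 - (X : ℤ[X]) ^ m) ≠ 0 := one_sub_X_pow_ne_zero m hm1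
  have hz0 : aeval z (1 - (X : ℤ[X]) ^ m) = 0 := by
    simp [hz.pow_eq_one]
  have hA := PiN_pos' m hm1 z hz a
  have hB := PiN_pos' m hm1 z hz (n + 1)
  constructor
  · intro hle
    have e1 : (a + n + h) / m + 1 = ka + kb := by
      have : a + n + h + m = m * (ka + kb) + (al + be + m - h - 1) := by
        have : m * (ka + kb) = m * ka + m * kb := by ring
        omega
      have h2 : (a + n + h + m) / m = ka + kb := by
        rw [this, Nat.mul_add_div (by omega)]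
        have : (al + be + m - h - 1) / m = 0 := Nat.div_eq_of_lt (by omega)
        omega
      rw [Nat.add_div_right _ (by omega)] at h2
      omega
    have h2 : UU m L * ∏ i ∈ range (a + n), UU m (2 * i + 1) =
        (∏ i ∈ range (n + 1), UU m (2 * i + 1)) * (∏ i ∈ range a, UU m (2 * i + 1)) * H := by
      apply mul_left_cancel₀ (pow_ne_zero (ka + kb) hne)
      have e2 : (1 - (X : ℤ[X]) ^ m) ^ (ka + kb) =
          (1 - X ^ m) * (1 - X ^ m) ^ ((a + n + h) / m) := by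
        rw [← e1, pow_succ]; ring
      have e3 : (1 - (X : ℤ[X]) ^ m) ^ (ka + kb) = (1 - X ^ m) ^ ka * (1 - X ^ m) ^ kb := by
        rw [pow_add]
      calc (1 - (X : ℤ[X]) ^ m) ^ (ka + kb) * (UU m L * ∏ i ∈ range (a + n), UU m (2 * i + 1))
          = (1 - X ^ m) * UU m L * ((1 - X ^ m) ^ ((a + n + h) / m) *
            ∏ i ∈ range (a + n), UU m (2 * i + 1)) := by rw [e2]; ring
        _ = _ := by rw [h1, e3]; ring
    have h3 := congrArg (fun p => ‖aeval z p‖) h2
    simp only [map_mul, norm_mul] at h3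
    rw [norm_prod_UU m hm1 z hz, norm_prod_UU m hm1 z hz, norm_prod_UU m hm1 z hz,
      norm_UU m hm1 z hz] at h3
    have h4 : ff m z L = (L : ℝ) / m := by unfold ff; rw [if_pos hmL]
    rw [h4] at h3
    rw [← mul_div_assoc, h3]
    field_simp
  · intro hlt
    have e1 : ka + kb + 1 ≤ (a + n + h) / m + 1 := by
      have : a + n + h = m * (ka + kb) + (al + be - h - 1) := by
        have : m * (ka + kb) = m * ka + m * kb := by ring
        omega
      have h2 : (a + n + h) / m = ka + kb + (al + be - h - 1) / m := by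
        rw [this, Nat.mul_add_div (by omega)]
      have h3 := Nat.le_add_right (ka + kb) ((al + be - h - 1) / m)
      rw [← h2] at h3
      omega
    obtain ⟨c, hc⟩ := Nat.exists_eq_add_of_le e1
    have h2 : (1 - (X : ℤ[X]) ^ m) ^ (c + 1) * (UU m L * ∏ i ∈ range (a + n), UU m (2 * i + 1)) =
        (∏ i ∈ range (n + 1), UU m (2 * i + 1)) * (∏ i ∈ range a, UU m (2 * i + 1)) * H := by
      apply mul_left_cancel₀ (pow_ne_zero (ka + kb) hne)
      have e2 : (1 - (X : ℤ[X]) ^ m) ^ (ka + kb) * (1 - (X : ℤ[X]) ^ m) ^ (c + 1) =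
          (1 - X ^ m) * (1 - X ^ m) ^ ((a + n + h) / m) := by
        rw [← pow_add]
        have : ka + kb + (c + 1) = (a + n + h) / m + 1 := by omega
        rw [this, pow_succ]; ring
      have e3 : (1 - (X : ℤ[X]) ^ m) ^ (ka + kb) = (1 - X ^ m) ^ ka * (1 - X ^ m) ^ kb := by
        rw [pow_add]
      calc (1 - (X : ℤ[X]) ^ m) ^ (ka + kb) * ((1 - (X : ℤ[X]) ^ m) ^ (c + 1) *
            (UU m L * ∏ i ∈ range (a + n), UU m (2 * i + 1)))
          = ((1 - (X : ℤ[X]) ^ m) ^ (ka + kb) * (1 - (X : ℤ[X]) ^ m) ^ (c + 1)) *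
            (UU m L * ∏ i ∈ range (a + n), UU m (2 * i + 1)) := by ring
        _ = (1 - X ^ m) * UU m L * ((1 - X ^ m) ^ ((a + n + h) / m) *
            ∏ i ∈ range (a + n), UU m (2 * i + 1)) := by rw [e2]; ring
        _ = _ := by rw [h1, e3]; ring
    have h3 := congrArg (fun p => ‖aeval z p‖) h2
    simp only [map_mul, norm_mul, map_pow, hz0] at h3
    rw [norm_prod_UU m hm1 z hz, norm_prod_UU m hm1 z hz, norm_prod_UU m hm1 z hz] at h3
    simp only [norm_pow, norm_zero] at h3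
    rw [zero_pow (by omega), zero_mul] at h3
    have h5 : ‖aeval z H‖ = 0 := by
      have h6 : PiN m z (n + 1) * PiN m z a ≠ 0 := by positivity
      rcases mul_eq_zero.1 h3.symm with h7 | h7
      · exact absurd h7 h6
      · exact h7
    exact norm_eq_zero.1 h5

/-- value at `1` -/
theorem eval_one_H (a n L : ℕ) (H : ℤ[X])
    (hH : (1 - (X : ℤ[X]) ^ L) * pop (2 * a + 1) n = pop 1 (n + 1) * H) :
    ((aeval (1 : ℂ) H : ℂ)) = ((L * mu a n : ℝ) : ℂ) := by
  -- `1 - X^v = (1 - X) * sum`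
  have g1 : ∀ v : ℕ, (1 - (X : ℤ[X]) ^ v) = (1 - X) * ∑ l ∈ range v, X ^ l := by
    intro v; rw [mul_neg_geom_sum]
  have g2 : ∀ x m : ℕ, pop x m = (1 - X) ^ m * ∏ i ∈ range m, ∑ l ∈ range (x + 2 * i), X ^ l := by
    intro x m
    unfold pop
    rw [prod_congr rfl fun i _ => g1 (x + 2 * i), prod_mul_distrib]
    simp
  rw [g2, g2, g1] at hH
  have hne : (1 - (X : ℤ[X])) ≠ 0 := by
    have := one_sub_X_pow_ne_zero 1 le_rfl
    rwa [pow_one] at this
  have h2 : (∑ l ∈ range L, (X : ℤ[X]) ^ l) * (∏ i ∈ range n, ∑ l ∈ range (2 * a + 1 + 2 * i), X ^ l) =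
      (∏ i ∈ range (n + 1), ∑ l ∈ range (1 + 2 * i), X ^ l) * H := by
    apply mul_left_cancel₀ (pow_ne_zero (n + 1) hne)
    rw [pow_succ] at hH ⊢
    linear_combination hH
  have h3 := congrArg (fun p => (aeval (1 : ℂ) p : ℂ)) h2
  simp only [map_mul, map_prod, map_sum, map_pow, aeval_X, one_pow, sum_const, card_range,
    nsmul_eq_mul, mul_one] at h3
  unfold mu
  have h4 : (∏ i ∈ range (n + 1), ((1 + 2 * i : ℕ) : ℂ)) ≠ 0 := by
    rw [prod_ne_zero_iff]
    intro i _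
    exact_mod_cast (by omega : 1 + 2 * i ≠ 0)
  have h5 : (∏ i ∈ range (n + 1), ((1 + 2 * i : ℕ) : ℂ)) =
      ((∏ i ∈ range (n + 1), (2 * (i : ℝ) + 1) : ℝ) : ℂ) := by
    push_cast
    apply prod_congr rfl
    intro i _
    ring
  have h6 : (∏ i ∈ range n, ((2 * a + 1 + 2 * i : ℕ) : ℂ)) =
      ((∏ i ∈ range n, (2 * (a : ℝ) + 1 + 2 * (i : ℝ)) : ℝ) : ℂ) := by
    push_cast
    rfl
  rw [h5] at h3 h4
  rw [h6] at h3
  rw [Complex.ofReal_mul, Complex.ofReal_div, Complex.ofReal_natCast, ← mul_div_assoc, h3,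
    eq_div_iff h4]
  ring

end Pool.Agent.Lib.GKN
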